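import Mathlib

set_option autoImplicit false
set_option linter.unusedSectionVars false

namespace Pool.Agent.H21.Imm

open Finset

variable {V : Type} [Fintype V] [DecidableEq V]

/-- The darts of `G` going from `A` to `B`. -/
noncomputable def darts (G : SimpleGraph V) (A B : Finset V) : Finset (V × V) := by
  classical exact (A ×ˢ B).filter (fun p => G.Adj p.1 p.2)

@[simp] lemma mem_darts {G : SimpleGraph V} {A B : Finset V} {p : V × V} :
    p ∈ darts G A B ↔ (p.1 ∈ A ∧ p.2 ∈ B) ∧ G.Adj p.1 p.2 := by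
  classical
  unfold darts
  rw [Finset.mem_filter, Finset.mem_product]

/-- Twice the number of edges inside `X`. -/
noncomputable def inn (G : SimpleGraph V) (X : Finset V) : ℕ := (darts G X X).card

/-- The number of edges leaving `X`. -/
noncomputable def bd (G : SimpleGraph V) (X : Finset V) : ℕ := (darts G X Xᶜ).card

/-- The graph `G` restricted to the vertex set `U` (on the same vertex type). -/
def res (G : SimpleGraph V) (U : Finset V) : SimpleGraph V where
  Adj u v := (u ∈ U ∧ v ∈ U) ∧ G.Adj u v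
  symm := ⟨fun _ _ h => ⟨⟨h.1.2, h.1.1⟩, h.2.symm⟩⟩
  loopless := ⟨fun _ h => h.2.ne rfl⟩

@[simp] lemma res_adj {G : SimpleGraph V} {U : Finset V} {u v : V} :
    (res G U).Adj u v ↔ (u ∈ U ∧ v ∈ U) ∧ G.Adj u v := Iff.rfl

lemma res_le (G : SimpleGraph V) (U : Finset V) : res G U ≤ G := fun _ _ h => h.2

lemma res_mono_set (G : SimpleGraph V) {U U' : Finset V} (h : U ⊆ U') : res G U ≤ res G U' :=
  fun _ _ h' => ⟨⟨h h'.1.1, h h'.1.2⟩, h'.2⟩

lemma res_res {G : SimpleGraph V} {U U' : Finset V} (h : U ⊆ U') :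
    res (res G U') U = res G U := by
  ext u v
  simp only [res_adj]
  constructor
  · rintro ⟨h1, h2, h3⟩; exact ⟨h1, h3⟩
  · rintro ⟨h1, h3⟩; exact ⟨h1, ⟨h h1.1, h h1.2⟩, h3⟩

lemma darts_mono {G G' : SimpleGraph V} (hG : G ≤ G') {A A' B B' : Finset V} (hA : A ⊆ A')
    (hB : B ⊆ B') : darts G A B ⊆ darts G' A' B' := by
  intro p hp
  rw [mem_darts] at hp ⊢
  exact ⟨⟨hA hp.1.1, hB hp.1.2⟩, hG hp.2⟩

lemma inn_mono {G G' : SimpleGraph V} (hG : G ≤ G') {X X' : Finset V} (hX : X ⊆ X') :
    inn G X ≤ inn G' X' := card_le_card (darts_mono hG hX hX)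

lemma bd_mono {G G' : SimpleGraph V} (hG : G ≤ G') (X : Finset V) :
    bd G X ≤ bd G' X := card_le_card (darts_mono hG (Subset.refl _) (Subset.refl _))

@[simp] lemma inn_empty (G : SimpleGraph V) : inn G ∅ = 0 := by
  unfold inn
  rw [card_eq_zero, eq_empty_iff_forall_notMem]
  intro p hp
  rw [mem_darts] at hp
  simpa using hp.1.1

@[simp] lemma bd_empty (G : SimpleGraph V) : bd G ∅ = 0 := by
  unfold bd
  rw [card_eq_zero, eq_empty_iff_forall_notMem]
  intro p hp
  rw [mem_darts] at hp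
  simpa using hp.1.1

lemma inn_singleton (G : SimpleGraph V) (v : V) : inn G {v} = 0 := by
  unfold inn
  rw [card_eq_zero, eq_empty_iff_forall_notMem]
  intro p hp
  rw [mem_darts] at hp
  simp only [mem_singleton] at hp
  exact hp.2.ne (hp.1.1.trans hp.1.2.symm)

lemma inn_le_sq (G : SimpleGraph V) (X : Finset V) : inn G X ≤ X.card * X.card := by
  unfold inn
  calc (darts G X X).card ≤ (X ×ˢ X).card := by
        apply card_le_card
        intro p hp
        rw [mem_darts] at hp
        exact mem_product.2 hp.1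
    _ = _ := card_product _ _

lemma card_darts_swap (G : SimpleGraph V) (A B : Finset V) :
    (darts G A B).card = (darts G B A).card := by
  apply card_bij (fun p _ => (p.2, p.1))
  · intro p hp
    rw [mem_darts] at hp ⊢
    exact ⟨⟨hp.1.2, hp.1.1⟩, hp.2.symm⟩
  · rintro ⟨a, b⟩ _ ⟨c, d⟩ _ h
    simp only [Prod.mk.injEq] at h ⊢
    exact ⟨h.2, h.1⟩
  · rintro ⟨a, b⟩ hp
    rw [mem_darts] at hp
    exact ⟨(b, a), by rw [mem_darts]; exact ⟨⟨hp.1.2, hp.1.1⟩, hp.2.symm⟩, rfl⟩

lemma card_darts_union_left (G : SimpleGraph V) {A A' : Finset V} (B : Finset V)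
    (h : Disjoint A A') :
    (darts G (A ∪ A') B).card = (darts G A B).card + (darts G A' B).card := by
  rw [← card_union_of_disjoint]
  · congr 1
    ext p
    simp only [mem_darts, mem_union]
    tauto
  · rw [disjoint_left]
    intro p hp hp'
    rw [mem_darts] at hp hp'
    exact disjoint_left.1 h hp.1.1 hp'.1.1

lemma card_darts_union_right (G : SimpleGraph V) {A A' : Finset V} (B : Finset V)
    (h : Disjoint A A') :
    (darts G B (A ∪ A')).card = (darts G B A).card + (darts G B A').card := by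
  rw [card_darts_swap, card_darts_union_left G B h, card_darts_swap G A B, card_darts_swap G A' B]

lemma bd_compl (G : SimpleGraph V) (X : Finset V) : bd G Xᶜ = bd G X := by
  unfold bd
  rw [compl_compl, card_darts_swap]

/-- Submodularity of the cut function. -/
lemma bd_union_add_inter (G : SimpleGraph V) (X Y : Finset V) :
    bd G (X ∪ Y) + bd G (X ∩ Y) ≤ bd G X + bd G Y := by
  unfold bd
  rw [← card_union_add_card_inter, ← card_union_add_card_inter (darts G X Xᶜ)]
  apply add_le_add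
  · apply card_le_card
    intro p
    simp only [mem_union, mem_darts, mem_compl, mem_inter]
    tauto
  · apply card_le_card
    intro p
    simp only [mem_union, mem_darts, mem_compl, mem_inter]
    tauto

lemma bd_union_le (G : SimpleGraph V) (X Y : Finset V) :
    bd G (X ∪ Y) ≤ bd G X + bd G Y := le_trans (Nat.le_add_right _ _) (bd_union_add_inter G X Y)

/-- Posimodularity of the cut function. -/
lemma bd_sdiff_add_sdiff (G : SimpleGraph V) (X Y : Finset V) :
    bd G (X \ Y) + bd G (Y \ X) ≤ bd G X + bd G Y := by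
  have h := bd_union_add_inter G X Yᶜ
  rw [bd_compl] at h
  have h1 : bd G (X ∪ Yᶜ) = bd G (Y \ X) := by
    rw [← bd_compl]
    congr 1
    ext v
    simp only [mem_compl, mem_union, mem_sdiff]
    tauto
  have h2 : X ∩ Yᶜ = X \ Y := by
    ext v
    simp only [mem_inter, mem_compl, mem_sdiff]
  rw [h1, h2] at h
  omega

/-- Splitting `inn` of `U` along a subset `X`. -/
lemma inn_split (G : SimpleGraph V) {X U : Finset V} (h : X ⊆ U) :
    inn G U = inn G X + 2 * bd (res G U) X + inn G (U \ X) := by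
  have hd : Disjoint X (U \ X) := disjoint_sdiff
  have hU : U = X ∪ (U \ X) := (union_sdiff_of_subset h).symm
  have hb : bd (res G U) X = (darts G X (U \ X)).card := by
    unfold bd
    congr 1
    ext p
    simp only [mem_darts, mem_compl, res_adj, mem_sdiff]
    constructor
    · rintro ⟨⟨h1, h2⟩, ⟨h3, h4⟩, h5⟩
      exact ⟨⟨h1, h4, h2⟩, h5⟩
    · rintro ⟨⟨h1, h4, h2⟩, h5⟩
      exact ⟨⟨h1, h2⟩, ⟨h h1, h4⟩, h5⟩
  unfold inn
  conv_lhs => rw [hU]
  rw [card_darts_union_left G _ hd, card_darts_union_right G _ hd, card_darts_union_right G _ hd,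
    card_darts_swap G (U \ X) X, hb]
  ring

/-- Edges inside `X` plus crossing edges of `X` towards `Y \ X` are inside `Y`. -/
lemma inn_add_le {G : SimpleGraph V} {X Y : Finset V} (h : X ⊆ Y) (D : Finset (V × V))
    (hD : ∀ p ∈ D, p.1 ∈ X ∧ p.2 ∉ X ∧ p.2 ∈ Y ∧ G.Adj p.1 p.2) :
    inn G X + 2 * D.card ≤ inn G Y := by
  have hD' : D ⊆ darts G X (Y \ X) := by
    intro p hp
    obtain ⟨h1, h2, h3, h4⟩ := hD p hp
    rw [mem_darts, mem_sdiff]
    exact ⟨⟨h1, h3, h2⟩, h4⟩
  have hb : bd (res G Y) X = (darts G X (Y \ X)).card := by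
    unfold bd
    congr 1
    ext p
    simp only [mem_darts, mem_compl, res_adj, mem_sdiff]
    constructor
    · rintro ⟨⟨h1, h2⟩, ⟨h3, h4⟩, h5⟩
      exact ⟨⟨h1, h4, h2⟩, h5⟩
    · rintro ⟨⟨h1, h4, h2⟩, h5⟩
      exact ⟨⟨h1, h2⟩, ⟨h h1, h4⟩, h5⟩
  have := inn_split G h
  have h2 := card_le_card hD'
  omega

/-- Degree sum over `X`. -/
lemma sum_deg (G : SimpleGraph V) (X : Finset V) :
    ∑ v ∈ X, bd G {v} = inn G X + bd G X := by
  have h1 : ∀ v, bd G {v} = (darts G {v} univ).card := by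
    intro v
    unfold bd
    congr 1
    ext p
    simp only [mem_darts, mem_compl, mem_singleton, mem_univ, and_true]
    constructor
    · rintro ⟨⟨h1, h2⟩, h3⟩; exact ⟨h1, h3⟩
    · rintro ⟨h1, h3⟩
      refine ⟨⟨h1, ?_⟩, h3⟩
      intro h
      exact h3.ne (h1.trans h.symm)
  have h2 : inn G X + bd G X = (darts G X univ).card := by
    unfold inn bd
    rw [← card_darts_union_right G X (disjoint_compl_right (a := X)), union_compl]
  rw [h2]
  simp only [h1]
  have : darts G X univ = X.biUnion (fun v => darts G {v} univ) := by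
    ext p
    simp only [mem_darts, mem_biUnion, mem_singleton, mem_univ, and_true]
    constructor
    · rintro ⟨h1, h2⟩; exact ⟨p.1, h1, rfl, h2⟩
    · rintro ⟨v, hv, h1, h2⟩; rw [h1]; exact ⟨hv, h1 ▸ h2⟩
  rw [this, card_biUnion]
  intro u _ v _ huv
  change Disjoint (darts G {u} univ) (darts G {v} univ)
  rw [disjoint_left]
  intro p hp hp'
  simp only [mem_darts, mem_singleton] at hp hp'
  exact huv (hp.1.1.symm.trans hp'.1.1)

/-- Deleting a finite edge set. -/
def del (G : SimpleGraph V) (Q : Finset (Sym2 V)) : SimpleGraph V where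
  Adj u v := G.Adj u v ∧ s(u, v) ∉ Q
  symm := ⟨fun u v h => ⟨h.1.symm, by rw [Sym2.eq_swap]; exact h.2⟩⟩
  loopless := ⟨fun _ h => h.1.ne rfl⟩

@[simp] lemma del_adj {G : SimpleGraph V} {Q : Finset (Sym2 V)} {u v : V} :
    (del G Q).Adj u v ↔ G.Adj u v ∧ s(u, v) ∉ Q := Iff.rfl

lemma del_le (G : SimpleGraph V) (Q : Finset (Sym2 V)) : del G Q ≤ G := fun _ _ h => h.1

/-- A set of darts in which no dart has its reversal injects into the edges. -/
lemma card_le_of_sym {D : Finset (V × V)} {Q : Finset (Sym2 V)}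
    (hQ : ∀ p ∈ D, s(p.1, p.2) ∈ Q) (hD : ∀ p ∈ D, (p.2, p.1) ∉ D) : D.card ≤ Q.card := by
  apply card_le_card_of_injOn (fun p => s(p.1, p.2)) (fun p hp => hQ p hp)
  rintro ⟨a, b⟩ hp ⟨c, d⟩ hq h
  simp only [Sym2.eq_iff] at h
  rcases h with ⟨h1, h2⟩ | ⟨h1, h2⟩
  · rw [h1, h2]
  · exfalso
    subst h1 h2
    exact hD _ hp hq

lemma bd_le_del (G : SimpleGraph V) (Q : Finset (Sym2 V)) (X : Finset V) :
    bd G X ≤ bd (del G Q) X + Q.card := by
  classical
  unfold bd
  have : darts G X Xᶜ ⊆ darts (del G Q) X Xᶜ ∪ (darts G X Xᶜ).filter (fun p => s(p.1, p.2) ∈ Q) := by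
    intro p hp
    rw [mem_union, mem_filter, mem_darts, del_adj]
    by_cases h : s(p.1, p.2) ∈ Q
    · exact Or.inr ⟨hp, h⟩
    · rw [mem_darts] at hp
      exact Or.inl ⟨hp.1, hp.2, h⟩
  refine le_trans (card_le_card this) (le_trans (card_union_le _ _) (Nat.add_le_add_left ?_ _))
  apply card_le_of_sym
  · intro p hp; exact (mem_filter.1 hp).2
  · intro p hp hp'
    rw [mem_filter, mem_darts, mem_compl] at hp hp'
    exact hp.1.1.2 hp'.1.1.1

lemma inn_le_del (G : SimpleGraph V) (Q : Finset (Sym2 V)) (X : Finset V) :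
    inn G X ≤ inn (del G Q) X + 2 * Q.card := by
  classical
  unfold inn
  have : darts G X X ⊆ darts (del G Q) X X ∪
      Q.biUnion (fun e => (darts G X X).filter (fun p => s(p.1, p.2) = e)) := by
    intro p hp
    rw [mem_union, mem_biUnion]
    by_cases h : s(p.1, p.2) ∈ Q
    · exact Or.inr ⟨_, h, mem_filter.2 ⟨hp, rfl⟩⟩
    · rw [mem_darts] at hp
      left
      rw [mem_darts, del_adj]
      exact ⟨hp.1, hp.2, h⟩
  refine le_trans (card_le_card this) (le_trans (card_union_le _ _) (Nat.add_le_add_left ?_ _))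
  have h2 : ∀ e ∈ Q, ((darts G X X).filter (fun p => s(p.1, p.2) = e)).card ≤ 2 := by
    intro e _
    induction e using Sym2.ind with
    | _ a b =>
      have : (darts G X X).filter (fun p => s(p.1, p.2) = s(a, b)) ⊆ {(a, b), (b, a)} := by
        rintro ⟨c, d⟩ hp
        rw [mem_filter] at hp
        have := hp.2
        simp only [Sym2.eq_iff] at this
        rw [mem_insert, mem_singleton]
        rcases this with ⟨h1, h2⟩ | ⟨h1, h2⟩
        · left; rw [h1, h2]
        · right; rw [h1, h2]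
      exact le_trans (card_le_card this) (card_le_two)
  have := card_biUnion_le_card_mul Q _ 2 h2
  omega

end Pool.Agent.H21.Imm
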