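import Pool.Agent.H21.Imm.Main

set_option autoImplicit false
set_option linter.unusedSectionVars false

namespace Pool.Agent.H21.Imm

open Finset

namespace Nums

variable (n : Nums)

/-- The constant made of the fixed parameters. -/
def c : ℕ := 18 * (n.k * n.DD * n.Tn * n.Ln)

/-- Monomials. -/
def mo (a b d : ℕ) : ℕ := n.c ^ a * n.J ^ b * n.l ^ d

lemma kDD_le : n.k * n.DD ≤ n.k * n.DD * n.Tn * n.Ln := by
  calc n.k * n.DD ≤ n.k * n.DD * n.Tn := Nat.le_mul_of_pos_right _ n.hTn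
    _ ≤ _ := Nat.le_mul_of_pos_right _ n.hLn

lemma kDDT_le : n.k * n.DD * n.Tn ≤ n.k * n.DD * n.Tn * n.Ln :=
  Nat.le_mul_of_pos_right _ n.hLn

lemma k_le : n.k ≤ n.k * n.DD := Nat.le_mul_of_pos_right _ n.hDD

lemma DD_le : n.DD ≤ n.k * n.DD := Nat.le_mul_of_pos_left _ n.hk

lemma Ln_le : n.Ln ≤ n.k * n.DD * n.Tn * n.Ln := by
  apply Nat.le_mul_of_pos_left
  have h1 := n.hk
  have h2 := n.hDD
  have h3 := n.hTn
  positivity

lemma c_ge : 18 ≤ n.c := by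
  have h1 := n.k_le
  have h2 := n.kDD_le
  have h3 := n.hk
  unfold c
  omega

lemma mo_mono {a b d a' b' d' : ℕ} (ha : a ≤ a') (hb : b ≤ b') (hd : d ≤ d') :
    n.mo a b d ≤ n.mo a' b' d' := by
  unfold mo
  have h1 : n.c ^ a ≤ n.c ^ a' := Nat.pow_le_pow_right (by have := n.c_ge; omega) ha
  have h2 : n.J ^ b ≤ n.J ^ b' := Nat.pow_le_pow_right n.hJ hb
  have h3 : n.l ^ d ≤ n.l ^ d' := Nat.pow_le_pow_right n.hl hd
  exact Nat.mul_le_mul (Nat.mul_le_mul h1 h2) h3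

lemma mo_zero : n.mo 0 0 0 = 1 := by simp [mo]

lemma one_le_mo (a b d : ℕ) : 1 ≤ n.mo a b d := by
  rw [← n.mo_zero]; exact n.mo_mono (Nat.zero_le _) (Nat.zero_le _) (Nat.zero_le _)

lemma mo_mul (a b d a' b' d' : ℕ) :
    n.mo a b d * n.mo a' b' d' = n.mo (a + a') (b + b') (d + d') := by
  unfold mo; ring

lemma mul_mo {t : ℕ} (ht : t ≤ n.c) (a b d : ℕ) : t * n.mo a b d ≤ n.mo (a + 1) b d := by
  calc t * n.mo a b d ≤ n.c * n.mo a b d := Nat.mul_le_mul_right _ ht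
    _ = _ := by unfold mo; ring

lemma J_mul (a b d : ℕ) : n.J * n.mo a b d = n.mo a (b + 1) d := by unfold mo; ring

lemma l_mul (a b d : ℕ) : n.l * n.mo a b d = n.mo a b (d + 1) := by unfold mo; ring

lemma D0_le' : n.D0 ≤ 18 * (n.k * n.DD) * n.J := by
  unfold D0
  have h1 : 1 + 8 * n.DD * n.J ≤ 9 * (n.DD * n.J) := by
    have : 1 ≤ n.DD * n.J := Nat.one_le_iff_ne_zero.2 (by
      have := n.hDD; have := n.hJ; positivity)
    have h2 : 8 * n.DD * n.J = 8 * (n.DD * n.J) := by ring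
    omega
  calc 2 * n.k * (1 + 8 * n.DD * n.J) ≤ 2 * n.k * (9 * (n.DD * n.J)) := Nat.mul_le_mul_left _ h1
    _ = 18 * (n.k * n.DD) * n.J := by ring

lemma b_D0 : n.D0 ≤ n.mo 1 1 0 := by
  refine n.D0_le'.trans ?_
  unfold mo
  rw [pow_one, pow_one, pow_zero, mul_one]
  apply Nat.mul_le_mul_right
  unfold c
  exact Nat.mul_le_mul_left _ n.kDD_le

lemma b_M : n.M ≤ n.mo 1 1 0 := by
  unfold M
  calc n.Tn * n.D0 ≤ n.Tn * (18 * (n.k * n.DD) * n.J) := Nat.mul_le_mul_left _ n.D0_le'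
    _ = 18 * (n.k * n.DD * n.Tn) * n.J := by ring
    _ ≤ n.c * n.J := by
      apply Nat.mul_le_mul_right
      unfold c
      exact Nat.mul_le_mul_left _ n.kDDT_le
    _ = _ := by unfold mo; ring

lemma b_s0 : n.s0 ≤ n.mo 2 2 0 := by
  unfold s0
  calc 8 * n.J * n.D0 ≤ 8 * n.J * n.mo 1 1 0 := Nat.mul_le_mul_left _ n.b_D0
    _ = 8 * (n.J * n.mo 1 1 0) := by ring
    _ = 8 * n.mo 1 2 0 := by rw [n.J_mul]
    _ ≤ _ := n.mul_mo (by have := n.c_ge; omega) _ _ _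

lemma b_q : n.q ≤ n.mo 2 2 0 := by
  unfold q
  calc n.M * n.D0 ≤ n.mo 1 1 0 * n.mo 1 1 0 := Nat.mul_le_mul n.b_M n.b_D0
    _ = _ := n.mo_mul _ _ _ _ _ _

lemma b_e : n.e ≤ n.mo 3 2 0 := by
  unfold e
  have h1 := n.b_q
  have h2 := n.one_le_mo 2 2 0
  calc 8 * n.q + 8 ≤ 16 * n.mo 2 2 0 := by omega
    _ ≤ _ := n.mul_mo (by have := n.c_ge; omega) _ _ _

lemma b_K : n.K ≤ n.mo 6 5 0 := by
  unfold K
  have h1 := n.b_q
  have h2 := n.one_le_mo 2 2 0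
  calc 2 * n.J * (2 * n.q + 1) * n.e ≤ 2 * n.J * (3 * n.mo 2 2 0) * n.mo 3 2 0 := by
        apply Nat.mul_le_mul _ n.b_e
        apply Nat.mul_le_mul_left
        omega
    _ = 6 * (n.J * (n.mo 2 2 0 * n.mo 3 2 0)) := by ring
    _ = 6 * n.mo 5 5 0 := by rw [n.mo_mul, n.J_mul]
    _ ≤ _ := n.mul_mo (by have := n.c_ge; omega) _ _ _

lemma b_C : n.C ≤ n.mo 4 3 0 := by
  unfold C
  calc 4 * n.J * n.e ≤ 4 * n.J * n.mo 3 2 0 := Nat.mul_le_mul_left _ n.b_e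
    _ = 4 * (n.J * n.mo 3 2 0) := by ring
    _ = 4 * n.mo 3 3 0 := by rw [n.J_mul]
    _ ≤ _ := n.mul_mo (by have := n.c_ge; omega) _ _ _

lemma twoDD_le : 2 * n.DD ≤ n.c := by
  have h1 := n.DD_le
  have h2 := n.kDD_le
  unfold c
  omega

lemma b_L : n.L ≤ n.mo 7 5 1 := by
  unfold L
  have h1 : n.DD * n.K + 1 ≤ 2 * n.DD * n.K := by
    have : 1 ≤ n.DD * n.K := Nat.one_le_iff_ne_zero.2 (by
      have := n.hDD; have := n.K_pos; positivity)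
    have h2 : 2 * n.DD * n.K = 2 * (n.DD * n.K) := by ring
    omega
  calc (n.DD * n.K + 1) * n.l ≤ 2 * n.DD * n.mo 6 5 0 * n.l := by
        apply Nat.mul_le_mul_right
        exact h1.trans (Nat.mul_le_mul_left _ n.b_K)
    _ ≤ n.mo 7 5 0 * n.l := Nat.mul_le_mul_right _ (n.mul_mo n.twoDD_le _ _ _)
    _ = n.mo 7 5 1 := by rw [Nat.mul_comm, n.l_mul]

lemma b_T0 : n.T0 ≤ n.mo 6 4 0 := by
  unfold T0
  calc 2 * n.D0 * n.DD * n.C ≤ 2 * n.mo 1 1 0 * n.DD * n.mo 4 3 0 := by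
        apply Nat.mul_le_mul _ n.b_C
        apply Nat.mul_le_mul_right
        exact Nat.mul_le_mul_left _ n.b_D0
    _ = 2 * n.DD * (n.mo 1 1 0 * n.mo 4 3 0) := by ring
    _ = 2 * n.DD * n.mo 5 4 0 := by rw [n.mo_mul]
    _ ≤ _ := n.mul_mo n.twoDD_le _ _ _

lemma b_W : n.W ≤ n.mo 8 5 1 := by
  unfold W
  have h1 := n.b_T0
  have h2 := n.b_L
  have h3 : n.mo 6 4 0 ≤ n.mo 7 5 1 := n.mo_mono (by norm_num) (by norm_num) (by norm_num)
  calc n.T0 + n.L + n.L ≤ 3 * n.mo 7 5 1 := by omega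
    _ ≤ _ := n.mul_mo (by have := n.c_ge; omega) _ _ _

lemma b_Ds : n.DD * n.s0 + n.D0 ≤ n.mo 4 2 0 := by
  have h1 : n.DD * n.s0 ≤ n.mo 3 2 0 := by
    calc n.DD * n.s0 ≤ n.DD * n.mo 2 2 0 := Nat.mul_le_mul_left _ n.b_s0
      _ ≤ _ := n.mul_mo (by have := n.twoDD_le; omega) _ _ _
  have h2 : n.D0 ≤ n.mo 3 2 0 :=
    n.b_D0.trans (n.mo_mono (by norm_num) (by norm_num) (by norm_num))
  calc n.DD * n.s0 + n.D0 ≤ 2 * n.mo 3 2 0 := by omega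
    _ ≤ _ := n.mul_mo (by have := n.c_ge; omega) _ _ _

lemma b_DW : n.D0 * n.W ≤ n.mo 9 6 1 := by
  calc n.D0 * n.W ≤ n.mo 1 1 0 * n.mo 8 5 1 := Nat.mul_le_mul n.b_D0 n.b_W
    _ = _ := n.mo_mul _ _ _ _ _ _

lemma b_Qm : n.Qm ≤ n.mo 11 7 1 := by
  unfold Qm
  have h1 := n.b_Ds
  have h2 := n.b_DW
  have h3 : n.mo 4 2 0 ≤ n.mo 9 6 1 := n.mo_mono (by norm_num) (by norm_num) (by norm_num)
  calc 2 * n.M * (n.D0 * n.W + n.DD * n.s0 + n.D0) ≤ 2 * n.mo 1 1 0 * (2 * n.mo 9 6 1) := by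
        apply Nat.mul_le_mul
        · exact Nat.mul_le_mul_left _ n.b_M
        · omega
    _ = 4 * (n.mo 1 1 0 * n.mo 9 6 1) := by ring
    _ = 4 * n.mo 10 7 1 := by rw [n.mo_mul]
    _ ≤ _ := n.mul_mo (by have := n.c_ge; omega) _ _ _

lemma b_NP : n.NP ≤ n.mo 16 10 1 := by
  unfold NP
  have h1 : n.M ≤ n.mo 15 10 1 :=
    n.b_M.trans (n.mo_mono (by norm_num) (by norm_num) (by norm_num))
  have h2 : n.Qm ≤ n.mo 15 10 1 :=
    n.b_Qm.trans (n.mo_mono (by norm_num) (by norm_num) (by norm_num))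
  have h3 : n.Qm * n.C ≤ n.mo 15 10 1 := by
    calc n.Qm * n.C ≤ n.mo 11 7 1 * n.mo 4 3 0 := Nat.mul_le_mul n.b_Qm n.b_C
      _ = _ := n.mo_mul _ _ _ _ _ _
  have h4 := n.one_le_mo 15 10 1
  have h5 : 2 * n.Qm * n.C = 2 * (n.Qm * n.C) := by ring
  calc 2 * n.M + 4 * n.Qm + 2 * n.Qm * n.C + 1 ≤ 9 * n.mo 15 10 1 := by omega
    _ ≤ _ := n.mul_mo (by have := n.c_ge; omega) _ _ _

lemma b_Z : n.Z ≤ n.mo 17 10 1 := by
  unfold Z
  have h1 := n.b_NP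
  have h2 := n.one_le_mo 16 10 1
  have h3 := n.hLn
  have h4 := n.Ln_le
  calc 4 * n.Ln * n.NP + 4 ≤ 4 * n.Ln * n.mo 16 10 1 + 4 * n.mo 16 10 1 := by
        apply Nat.add_le_add (Nat.mul_le_mul_left _ h1)
        omega
    _ = (4 * n.Ln + 4) * n.mo 16 10 1 := by ring
    _ ≤ _ := n.mul_mo (by unfold c; omega) _ _ _

lemma b_B : n.B ≤ n.mo 17 9 1 := by
  unfold B
  have hc := n.c_ge
  have hk : n.k ≤ n.c := by
    have h1 := n.k_le
    have h2 := n.kDD_le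
    unfold c
    omega
  have h1 : 2 * n.M * (n.DD * n.s0 + n.D0) ≤ n.mo 6 3 0 := by
    calc 2 * n.M * (n.DD * n.s0 + n.D0) ≤ 2 * n.mo 1 1 0 * n.mo 4 2 0 := by
          apply Nat.mul_le_mul _ n.b_Ds
          exact Nat.mul_le_mul_left _ n.b_M
      _ = 2 * (n.mo 1 1 0 * n.mo 4 2 0) := by ring
      _ = 2 * n.mo 5 3 0 := by rw [n.mo_mul]
      _ ≤ _ := n.mul_mo (by omega) _ _ _
  have h2 : n.q ≤ n.mo 6 3 0 :=
    n.b_q.trans (n.mo_mono (by norm_num) (by norm_num) (by norm_num))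
  have h3 : n.k * n.k ≤ n.mo 6 3 0 := by
    calc n.k * n.k ≤ n.c * n.c := Nat.mul_le_mul hk hk
      _ = n.mo 2 0 0 := by unfold mo; ring
      _ ≤ _ := n.mo_mono (by norm_num) (by norm_num) (by norm_num)
  have h4 : 2 * n.M * (n.DD * n.s0 + n.D0) + n.q + n.k * n.k ≤ 3 * n.mo 6 3 0 := by omega
  have h5 : n.L ≤ n.mo 9 6 1 :=
    n.b_L.trans (n.mo_mono (by norm_num) (by norm_num) (by norm_num))
  have h6 := n.b_DW
  have h7 := n.one_le_mo 9 6 1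
  have h8 : 2 * (n.D0 * n.W) + 2 * n.L + 1 ≤ 5 * n.mo 9 6 1 := by omega
  have h9 : (2 * n.M * (n.DD * n.s0 + n.D0) + n.q + n.k * n.k) *
      (2 * (n.D0 * n.W) + 2 * n.L + 1) ≤ 15 * n.mo 15 9 1 := by
    calc _ ≤ (3 * n.mo 6 3 0) * (5 * n.mo 9 6 1) := Nat.mul_le_mul h4 h8
      _ = 15 * (n.mo 6 3 0 * n.mo 9 6 1) := by ring
      _ = _ := by rw [n.mo_mul]
  have h10 : 15 * n.mo 15 9 1 ≤ n.mo 16 9 1 := n.mul_mo (by omega) _ _ _
  have h11 : n.k ≤ n.mo 16 9 1 := by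
    calc n.k ≤ n.c := hk
      _ = n.mo 1 0 0 := by unfold mo; ring
      _ ≤ _ := n.mo_mono (by norm_num) (by norm_num) (by norm_num)
  calc _ ≤ 3 * n.mo 16 9 1 := by omega
    _ ≤ _ := n.mul_mo (by omega) _ _ _

end Nums

/-- The constants of the size condition. -/
noncomputable def c4 (c : ℕ) : ℝ := 4 * (c : ℝ) ^ 3 * (17 * c + 12)

/-- When `m` is large the size condition holds. -/
lemma size_cond (n : Nums) {y : ℝ} (hl : (n.l : ℝ) ≤ 2 * y)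
    (hy : 2 * c4 n.c ^ 2 * (n.J : ℝ) ^ 6 ≤ y) :
    4 * (n.e : ℝ) * Real.log n.Z ≤ y := by
  have hc : (1 : ℝ) ≤ n.c := by exact_mod_cast (by have := n.c_ge; omega : 1 ≤ n.c)
  have hJ : (1 : ℝ) ≤ n.J := by exact_mod_cast n.hJ
  have hl1 : (1 : ℝ) ≤ n.l := by exact_mod_cast n.hl
  have hZ1 : (1 : ℝ) ≤ n.Z := n.Zr_pos
  have hy0 : 0 ≤ y := by linarith
  set s := Real.sqrt n.l with hs
  have hs2 : s ^ 2 = n.l := Real.sq_sqrt (by linarith)
  have hs1 : 1 ≤ s := by rw [hs]; exact Real.one_le_sqrt.2 hl1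
  -- logarithm of Z
  have hlogZ : Real.log n.Z ≤ (17 * n.c + 12) * (n.J * s) := by
    have h1 : (n.Z : ℝ) ≤ (n.c : ℝ) ^ 17 * (n.J : ℝ) ^ 10 * n.l := by
      have := n.b_Z
      unfold Nums.mo at this
      rw [pow_one] at this
      exact_mod_cast this
    have h2 : Real.log n.Z ≤ Real.log ((n.c : ℝ) ^ 17 * (n.J : ℝ) ^ 10 * n.l) :=
      Real.log_le_log (by linarith) h1
    have h3 : Real.log ((n.c : ℝ) ^ 17 * (n.J : ℝ) ^ 10 * n.l)
        = 17 * Real.log n.c + 10 * Real.log n.J + Real.log n.l := by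
      rw [Real.log_mul (by positivity) (by positivity), Real.log_mul (by positivity) (by positivity),
        Real.log_pow, Real.log_pow]
      norm_num
    have h4 : Real.log n.c ≤ n.c := (Real.log_le_sub_one_of_pos (by linarith)).trans (by linarith)
    have h5 : Real.log n.J ≤ n.J := (Real.log_le_sub_one_of_pos (by linarith)).trans (by linarith)
    have h6 : Real.log n.l ≤ 2 * s := by
      rw [← hs2, Real.log_pow]
      have := (Real.log_le_sub_one_of_pos (by linarith : 0 < s))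
      push_cast
      linarith
    have h7 : (n.c : ℝ) ≤ n.c * (n.J * s) :=
      le_mul_of_one_le_right (by linarith) (one_le_mul_of_one_le_of_one_le hJ hs1)
    have h8 : (n.J : ℝ) ≤ n.J * s := by nlinarith
    have h9 : s ≤ n.J * s := by nlinarith
    calc Real.log n.Z ≤ 17 * n.c + 10 * n.J + 2 * s := by linarith
      _ ≤ 17 * (n.c * (n.J * s)) + 10 * (n.J * s) + 2 * (n.J * s) := by linarith
      _ = _ := by ring
  have he : (n.e : ℝ) ≤ (n.c : ℝ) ^ 3 * (n.J : ℝ) ^ 2 := by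
    have := n.b_e
    unfold Nums.mo at this
    rw [pow_zero, mul_one] at this
    exact_mod_cast this
  have hlog0 : 0 ≤ Real.log n.Z := Real.log_nonneg hZ1
  have h1 : 4 * (n.e : ℝ) * Real.log n.Z ≤ c4 n.c * (n.J : ℝ) ^ 3 * s := by
    calc 4 * (n.e : ℝ) * Real.log n.Z
        ≤ 4 * ((n.c : ℝ) ^ 3 * (n.J : ℝ) ^ 2) * ((17 * n.c + 12) * (n.J * s)) := by
          apply mul_le_mul _ hlogZ hlog0 (by positivity)
          linarith
      _ = _ := by unfold c4; ring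
  have hc40 : 0 ≤ c4 n.c := by unfold c4; positivity
  have h2 : (c4 n.c * (n.J : ℝ) ^ 3 * s) ^ 2 ≤ y ^ 2 := by
    calc (c4 n.c * (n.J : ℝ) ^ 3 * s) ^ 2 = c4 n.c ^ 2 * (n.J : ℝ) ^ 6 * s ^ 2 := by ring
      _ = c4 n.c ^ 2 * (n.J : ℝ) ^ 6 * n.l := by rw [hs2]
      _ ≤ c4 n.c ^ 2 * (n.J : ℝ) ^ 6 * (2 * y) := mul_le_mul_of_nonneg_left hl (by positivity)
      _ = (2 * c4 n.c ^ 2 * (n.J : ℝ) ^ 6) * y := by ring
      _ ≤ y * y := mul_le_mul_of_nonneg_right hy hy0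
      _ = y ^ 2 := by ring
  have h3 := abs_le_of_sq_le_sq' h2 hy0
  linarith [h3.2]

end Pool.Agent.H21.Imm
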