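import Pool.Agent.H21.Imm.Basic

set_option autoImplicit false
set_option linter.unusedSectionVars false

namespace Pool.Agent.H21.Imm

open Finset

variable {V : Type} [Fintype V] [DecidableEq V]

/-- A nonempty dense set contains a critical one. -/
lemma exists_critical (G : SimpleGraph V) (ω : V → ℝ) {V0 : Finset V} (hne : V0.Nonempty)
    (h : ∑ v ∈ V0, ω v ≤ (inn G V0 : ℝ)) :
    ∃ V1, V1 ⊆ V0 ∧ V1.Nonempty ∧ ∑ v ∈ V1, ω v ≤ (inn G V1 : ℝ) ∧
      ∀ X ⊆ V1, ∑ v ∈ X, ω v ≤ (inn G X : ℝ) + 2 * (bd (res G V1) X : ℝ) := by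
  classical
  let F : Finset (Finset V) := V0.powerset.filter (fun X => X.Nonempty ∧ ∑ v ∈ X, ω v ≤ (inn G X : ℝ))
  have hF : F.Nonempty := ⟨V0, by simp only [F, mem_filter, mem_powerset]; exact ⟨Subset.refl _, hne, h⟩⟩
  obtain ⟨V1, hV1, hmin⟩ := exists_min_image F Finset.card hF
  simp only [F, mem_filter, mem_powerset] at hV1
  obtain ⟨h1, h2, h3⟩ := hV1
  refine ⟨V1, h1, h2, h3, ?_⟩
  intro X hX
  rcases X.eq_empty_or_nonempty with hX0 | hX0
  · subst hX0; simp
  rcases (V1 \ X).eq_empty_or_nonempty with hY0 | hY0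
  · have : X = V1 := by
      apply Subset.antisymm hX
      rw [sdiff_eq_empty_iff_subset] at hY0
      exact hY0
    subst this
    have : (0 : ℝ) ≤ (bd (res G X) X : ℝ) := Nat.cast_nonneg _
    linarith
  · have hlt : (V1 \ X).card < V1.card := by
      apply card_lt_card
      refine ⟨sdiff_subset, ?_⟩
      intro hsub
      obtain ⟨x, hx⟩ := hX0
      have := hsub (hX hx)
      rw [mem_sdiff] at this
      exact this.2 hx
    have hnot : ¬ (∑ v ∈ V1 \ X, ω v ≤ (inn G (V1 \ X) : ℝ)) := by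
      intro hcon
      have hmem : V1 \ X ∈ F := by
        simp only [F, mem_filter, mem_powerset]
        exact ⟨(sdiff_subset).trans h1, hY0, hcon⟩
      have := hmin _ hmem
      omega
    push Not at hnot
    have hs := inn_split G hX
    have hs' : (inn G V1 : ℝ) = inn G X + 2 * bd (res G V1) X + inn G (V1 \ X) := by
      rw [hs]; push_cast; ring
    have hω : ∑ v ∈ V1, ω v = ∑ v ∈ X, ω v + ∑ v ∈ V1 \ X, ω v := by
      rw [add_comm]; exact (sum_sdiff hX).symm
    linarith

/-- Rooted tree data given by parent pointers. -/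
structure Rooted (G : SimpleGraph V) (B : Finset V) (y : V) (par : V → V) (dep : V → ℕ)
    (T : ℕ) : Prop where
  mem : y ∈ B
  par_mem : ∀ v ∈ B, v ≠ y → par v ∈ B
  adj : ∀ v ∈ B, v ≠ y → G.Adj v (par v)
  dep_par : ∀ v ∈ B, v ≠ y → dep (par v) + 1 = dep v
  dep_le : ∀ v ∈ B, dep v ≤ T

/-- Iterated neighbourhoods inside `U`. -/
noncomputable def nb (G : SimpleGraph V) (U : Finset V) (A : Finset V) : ℕ → Finset V
  | 0 => A
  | (r + 1) => by
      classical exact nb G U A r ∪ U.filter (fun v => ∃ u ∈ nb G U A r, G.Adj u v)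

lemma mem_nb_succ {G : SimpleGraph V} {U A : Finset V} {r : ℕ} {v : V} :
    v ∈ nb G U A (r + 1) ↔ v ∈ nb G U A r ∨ (v ∈ U ∧ ∃ u ∈ nb G U A r, G.Adj u v) := by
  classical
  rw [nb, mem_union, mem_filter]

lemma nb_subset_succ (G : SimpleGraph V) (U A : Finset V) (r : ℕ) :
    nb G U A r ⊆ nb G U A (r + 1) := fun _ hv => mem_nb_succ.2 (Or.inl hv)

lemma nb_mono (G : SimpleGraph V) (U A : Finset V) {r s : ℕ} (h : r ≤ s) :
    nb G U A r ⊆ nb G U A s := by
  induction h with
  | refl => exact Subset.refl _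
  | step _ ih => exact ih.trans (nb_subset_succ G U A _)

lemma nb_subset (G : SimpleGraph V) {U A : Finset V} (h : A ⊆ U) (r : ℕ) : nb G U A r ⊆ U := by
  induction r with
  | zero => exact h
  | succ r ih =>
    intro v hv
    rcases mem_nb_succ.1 hv with h1 | h1
    · exact ih h1
    · exact h1.1

lemma subset_nb (G : SimpleGraph V) (U A : Finset V) (r : ℕ) : A ⊆ nb G U A r :=
  nb_mono G U A (Nat.zero_le r)

/-- The crossing edges of a neighbourhood become inner edges of the next one. -/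
lemma inn_nb_succ (G : SimpleGraph V) {U A : Finset V} (h : A ⊆ U) (r : ℕ) :
    inn G (nb G U A r) + 2 * bd (res G U) (nb G U A r) ≤ inn G (nb G U A (r + 1)) := by
  apply inn_add_le (nb_subset_succ G U A r)
  intro p hp
  rw [mem_darts, mem_compl, res_adj] at hp
  refine ⟨hp.1.1, hp.1.2, ?_, hp.2.2⟩
  exact mem_nb_succ.2 (Or.inr ⟨hp.2.1.2, p.1, hp.1.1, hp.2.2⟩)

/-- Ball carving: a critical set contains a dense rooted ball of small radius. -/
lemma carve (G : SimpleGraph V) {V1 : Finset V} {ρ κ Δ : ℝ} (hκ : 0 < κ) (hΔ : 0 < Δ)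
    (hcrit : ∀ X ⊆ V1, ρ * X.card ≤ (inn G X : ℝ) + 2 * (bd (res G V1) X : ℝ))
    (hdens : ∀ X ⊆ V1, (inn G X : ℝ) ≤ Δ * X.card)
    {T : ℕ} (hT : Δ * V1.card < 2 * (1 + κ / Δ) ^ T) (hne : V1.Nonempty) :
    ∃ B ⊆ V1, ∃ y par dep, Rooted G B y par dep T ∧ (ρ - κ) * B.card ≤ (inn G B : ℝ) := by
  classical
  obtain ⟨y, hy⟩ := hne
  have hyU : ({y} : Finset V) ⊆ V1 := singleton_subset_iff.2 hy
  set N : ℕ → Finset V := nb G V1 {y} with hN
  have hNsub : ∀ r, N r ⊆ V1 := nb_subset G hyU
  -- some small ball has a small boundary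
  have hex : ∃ r ≤ T, 2 * (bd (res G V1) (N r) : ℝ) ≤ κ * (N r).card := by
    by_contra hcon
    push Not at hcon
    have hgrow : ∀ r ≤ T, 2 * (1 + κ / Δ) ^ r ≤ (inn G (N (r + 1)) : ℝ) := by
      intro r
      induction r with
      | zero =>
        intro _
        have h0 := hcon 0 (Nat.zero_le _)
        have h1 : (0 : ℝ) < bd (res G V1) (N 0) := by
          have : (0 : ℝ) < κ * (N 0).card := by
            apply mul_pos hκ
            have : (N 0).card = 1 := by simp [hN, nb]
            rw [this]; norm_num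
          linarith
        have h2 : 1 ≤ bd (res G V1) (N 0) := by
          have : 0 < bd (res G V1) (N 0) := by exact_mod_cast h1
          omega
        have h3 := inn_nb_succ G hyU 0
        have h4 : 2 ≤ inn G (N 1) := by
          have h3' : inn G (N 0) + 2 * bd (res G V1) (N 0) ≤ inn G (N 1) := h3
          omega
        simp only [pow_zero, mul_one, zero_add]
        exact_mod_cast h4
      | succ r ih =>
        intro hr
        have h0 := ih (by omega)
        have h1 := hcon (r + 1) hr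
        have h3 : inn G (N (r + 1)) + 2 * bd (res G V1) (N (r + 1)) ≤ inn G (N (r + 1 + 1)) :=
          inn_nb_succ G hyU (r + 1)
        have h3' : (inn G (N (r + 1)) : ℝ) + 2 * bd (res G V1) (N (r + 1))
            ≤ inn G (N (r + 1 + 1)) := by exact_mod_cast h3
        have h4 := hdens (N (r + 1)) (hNsub _)
        have h5 : κ / Δ * (inn G (N (r + 1)) : ℝ) ≤ κ * (N (r + 1)).card := by
          calc κ / Δ * (inn G (N (r + 1)) : ℝ) ≤ κ / Δ * (Δ * (N (r + 1)).card) :=
                mul_le_mul_of_nonneg_left h4 (by positivity)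
            _ = κ * (N (r + 1)).card := by field_simp
        calc 2 * (1 + κ / Δ) ^ (r + 1) = (1 + κ / Δ) * (2 * (1 + κ / Δ) ^ r) := by ring
          _ ≤ (1 + κ / Δ) * (inn G (N (r + 1)) : ℝ) :=
              mul_le_mul_of_nonneg_left h0 (by positivity)
          _ = (inn G (N (r + 1)) : ℝ) + κ / Δ * (inn G (N (r + 1)) : ℝ) := by ring
          _ ≤ (inn G (N (r + 1 + 1)) : ℝ) := by linarith
    have h1 := hgrow T le_rfl
    have h2 := hdens (N (T + 1)) (hNsub _)
    have h3 : ((N (T + 1)).card : ℝ) ≤ V1.card := by exact_mod_cast card_le_card (hNsub _)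
    have h4 : Δ * (N (T + 1)).card ≤ Δ * (V1.card : ℝ) := mul_le_mul_of_nonneg_left h3 hΔ.le
    linarith
  obtain ⟨r, hrT, hr⟩ := hex
  -- parent pointers
  have hyN : ∀ j, y ∈ N j := fun j => subset_nb G V1 {y} j (mem_singleton_self y)
  let dep : V → ℕ := fun v => if h : (∃ j, v ∈ N j) then Nat.find h else 0
  have hdep : ∀ v j, v ∈ N j → dep v ≤ j ∧ v ∈ N (dep v) := by
    intro v j hv
    have h : ∃ j, v ∈ N j := ⟨j, hv⟩
    simp only [dep, dif_pos h]
    exact ⟨Nat.find_min' h hv, Nat.find_spec h⟩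
  have hpar : ∀ v, ∃ u, (∃ j, v ∈ N j) → v ≠ y → G.Adj v u ∧ u ∈ N (dep v - 1) ∧ dep u + 1 = dep v := by
    intro v
    by_cases hv : ∃ j, v ∈ N j
    · by_cases hvy : v = y
      · exact ⟨v, fun _ h => absurd hvy h⟩
      · obtain ⟨j, hj⟩ := hv
        have h1 := hdep v j hj
        have hpos : dep v ≠ 0 := by
          intro h0
          have h2 := h1.2
          rw [h0] at h2
          have : v ∈ ({y} : Finset V) := h2
          exact hvy (mem_singleton.1 this)
        obtain ⟨d, hd⟩ : ∃ d, dep v = d + 1 := ⟨dep v - 1, by omega⟩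
        have h2 := h1.2
        rw [hd] at h2
        rcases mem_nb_succ.1 h2 with h3 | h3
        · have := (hdep v d h3).1
          omega
        · obtain ⟨_, u, hu, hadj⟩ := h3
          refine ⟨u, fun _ _ => ⟨hadj.symm, by rw [hd]; exact hu, ?_⟩⟩
          have h4 := hdep u d hu
          have h5 : v ∈ N (dep u + 1) :=
            mem_nb_succ.2 (Or.inr ⟨hNsub _ hj, u, h4.2, hadj⟩)
          have h6 := (hdep v _ h5).1
          omega
    · exact ⟨v, fun h => absurd h hv⟩
  choose par hpar using hpar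
  refine ⟨N r, hNsub r, y, par, dep, ⟨hyN r, ?_, ?_, ?_, ?_⟩, ?_⟩
  · intro v hv hvy
    have h := hpar v ⟨r, hv⟩ hvy
    have h2 := (hdep v r hv).1
    exact nb_mono G V1 {y} (by omega) h.2.1
  · intro v hv hvy
    exact (hpar v ⟨r, hv⟩ hvy).1
  · intro v hv hvy
    exact (hpar v ⟨r, hv⟩ hvy).2.2
  · intro v hv
    exact ((hdep v r hv).1).trans hrT
  · have := hcrit (N r) (hNsub r)
    nlinarith
 
end Pool.Agent.H21.Imm
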