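import Pool.Agent.H21.Imm.Ctx

set_option autoImplicit false
set_option linter.unusedSectionVars false

namespace Pool.Agent.H21.Imm

open Finset

variable {V : Type} [Fintype V] [DecidableEq V]

/-- The bound for the number of vertices used. -/
def Nums.B (n : Nums) : ℕ :=
  n.k + 2 * ((2 * n.M * (n.DD * n.s0 + n.D0) + n.q + n.k * n.k) * (2 * (n.D0 * n.W) + 2 * n.L + 1))

lemma ImmKB.le {W : Type} {H : SimpleGraph W} {k B B' : ℕ} (h : ImmKB H k B) (hB : B ≤ B') :
    ImmKB H k B' := by
  obtain ⟨f, hf, P, h1, h2, h3⟩ := h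
  exact ⟨f, hf, P, h1, h2, h3.trans hB⟩

/-- Immersion directly from links. -/
lemma imm_of_links {H : SimpleGraph V} {k l : ℕ} (f : Fin k → V) (hf : Function.Injective f)
    (C : Fin k → Fin k → Finset (Sym2 V)) (hC : ∀ i j i' j', (i ≠ i' ∨ j ≠ j') →
      Disjoint (C i j) (C i' j')) (hlink : ∀ i j, ConnL H (f i) (f j) (C i j) l) :
    ImmKB H k (k + k * k * (l + 1)) := by
  classical
  have hp : ∀ i j, ∃ p : H.Walk (f i) (f j), p.IsPath ∧ (∀ e ∈ p.edges, e ∈ C i j) ∧
      p.length ≤ l := by
    intro i j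
    obtain ⟨p, hp, hl⟩ := hlink i j
    exact ⟨p.bypass, p.bypass_isPath, fun e he => hp e (p.edges_bypass_subset_edges he),
      (p.length_bypass_le_length).trans hl⟩
  choose P h1 h2 h3 using hp
  refine ⟨f, hf, P, fun i j _ => h1 i j, ?_, ?_⟩
  · intro i j i' j' _ _ hne e he he'
    exact disjoint_left.1 (hC i j i' j' hne) (h2 i j e he) (h2 i' j' e he')
  · let Vs : Finset V := univ.image f ∪
      (univ : Finset (Fin k × Fin k)).biUnion (fun ij => (P ij.1 ij.2).support.toFinset)
    have hsub : {v : V | (∃ i, f i = v) ∨ ∃ i j, i < j ∧ v ∈ (P i j).support} ⊆ (Vs : Set V) := by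
      rintro v (⟨i, rfl⟩ | ⟨i, j, hij, hv⟩)
      · rw [mem_coe, mem_union]
        exact Or.inl (mem_image.2 ⟨i, mem_univ _, rfl⟩)
      · rw [mem_coe, mem_union]
        exact Or.inr (mem_biUnion.2 ⟨(i, j), mem_univ _, List.mem_toFinset.2 hv⟩)
    have hcard : Vs.card ≤ k + k * k * (l + 1) := by
      refine (card_union_le _ _).trans (Nat.add_le_add ?_ ?_)
      · exact card_image_le.trans (by simp)
      · have h4 : ((univ : Finset (Fin k × Fin k)).biUnion
            (fun ij => (P ij.1 ij.2).support.toFinset)).card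
            ≤ (univ : Finset (Fin k × Fin k)).card * (l + 1) := by
          apply card_biUnion_le_card_mul
          intro ij _
          refine (List.toFinset_card_le _).trans ?_
          rw [SimpleGraph.Walk.length_support]
          have := h3 ij.1 ij.2
          omega
        simpa using h4
    calc _ ≤ (Vs : Set V).ncard := Set.ncard_le_ncard hsub (Set.toFinite _)
      _ = Vs.card := Set.ncard_coe_finset _
      _ ≤ _ := hcard

/-- Case I: there are many vertices of large degree. -/
lemma case_one {n : Nums} {H G : SimpleGraph V} {V' : Finset V} {x δ : ℝ} {y : ℕ → V}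
    {Z : ℕ → Finset (Sym2 V)} (ctx : Ctx n H V' x δ y Z)
    (hG : ∀ u v, G.Adj u v → (u ∈ V' ∧ v ∈ V') ∧ H.Adj u v ∧ s(u, v) ∉ allZ Z n.q)
    (hexp : ∀ X ⊆ V', (X.card : ℝ) ≤ x ^ (n.e - 1) → 1 / (n.C : ℝ) * X.card ≤ (bd G X : ℝ))
    (hexp' : ∀ X ⊆ V', (X.card : ℝ) ≤ x ^ (4 * n.q + 4) →
      1 / (8 * n.J : ℝ) * X.card ≤ (bd G X : ℝ))
    {W1 : Finset V} (hW1 : W1 ⊆ V') (hdeg : ∀ v ∈ W1, n.D0 ≤ bd G {v}) (hc : W1.card = n.NP) :
    ImmKB H n.k n.B := by
  classical
  set P : Finset (Finset V) := W1.image (fun v => {v}) with hP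
  have hinj : Function.Injective (fun v : V => ({v} : Finset V)) := singleton_injective
  have memP : ∀ S, S ∈ P ↔ ∃ v ∈ W1, {v} = S := by
    intro S; rw [hP, mem_image]
  have hJ : (0 : ℝ) < n.J := by exact_mod_cast n.hJ
  have st := mkSetup (G := G) (P := P) (a := 2 * n.k) (a' := 2 * n.k) (r := 0) (N := n.k)
    (inte := fun _ => ∅) (prt := fun _ => ∅) (I0 := 0) ctx hG hexp
    (by
      intro S hS
      obtain ⟨v, hv, rfl⟩ := (memP S).1 hS
      exact singleton_subset_iff.2 (hW1 hv))
    (by
      intro S hS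
      obtain ⟨v, hv, rfl⟩ := (memP S).1 hS
      exact singleton_nonempty v)
    (by
      intro S hS S' hS' hne
      obtain ⟨v, hv, rfl⟩ := (memP S).1 hS
      obtain ⟨v', hv', rfl⟩ := (memP S').1 hS'
      rw [disjoint_singleton]
      intro h
      exact hne (by rw [h]))
    (by
      intro X hX hXc
      have h1 : nin P X = (W1 ∩ X).card := by
        unfold nin
        have : P.filter (fun S => S ⊆ X) = (W1 ∩ X).image (fun v => {v}) := by
          ext S
          rw [mem_filter, memP, mem_image]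
          constructor
          · rintro ⟨⟨v, hv, rfl⟩, h⟩
            exact ⟨v, mem_inter.2 ⟨hv, singleton_subset_iff.1 h⟩, rfl⟩
          · rintro ⟨v, hv, rfl⟩
            rw [mem_inter] at hv
            exact ⟨⟨v, hv.1, rfl⟩, singleton_subset_iff.2 hv.2⟩
        rw [this, card_image_of_injective _ hinj]
      have h2 : (W1 ∩ X).card * n.D0 ≤ inn G X + bd G X := by
        rw [← sum_deg, ← smul_eq_mul]
        refine le_trans (card_nsmul_le_sum _ (fun v => bd G {v}) _ ?_)
          (sum_le_sum_of_subset inter_subset_right)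
        intro v hv
        exact hdeg v (mem_inter.1 hv).1
      have h3 : (inn G X : ℝ) ≤ n.DD * X.card := by
        refine le_trans ?_ (ctx.dens' X hX)
        exact_mod_cast inn_mono (fun u v h => (hG u v h).2.1) (Subset.refl X)
      have h4 := hexp' X hX hXc
      have h5 : (X.card : ℝ) ≤ 8 * n.J * bd G X := by
        rw [div_mul_eq_mul_div, one_mul, div_le_iff₀ (by positivity)] at h4
        linarith
      have h6 : ((W1 ∩ X).card * n.D0 : ℝ) ≤ inn G X + bd G X := by exact_mod_cast h2
      have hDD : (0 : ℝ) < n.DD := by exact_mod_cast n.hDD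
      have h7 : (n.DD : ℝ) * X.card ≤ n.DD * (8 * n.J * bd G X) :=
        mul_le_mul_of_nonneg_left h5 hDD.le
      have h8 : (n.D0 : ℝ) = 2 * n.k * (1 + 8 * n.DD * n.J) := by
        unfold Nums.D0; push_cast; ring
      rw [h8] at h6
      have h9 : ((2 * n.k : ℝ) * (W1 ∩ X).card) * (1 + 8 * n.DD * n.J)
          ≤ (bd G X : ℝ) * (1 + 8 * n.DD * n.J) := by nlinarith
      have h10 := le_of_mul_le_mul_right h9 (by positivity)
      rw [h1]
      exact_mod_cast h10)
    (by omega) n.two_k_le
    (by
      have h1 := n.two_k_le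
      have h2 := n.D0_le_M
      omega)
    (by simp) (by simp) (by simp) (by simp) (by simp) (by simp) (Nat.zero_le _)
    (by rw [hP, card_image_of_injective _ hinj, hc])
  have hk := n.hk
  have hkq : n.k * n.k ≤ n.q := by
    have h1 := n.two_k_le
    have h2 := n.D0_le_M
    unfold Nums.q
    apply Nat.mul_le_mul <;> omega
  have hal : ∀ j < n.k * n.k, j / n.k < n.k := fun j hj => Nat.div_lt_of_lt_mul hj
  have hbe : ∀ j < n.k * n.k, j % n.k < n.k := fun j _ => Nat.mod_lt _ hk
  obtain ⟨Sx, C, xa, xb, h1, h2, h3, h4, _⟩ := routing st (n.k * n.k) hkq (fun j => j / n.k)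
    (fun j => j % n.k) hal hbe (by
      intro i
      have g1 : ((range (n.k * n.k)).filter (fun j => j / n.k = i ∨ j % n.k = i)) ⊆
          (range n.k).image (fun t => n.k * i + t) ∪ (range n.k).image (fun t => n.k * t + i) := by
        intro j hj
        rw [mem_filter, mem_range] at hj
        rw [mem_union, mem_image, mem_image]
        have h := Nat.div_add_mod j n.k
        rcases hj.2 with h1 | h1
        · left
          refine ⟨j % n.k, mem_range.2 (Nat.mod_lt _ hk), ?_⟩
          rw [h1] at h; exact h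
        · right
          refine ⟨j / n.k, mem_range.2 (hal j hj.1), ?_⟩
          rw [h1] at h; exact h
      refine (card_le_card g1).trans ((card_union_le _ _).trans ?_)
      have g2 := card_image_le (s := range n.k) (f := fun t => n.k * i + t)
      have g3 := card_image_le (s := range n.k) (f := fun t => n.k * t + i)
      rw [card_range] at g2 g3
      omega)
  -- the branch vertices
  have hsing : ∀ i : ℕ, ∃ v : V, i < n.k → Sx i = {v} := by
    intro i
    by_cases hi : i < n.k
    · obtain ⟨v, _, hv⟩ := (memP _).1 (h1 i hi)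
      exact ⟨v, fun _ => hv.symm⟩
    · have : 0 < n.k := hk
      obtain ⟨v, _, hv⟩ := (memP _).1 (h1 0 this)
      exact ⟨v, fun h => absurd h hi⟩
  choose g hg using hsing
  have hidx : ∀ i j : Fin n.k, (n.k * (i : ℕ) + j) < n.k * n.k ∧ (n.k * (i : ℕ) + j) / n.k = i ∧
      (n.k * (i : ℕ) + j) % n.k = j := by
    intro i j
    have hi := i.2
    have hj := j.2
    refine ⟨?_, ?_, ?_⟩
    · calc n.k * (i : ℕ) + j < n.k * (i : ℕ) + n.k := by omega
        _ = n.k * ((i : ℕ) + 1) := by ring
        _ ≤ n.k * n.k := Nat.mul_le_mul_left _ hi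
    · rw [Nat.mul_add_div hk, Nat.div_eq_of_lt hj, Nat.add_zero]
    · rw [Nat.mul_add_mod, Nat.mod_eq_of_lt hj]
  have himm := imm_of_links (H := H) (k := n.k)
    (l := 2 * (2 * n.k * (n.T0 + n.L + n.L)) + 2 * n.L) (fun i : Fin n.k => g i)
    (by
      intro i j hij
      by_contra hne
      have h5 : (i : ℕ) ≠ j := fun h => hne (Fin.ext h)
      apply h2 i i.2 j j.2 h5
      rw [hg i i.2, hg j j.2]
      simp only at hij
      rw [hij])
    (fun i j => C (n.k * i + j))
    (by
      intro i j i' j' hne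
      apply h4 _ (hidx i j).1 _ (hidx i' j').1
      intro h
      rcases hne with hne | hne
      · apply hne
        apply Fin.ext
        rw [← (hidx i j).2.1, ← (hidx i' j').2.1, h]
      · apply hne
        apply Fin.ext
        rw [← (hidx i j).2.2, ← (hidx i' j').2.2, h])
    (by
      intro i j
      obtain ⟨k1, k2, k3⟩ := h3 _ (hidx i j).1
      rw [(hidx i j).2.1, hg i i.2, mem_singleton] at k1
      rw [(hidx i j).2.2, hg j j.2, mem_singleton] at k2
      rw [k1, k2] at k3
      exact k3)
  apply himm.le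
  unfold Nums.B
  have e1 : 2 * n.k * (n.T0 + n.L + n.L) ≤ n.D0 * n.W := Nat.mul_le_mul_right _ n.two_k_le
  have e2 : n.k * n.k * (2 * (2 * n.k * (n.T0 + n.L + n.L)) + 2 * n.L + 1)
      ≤ (2 * n.M * (n.DD * n.s0 + n.D0) + n.q + n.k * n.k) *
        (2 * (n.D0 * n.W) + 2 * n.L + 1) := by
    apply Nat.mul_le_mul
    · omega
    · omega
  omega

end Pool.Agent.H21.Imm
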