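import Pool.Agent.H21.Imm.CaseOne

set_option autoImplicit false
set_option linter.unusedSectionVars false

namespace Pool.Agent.H21.Imm

open Finset

variable {V : Type} [Fintype V] [DecidableEq V]

lemma sum_darts (G : SimpleGraph V) (X B : Finset V) :
    ∑ v ∈ X, (darts G {v} B).card = (darts G X B).card := by
  have : darts G X B = X.biUnion (fun v => darts G {v} B) := by
    ext p
    simp only [mem_darts, mem_biUnion, mem_singleton]
    constructor
    · rintro ⟨⟨h1, h2⟩, h3⟩; exact ⟨p.1, h1, ⟨rfl, h2⟩, h3⟩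
    · rintro ⟨v, hv, ⟨h1, h2⟩, h3⟩; rw [h1]; exact ⟨⟨hv, h2⟩, h1 ▸ h3⟩
  rw [this, card_biUnion]
  intro u _ v _ huv
  change Disjoint (darts G {u} B) (darts G {v} B)
  rw [disjoint_left]
  intro p hp hp'
  simp only [mem_darts, mem_singleton] at hp hp'
  exact huv (hp.1.1.symm.trans hp'.1.1)

namespace Nums

variable (n : Nums)

lemma D0_ge : 16 * n.J ≤ n.D0 := by
  unfold D0
  have h1 := n.hk
  have h2 := n.hDD
  calc 16 * n.J = 2 * 1 * (8 * 1 * n.J) := by ring
    _ ≤ 2 * n.k * (1 + 8 * n.DD * n.J) := by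
      apply Nat.mul_le_mul (by omega)
      have : 8 * 1 * n.J ≤ 8 * n.DD * n.J := by gcongr
      omega

lemma two_s0_le_q : 2 * n.s0 ≤ n.q := by
  have h1 := n.D0_ge
  have h2 := n.D0_le_M
  unfold s0 q
  calc 2 * (8 * n.J * n.D0) = (16 * n.J) * n.D0 := by ring
    _ ≤ n.M * n.D0 := Nat.mul_le_mul_right _ (h1.trans h2)

lemma D0_le_q : n.D0 ≤ n.q := n.D0_le_M.trans n.M_le_q

lemma big_count {x : ℝ} (hx : (n.Z : ℝ) ^ 4 ≤ x) :
    ((n.Ln * (2 * n.D0) * n.s0 *
      ((n.D0 + 1) ^ 3 * n.NP ^ n.D0 * (n.s0 * (n.D0 + 1) ^ (2 * n.s0) * n.NP)) : ℕ) : ℝ)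
      ≤ x ^ (4 * n.q + 4) := by
  have hNP : n.NP ≤ n.Z := by have := n.NP_le_Z; omega
  have hQm : 4 * n.Qm ≤ n.NP := by have := n.Qm_le_NP; omega
  have hs0 := n.s0_le_Qm
  have hDs := n.D0_le_s0
  have h1 : n.Ln ≤ n.Z := n.Ln_le_Z
  have h2 : 2 * n.D0 ≤ n.Z := by omega
  have h3 : n.s0 ≤ n.Z := by omega
  have h4 : n.D0 + 1 ≤ n.Z := by have := n.D0_pos; omega
  have h5 : n.Ln * (2 * n.D0) * n.s0 *
      ((n.D0 + 1) ^ 3 * n.NP ^ n.D0 * (n.s0 * (n.D0 + 1) ^ (2 * n.s0) * n.NP))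
      ≤ n.Z ^ (4 * (4 * n.q + 4)) := by
    calc _ ≤ n.Z * n.Z * n.Z * (n.Z ^ 3 * n.Z ^ n.D0 * (n.Z * n.Z ^ (2 * n.s0) * n.Z)) := by gcongr
      _ = n.Z ^ (8 + n.D0 + 2 * n.s0) := by ring
      _ ≤ n.Z ^ (4 * (4 * n.q + 4)) := by
        apply Nat.pow_le_pow_right n.Z_pos
        have := n.two_s0_le_q
        have := n.D0_le_q
        omega
  have h6 : ((n.Z ^ (4 * (4 * n.q + 4)) : ℕ) : ℝ) ≤ x ^ (4 * n.q + 4) := by
    have h7 : ((n.Z : ℝ) ^ 4) ^ (4 * n.q + 4) ≤ x ^ (4 * n.q + 4) :=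
      pow_le_pow_left₀ (pow_nonneg (Nat.cast_nonneg _) 4) hx (4 * n.q + 4)
    rw [← pow_mul] at h7
    rw [Nat.cast_pow]
    exact h7
  exact le_trans (Nat.cast_le.2 h5) h6

end Nums

lemma mod_cancel {M a b c : ℕ} (hb : b < M) (hc : c < M) (h : (a + b) % M = (a + c) % M) :
    b = c := by
  have h1 : a + b ≡ a + c [MOD M] := h
  have h2 : b ≡ c [MOD M] := Nat.ModEq.add_left_cancel' a h1
  have h3 : b % M = c % M := h2
  rwa [Nat.mod_eq_of_lt hb, Nat.mod_eq_of_lt hc] at h3

/-- Case II: there are few vertices of large degree. -/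
lemma case_two {n : Nums} {H G : SimpleGraph V} {V' : Finset V} {x δ : ℝ} {y : ℕ → V}
    {Z : ℕ → Finset (Sym2 V)} (ctx : Ctx n H V' x δ y Z)
    (hG : ∀ u v, G.Adj u v → (u ∈ V' ∧ v ∈ V') ∧ H.Adj u v ∧ s(u, v) ∉ allZ Z n.q)
    (hexp : ∀ X ⊆ V', (X.card : ℝ) ≤ x ^ (n.e - 1) → 1 / (n.C : ℝ) * X.card ≤ (bd G X : ℝ))
    (hexp' : ∀ X ⊆ V', (X.card : ℝ) ≤ x ^ (4 * n.q + 4) →
      1 / (8 * n.J : ℝ) * X.card ≤ (bd G X : ℝ))
    {W : Finset V} (hW : W ⊆ V') (hWc : W.card < n.NP)
    (hbig : ∀ X ⊆ V', (X.card : ℝ) ≤ x ^ (4 * n.q + 4) → ¬ Disjoint X W →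
      ((n.D0 * n.NP + 1 : ℕ) : ℝ) ≤ (bd G X : ℝ))
    (hdeg : ∀ v ∈ V' \ W, bd G {v} ≤ n.D0)
    {ρ σ : ℝ} (hρV : ρ * V'.card + n.NP * W.card ≤ (inn G V' : ℝ))
    (hσ0 : 0 ≤ σ) (hσe : σ = sInf (immSet n.k))
    (hσ : σ * (1 + 1 / (2 * n.Tn)) + 1 / n.Ln < ρ)
    (hVc : x ^ (4 * n.q + 4) ≤ ((V' \ W).card : ℝ)) :
    ImmKB H n.k n.B := by
  classical
  set U := V' \ W with hU
  have hUV : U ⊆ V' := sdiff_subset
  have hJ : (0 : ℝ) < n.J := by exact_mod_cast n.hJ
  have hTn : (0 : ℝ) < n.Tn := by exact_mod_cast n.hTn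
  have hLn : (0 : ℝ) < n.Ln := by exact_mod_cast n.hLn
  have hx1 := n.x_ge_one ctx.hx
  have hGV : ∀ u v, G.Adj u v → u ∈ V' ∧ v ∈ V' := fun u v h => (hG u v h).1
  have hNP1 := n.NP_pos
  have hD02 := n.D0_pos
  have hρpos : 1 / (n.Ln : ℝ) < ρ := by
    have : 0 ≤ σ * (1 + 1 / (2 * n.Tn)) := by positivity
    linarith
  have hρ0 : 0 < ρ := lt_trans (by positivity) hρpos
  -- Step 1: clusters
  have hc8 : (0 : ℝ) < 1 / (8 * n.J : ℝ) := by positivity
  have hs0r : (n.D0 : ℝ) / (1 / (8 * n.J : ℝ)) = n.s0 := by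
    unfold Nums.s0
    push_cast
    field_simp
  obtain ⟨P0, hP0, hP0d, hP0c⟩ := clusters (G := G) (V' := V') (W := W) n.D0
    (c := 1 / (8 * n.J : ℝ)) (M3 := x ^ (4 * n.q + 4)) (Pb := ((n.D0 * n.NP + 1 : ℕ) : ℝ)) hc8
    hdeg hexp' hbig
    (by
      have : n.D0 < n.D0 * n.NP + 1 := by nlinarith
      exact_mod_cast this)
    (by
      have h1 : ((2 * n.s0 : ℕ) : ℝ) ≤ x ^ (4 * n.q + 4) := by
        apply n.cast_le_pow ctx.hx (by omega)
        have h2 := n.s0_le_Qm
        have h3 := n.Qm_le_NP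
        have h4 := n.NP_le_Z
        have h5 : n.Z ≤ n.Z ^ 4 := Nat.le_self_pow (by norm_num) _
        omega
      push_cast at h1
      rw [mul_div_assoc, hs0r]
      exact h1)
    (one_le_pow₀ hx1)
  have hTs0 : ∀ T ∈ P0, T.card ≤ n.s0 := by
    intro T hT
    have h1 := (hP0 T hT).2.2.2.1
    rw [hs0r] at h1
    exact_mod_cast h1
  -- Step 2: weights
  let ω' : V → ℝ := fun v => (bd G {v} : ℝ) + ((darts G {v} W).card : ℝ)
  have hω'T : ∀ T : Finset V, ∑ v ∈ T, ω' v = (inn G T : ℝ) + bd G T + (darts G T W).card := by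
    intro T
    simp only [ω']
    rw [sum_add_distrib]
    have h1 : ∑ v ∈ T, (bd G {v} : ℝ) = (inn G T : ℝ) + bd G T := by exact_mod_cast sum_deg G T
    have h2 : ∑ v ∈ T, ((darts G {v} W).card : ℝ) = (darts G T W).card := by
      exact_mod_cast sum_darts G T W
    rw [h1, h2]
  have hVU : V' \ U = W := by
    ext v
    rw [hU, mem_sdiff, mem_sdiff]
    constructor
    · rintro ⟨h1, h2⟩
      by_contra h3
      exact h2 ⟨h1, h3⟩
    · intro h
      exact ⟨hW h, fun h2 => h2.2 h⟩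
  have hresV : res G V' = G := by
    ext u v
    rw [res_adj]
    exact ⟨fun h => h.2, fun h => ⟨hGV u v h, h⟩⟩
  have hbdU : bd G U = (darts G U W).card := by
    unfold bd
    congr 1
    ext p
    rw [mem_darts, mem_darts, mem_compl]
    constructor
    · rintro ⟨⟨h1, h2⟩, h3⟩
      refine ⟨⟨h1, ?_⟩, h3⟩
      have h4 := (hGV _ _ h3).2
      rw [← hVU, mem_sdiff]
      exact ⟨h4, h2⟩
    · rintro ⟨⟨h1, h2⟩, h3⟩
      refine ⟨⟨h1, ?_⟩, h3⟩
      rw [← hVU, mem_sdiff] at h2
      exact h2.2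
  have hρU : ρ * U.card ≤ ∑ v ∈ U, ω' v := by
    rw [hω'T, ← hbdU]
    have h1 := inn_split G hUV
    rw [hresV, hVU] at h1
    have h1' : (inn G V' : ℝ) = inn G U + 2 * bd G U + inn G W := by rw [h1]; push_cast; ring
    have h2 : (inn G W : ℝ) ≤ W.card * W.card := by exact_mod_cast inn_le_sq G W
    have h3 : (W.card : ℝ) ≤ n.NP := by exact_mod_cast hWc.le
    have h4 : (0 : ℝ) ≤ W.card := Nat.cast_nonneg _
    have h5 : (U.card : ℝ) ≤ V'.card := by exact_mod_cast card_le_card hUV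
    nlinarith [mul_le_mul_of_nonneg_right h3 h4, mul_le_mul_of_nonneg_left h5 hρ0.le]
  -- Step 3: dense members
  have hdm := dense_members (U := U) P0 (fun T hT => (hP0 T hT).2.1) hP0d hP0c ω' (ρ := ρ)
    (lam := 1 / (n.Ln : ℝ)) (B := ((2 * n.D0 : ℕ) : ℝ)) (s := n.s0) hρpos.le
    (by
      intro v hv
      have h1 := hdeg v hv
      have h2 : (darts G {v} W).card ≤ bd G {v} := by
        unfold bd
        apply card_le_card
        apply darts_mono le_rfl (Subset.refl _)
        intro w hw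
        rw [mem_compl, mem_singleton]
        rintro rfl
        rw [hU, mem_sdiff] at hv
        exact hv.2 hw
      simp only [ω']
      have h3 : bd G {v} + (darts G {v} W).card ≤ 2 * n.D0 := by omega
      exact_mod_cast h3)
    (Nat.cast_nonneg _) (fun T hT => by exact_mod_cast hTs0 T hT) hρU
  set P1 := P0.filter (fun T => (ρ - 1 / (n.Ln : ℝ)) * T.card ≤ ∑ v ∈ T, ω' v) with hP1
  have hP1P0 : ∀ T ∈ P1, T ∈ P0 := fun T hT => (mem_filter.1 hT).1
  -- Step 4: counting
  have hcount : (n.D0 + 1) ^ 3 * n.NP ^ n.D0 * (n.s0 * (n.D0 + 1) ^ (2 * n.s0) * n.NP)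
      ≤ P1.card := by
    have h1 := (n.big_count ctx.hx).trans hVc
    have h2 : (U.card : ℝ) ≤ ((n.Ln * (2 * n.D0) * n.s0 * P1.card : ℕ) : ℝ) := by
      rw [one_div, inv_mul_le_iff₀ hLn] at hdm
      push_cast at hdm ⊢
      linarith
    have h3 : n.Ln * (2 * n.D0) * n.s0 *
      ((n.D0 + 1) ^ 3 * n.NP ^ n.D0 * (n.s0 * (n.D0 + 1) ^ (2 * n.s0) * n.NP))
      ≤ n.Ln * (2 * n.D0) * n.s0 * P1.card := by exact_mod_cast h1.trans h2
    have h4 : 0 < n.Ln * (2 * n.D0) * n.s0 := by
      have h5 := n.hLn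
      have h6 := n.D0_le_s0
      have h7 : 0 < n.s0 := by omega
      positivity
    exact Nat.le_of_mul_le_mul_left h3 h4
  -- Step 5: pigeonhole and selection
  let hN : Finset V → Finset V := fun T => W.filter (fun w => ∃ u ∈ T, G.Adj u w)
  have hTW : ∀ T ∈ P0, Disjoint T W := by
    intro T hT
    rw [disjoint_left]
    intro v hv
    have := (hP0 T hT).2.1 hv
    rw [mem_sdiff] at this
    exact this.2
  have hgf : ∀ T ∈ P0, (darts G T W).card ≤ bd G T := by
    intro T hT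
    unfold bd
    apply card_le_card
    apply darts_mono le_rfl (Subset.refl _)
    intro w hw
    rw [mem_compl]
    intro h
    exact disjoint_left.1 (hTW T hT) h hw
  have hhN : ∀ T ∈ P0, (hN T).card ≤ (darts G T W).card := by
    intro T hT
    have h1 : hN T ⊆ (darts G T W).image (fun p => p.2) := by
      intro w hw
      obtain ⟨h2, u, hu, h3⟩ := mem_filter.1 hw
      exact mem_image.2 ⟨(u, w), mem_darts.2 ⟨⟨hu, h2⟩, h3⟩, rfl⟩
    exact (card_le_card h1).trans card_image_le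
  obtain ⟨P2, hP2, hP2c, a, r, Ws, hP2e⟩ := pigeon P1 W n.D0 (fun T => bd G T)
    (fun T => (darts G T W).card) hN
    (fun T hT => (hP0 T (hP1P0 T hT)).2.2.1)
    (fun T hT => (hgf T (hP1P0 T hT)).trans (hP0 T (hP1P0 T hT)).2.2.1)
    (fun T hT => ⟨filter_subset _ _, (hhN T (hP1P0 T hT)).trans
      ((hgf T (hP1P0 T hT)).trans (hP0 T (hP1P0 T hT)).2.2.1)⟩)
    (n := n.s0 * (n.D0 + 1) ^ (2 * n.s0) * n.NP)
    (by
      refine le_trans ?_ hcount
      apply Nat.mul_le_mul_right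
      apply Nat.mul_le_mul_left
      exact Nat.pow_le_pow_left hWc _)
  have hP2P0 : ∀ T ∈ P2, T ∈ P0 := fun T hT => hP1P0 T (hP2 hT)
  obtain ⟨P3, hP3, hP3c, hfar⟩ := far_select G n.D0 n.s0 n.s0 hdeg P2
    (fun T hT => (hP0 T (hP2P0 T hT)).2.1) (fun T hT => (hP0 T (hP2P0 T hT)).1)
    (fun T hT T' hT' hne => hP0d T (hP2P0 T hT) T' (hP2P0 T' hT') hne)
    (fun T hT => hTs0 T (hP2P0 T hT))
    (by have := n.D0_le_s0; omega) hP2c
  have hP3P0 : ∀ T ∈ P3, T ∈ P0 := fun T hT => hP2P0 T (hP3 hT)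
  have hP3ne : P3.Nonempty := card_pos.1 (by omega)
  obtain ⟨Tx, hTx⟩ := hP3ne
  have hra : r ≤ a := by
    have h1 := hP2e Tx (hP3 hTx)
    have h2 := hgf Tx (hP3P0 Tx hTx)
    rw [h1.1, h1.2.1] at h2
    exact h2
  have haD : a ≤ n.D0 := by
    have h1 := hP2e Tx (hP3 hTx)
    have h2 := (hP0 Tx (hP3P0 Tx hTx)).2.2.1
    rw [h1.1] at h2
    exact h2
  have hWsW : Ws ⊆ W := by
    rw [← (hP2e Tx (hP3 hTx)).2.2]
    exact filter_subset _ _
  have hWsc : Ws.card ≤ n.D0 := by
    rw [← (hP2e Tx (hP3 hTx)).2.2]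
    have h1 := hhN Tx (hP3P0 Tx hTx)
    rw [(hP2e Tx (hP3 hTx)).2.1] at h1
    omega
  have hPP := P1_of_far (G := G) (V' := V') (W := W) P3 a n.s0 (c := 1 / (8 * n.J : ℝ))
    (M3 := x ^ (4 * n.q + 4)) hc8 (fun T hT => (hP0 T (hP3P0 T hT)).1)
    (by
      intro T hT X hX hTX hXc
      have h1 := (hP0 T (hP3P0 T hT)).2.2.2.2 X hX hTX hXc
      rw [(hP2e T (hP3 hT)).1] at h1
      exact h1)
    hfar hexp'
    (by
      have h1 : (1 / (8 * n.J : ℝ)) * n.s0 = n.D0 := by
        unfold Nums.s0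
        push_cast
        field_simp
      rw [h1]
      exact_mod_cast haD)
    (by
      intro X hX hXc hXW
      have h1 := hbig X hX hXc hXW
      have h2 : n.D0 * n.NP + 1 ≤ bd G X := by exact_mod_cast h1
      have h3 : a * P3.card ≤ n.D0 * n.NP := by
        rw [hP3c]; exact Nat.mul_le_mul_right _ haD
      omega)
  -- Step 6: routing
  have hinn : ∀ T ∈ P0, inn G T ≤ n.DD * n.s0 := by
    intro T hT
    have h1 : (inn G T : ℝ) ≤ n.DD * T.card := by
      refine le_trans ?_ (ctx.dens' T ((hP0 T hT).2.1.trans hUV))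
      exact_mod_cast inn_mono (fun u v h => (hG u v h).2.1) (Subset.refl T)
    have h2 : inn G T ≤ n.DD * T.card := by exact_mod_cast h1
    exact h2.trans (Nat.mul_le_mul_left _ (hTs0 T hT))
  have st := mkSetup (G := G) (P := P3) (a := a) (a' := a - r) (r := r) (N := 2 * n.M)
    (inte := fun T => (darts G T T).image (fun p => s(p.1, p.2)))
    (prt := fun T => (darts G T W).image (fun p => s(p.1, p.2))) (I0 := n.DD * n.s0) ctx hG hexp
    (fun T hT => (hP0 T (hP3P0 T hT)).2.1.trans hUV) (fun T hT => (hP0 T (hP3P0 T hT)).1)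
    (fun T hT T' hT' hne => hP0d T (hP3P0 T hT) T' (hP3P0 T' hT') hne)
    (fun X hX hXc => hPP X.card X hX le_rfl hXc)
    (by omega) haD le_rfl
    (by
      intro T hT
      refine card_image_le.trans ?_
      rw [← (hP2e T (hP3 hT)).2.1])
    (by
      intro T hT e he
      obtain ⟨p, hp, rfl⟩ := mem_image.1 he
      rw [mem_darts] at hp
      exact ⟨p.1, hp.1.1, by simp⟩)
    (by
      intro T hT
      exact card_image_le.trans (hinn T (hP3P0 T hT)))
    (by
      intro T hT e he v hv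
      obtain ⟨p, hp, rfl⟩ := mem_image.1 he
      rw [mem_darts] at hp
      rw [Sym2.mem_iff] at hv
      rcases hv with rfl | rfl
      · exact hp.1.1
      · exact hp.1.2)
    (by
      intro T hT e he
      obtain ⟨p, hp, rfl⟩ := mem_image.1 he
      rw [mem_darts] at hp
      exact hp.2)
    (by
      intro T hT e he
      obtain ⟨p, hp, rfl⟩ := mem_image.1 he
      rw [mem_darts] at hp
      exact hp.2)
    le_rfl hP3c
  -- the role graph
  set aU := a - r with haU
  set M := n.M with hM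
  have hM0 : 0 < M := by have := n.D0_le_M; omega
  have haUM : aU ≤ M := by have := n.D0_le_M; omega
  have hq' : M * aU ≤ n.q := by
    have : n.q = M * n.D0 := rfl
    rw [this]
    exact Nat.mul_le_mul_left _ (by omega)
  have hdivlt : ∀ j < M * aU, j / aU < M := by
    intro j hj
    apply Nat.div_lt_of_lt_mul
    rw [Nat.mul_comm]; exact hj
  have hmodlt : ∀ j < M * aU, j % aU < M := by
    intro j hj
    have : 0 < aU := by
      rcases Nat.eq_zero_or_pos aU with h | h
      · rw [h, Nat.mul_zero] at hj; omega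
      · exact h
    exact lt_of_lt_of_le (Nat.mod_lt _ this) haUM
  have hal : ∀ j < M * aU, j / aU < 2 * M := by
    intro j hj
    have := hdivlt j hj
    omega
  have hbe : ∀ j < M * aU, M + ((j / aU + j % aU) % M) < 2 * M := by
    intro j _
    have := Nat.mod_lt (j / aU + j % aU) hM0
    omega
  have hjeq : ∀ i j : ℕ, i / aU = j / aU → i % aU = j % aU → i = j := by
    intro i j h1 h2
    rw [← Nat.div_add_mod i aU, ← Nat.div_add_mod j aU, h1, h2]
  obtain ⟨Sx, C, xa, xb, r1, r2, r3, r4, r5⟩ := routing st (M * aU) hq' (fun j => j / aU)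
    (fun j => M + ((j / aU + j % aU) % M)) hal hbe (by
      intro i
      by_cases hi : i < M
      · have g1 : ((range (M * aU)).filter (fun j => j / aU = i ∨ M + ((j / aU + j % aU) % M) = i))
            ⊆ (range aU).image (fun t => aU * i + t) := by
          intro j hj
          rw [mem_filter, mem_range] at hj
          rw [mem_image]
          have hpos : 0 < aU := by
            rcases Nat.eq_zero_or_pos aU with h | h
            · rw [h, Nat.mul_zero] at hj; omega
            · exact h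
          rcases hj.2 with h1 | h1
          · refine ⟨j % aU, mem_range.2 (Nat.mod_lt _ hpos), ?_⟩
            have h := Nat.div_add_mod j aU
            rw [h1] at h; exact h
          · omega
        refine (card_le_card g1).trans (card_image_le.trans ?_)
        rw [card_range]
      · have g1 : ((range (M * aU)).filter
            (fun j => j / aU = i ∨ M + ((j / aU + j % aU) % M) = i)).card ≤ (range aU).card := by
          apply card_le_card_of_injOn (fun j => j % aU)
          · intro j hj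
            have hj := mem_filter.1 (mem_coe.1 hj)
            have hj1 := mem_range.1 hj.1
            have hpos : 0 < aU := by
              rcases Nat.eq_zero_or_pos aU with h | h
              · rw [h, Nat.mul_zero] at hj1; omega
              · exact h
            exact mem_coe.2 (mem_range.2 (Nat.mod_lt _ hpos))
          · intro j hj j' hj' hjj
            have hj := mem_filter.1 (mem_coe.1 hj)
            have hj' := mem_filter.1 (mem_coe.1 hj')
            have k1 := mem_range.1 hj.1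
            have k1' := mem_range.1 hj'.1
            have k2 := hdivlt j k1
            have k2' := hdivlt j' k1'
            have k3 : (j / aU + j % aU) % M = i - M := by
              rcases hj.2 with h | h <;> omega
            have k3' : (j' / aU + j' % aU) % M = i - M := by
              rcases hj'.2 with h | h <;> omega
            simp only at hjj
            apply hjeq j j' _ hjj
            rw [← k3', hjj, Nat.add_comm (j / aU), Nat.add_comm (j' / aU)] at k3
            exact mod_cancel k2 k2' k3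
        rw [card_range] at g1
        exact g1)
  -- Step 7: the linked graph
  have hSP0 : ∀ i < 2 * M, Sx i ∈ P0 := fun i hi => hP3P0 _ (r1 i hi)
  have hSW : ∀ i < 2 * M, (darts G (Sx i) Ws).card = r := by
    intro i hi
    have h1 := hP2e _ (hP3 (r1 i hi))
    have h2 : darts G (Sx i) Ws = darts G (Sx i) W := by
      apply Subset.antisymm (darts_mono le_rfl (Subset.refl _) hWsW)
      intro p hp
      rw [mem_darts] at hp ⊢
      refine ⟨⟨hp.1.1, ?_⟩, hp.2⟩
      rw [← h1.2.2]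
      exact mem_filter.2 ⟨hp.1.2, p.1, hp.1.1, hp.2⟩
    rw [h2]
    exact h1.2.1
  have hSpos : ∀ i < 2 * M, 1 ≤ (Sx i).card := by
    intro i hi
    exact card_pos.2 (hP0 _ (hSP0 i hi)).1
  set S : ℕ := ∑ i ∈ range (2 * M), (Sx i).card with hS
  have hS2M : 2 * M ≤ S := by
    have h1 : (range (2 * M)).card • 1 ≤ ∑ i ∈ range (2 * M), (Sx i).card :=
      card_nsmul_le_sum _ _ _ (fun i hi => hSpos i (mem_range.1 hi))
    rw [card_range] at h1
    simpa using h1
  have hdense : sInf (immSet n.k) * ((S : ℕ) + Ws.card : ℝ) <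
      ((∑ i ∈ range (2 * M), (inn G (Sx i) + 2 * (darts G (Sx i) Ws).card) + 2 * (M * aU) : ℕ)
        : ℝ) := by
    rw [← hσe]
    have h1 : (ρ - 1 / (n.Ln : ℝ)) * S ≤
        ((∑ i ∈ range (2 * M), (inn G (Sx i) + 2 * (darts G (Sx i) Ws).card) + 2 * (M * aU) : ℕ)
        : ℝ) := by
      have h2 : ∀ i ∈ range (2 * M), (ρ - 1 / (n.Ln : ℝ)) * ((Sx i).card : ℝ) ≤
          ((inn G (Sx i) + 2 * (darts G (Sx i) Ws).card + aU : ℕ) : ℝ) := by
        intro i hi
        have hi := mem_range.1 hi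
        have h3 := (mem_filter.1 (hP2 (hP3 (r1 i hi)))).2
        rw [hω'T] at h3
        have h4 := hP2e _ (hP3 (r1 i hi))
        refine h3.trans ?_
        have h5 : inn G (Sx i) + bd G (Sx i) + (darts G (Sx i) W).card
            ≤ inn G (Sx i) + 2 * (darts G (Sx i) Ws).card + aU := by
          rw [hSW i hi]
          have := h4.1
          have := h4.2.1
          omega
        exact_mod_cast h5
      have h3 := sum_le_sum h2
      rw [← mul_sum] at h3
      have h4 : ∑ i ∈ range (2 * M), ((Sx i).card : ℝ) = S := by rw [hS]; push_cast; rfl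
      rw [h4] at h3
      refine h3.trans (le_of_eq ?_)
      rw [← Nat.cast_sum]
      congr 1
      rw [sum_add_distrib, sum_const, card_range, smul_eq_mul]
      ring
    have hSr : (0 : ℝ) < S := by
      have : 0 < S := by omega
      exact_mod_cast this
    have h5 : (Ws.card : ℝ) ≤ S / (2 * n.Tn) := by
      rw [le_div_iff₀ (by positivity)]
      have h6 : Ws.card * (2 * n.Tn) ≤ S := by
        calc Ws.card * (2 * n.Tn) ≤ n.D0 * (2 * n.Tn) := Nat.mul_le_mul_right _ hWsc
          _ = 2 * (n.Tn * n.D0) := by ring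
          _ ≤ S := hS2M
      exact_mod_cast h6
    have h7 : σ * ((S : ℕ) + Ws.card : ℝ) ≤ σ * (1 + 1 / (2 * n.Tn)) * S := by
      have h8 : ((S : ℕ) + Ws.card : ℝ) ≤ (1 + 1 / (2 * n.Tn)) * S := by
        have : (1 + 1 / (2 * n.Tn : ℝ)) * S = S + S / (2 * n.Tn) := by ring
        rw [this]
        linarith
      calc σ * ((S : ℕ) + Ws.card : ℝ) ≤ σ * ((1 + 1 / (2 * n.Tn)) * S) :=
            mul_le_mul_of_nonneg_left h8 hσ0
        _ = _ := by ring
    have h9 : σ * (1 + 1 / (2 * n.Tn)) * S < (ρ - 1 / (n.Ln : ℝ)) * S := by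
      apply mul_lt_mul_of_pos_right _ hSr
      linarith
    linarith
  have himm := linked (H := H) (G := G) (fun u v h => (hG u v h).2.1) (Ws := Ws) (k := n.k)
    (N := 2 * M) (q' := M * aU) (l := 2 * ((a - r) * (n.T0 + n.L + n.L)) + 2 * n.L)
    (Sx := Sx) (C := C) (xa := xa) (xb := xb) (al := fun j => j / aU)
    (be := fun j => M + ((j / aU + j % aU) % M))
    (fun i hi i' hi' hne => hP0d _ (hSP0 i hi) _ (hSP0 i' hi') (r2 i hi i' hi' hne))
    (fun i hi => disjoint_of_subset_right hWsW (hTW _ (hSP0 i hi))) hal hbe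
    (by
      intro i hi j hj
      have := hdivlt i hi
      omega)
    (by
      intro i hi j hj h1 h2
      apply hjeq i j h1
      have h3 : (i / aU + i % aU) % M = (j / aU + j % aU) % M := by omega
      rw [h1] at h3
      exact mod_cancel (hmodlt i hi) (hmodlt j hj) h3)
    r3
    (by
      have h1 := n.K_le_L
      have h2 := n.K_pos
      omega)
    r4
    (by
      intro j hj i hi u v huv hu hv hmem
      obtain ⟨h1, h2⟩ := r5 j hj i hi _ hmem
      rcases hv with hv | hv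
      · exact h1 (mem_image.2 ⟨(u, v), mem_darts.2 ⟨⟨hu, hv⟩, huv⟩, rfl⟩)
      · exact h2 (mem_image.2 ⟨(u, v), mem_darts.2 ⟨⟨hu, hWsW hv⟩, huv⟩, rfl⟩))
    (by omega) hdense (by rw [← hσe]; exact hσ0)
  apply himm.le
  unfold Nums.B
  have e1 : (a - r) * (n.T0 + n.L + n.L) ≤ n.D0 * n.W := Nat.mul_le_mul_right _ (by omega)
  have e2 : ∑ i ∈ range (2 * M), (inn G (Sx i) + (darts G (Sx i) Ws).card)
      ≤ 2 * n.M * (n.DD * n.s0 + n.D0) := by
    have h1 : ∑ i ∈ range (2 * M), (inn G (Sx i) + (darts G (Sx i) Ws).card)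
        ≤ (range (2 * M)).card • (n.DD * n.s0 + n.D0) := by
      apply sum_le_card_nsmul
      intro i hi
      have hi := mem_range.1 hi
      have h2 := hinn _ (hSP0 i hi)
      have h3 := hSW i hi
      omega
    rw [card_range, smul_eq_mul] at h1
    exact h1
  have e3 : (∑ i ∈ range (2 * M), (inn G (Sx i) + (darts G (Sx i) Ws).card) + M * aU) *
      (2 * ((a - r) * (n.T0 + n.L + n.L)) + 2 * n.L)
      ≤ (2 * n.M * (n.DD * n.s0 + n.D0) + n.q + n.k * n.k) *
        (2 * (n.D0 * n.W) + 2 * n.L + 1) := by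
    apply Nat.mul_le_mul
    · omega
    · omega
  omega

end Pool.Agent.H21.Imm
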