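import Pool.Agent.H21.Imm.Finite

set_option autoImplicit false
set_option linter.unusedSectionVars false

namespace Pool.Agent.H21.Imm

open Finset

variable {V : Type} [Fintype V] [DecidableEq V]

/-- Minimal minimisers of the cut function form a laminar family; its maximal members partition
the set of low degree vertices into tight clusters. -/
lemma clusters {G : SimpleGraph V} {V' W : Finset V} (D0 : ℕ) {c M3 Pb : ℝ} (hc : 0 < c)
    (hdeg : ∀ v ∈ V' \ W, bd G {v} ≤ D0)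
    (hexp : ∀ X ⊆ V', (X.card : ℝ) ≤ M3 → c * X.card ≤ (bd G X : ℝ))
    (hbig : ∀ X ⊆ V', (X.card : ℝ) ≤ M3 → ¬ Disjoint X W → Pb ≤ (bd G X : ℝ))
    (hPb : (D0 : ℝ) < Pb) (hM3 : 2 * (D0 : ℝ) / c ≤ M3) (hM3' : 1 ≤ M3) :
    ∃ P : Finset (Finset V),
      (∀ T ∈ P, T.Nonempty ∧ T ⊆ V' \ W ∧ bd G T ≤ D0 ∧ (T.card : ℝ) ≤ D0 / c ∧
        ∀ X ⊆ V', T ⊆ X → (X.card : ℝ) ≤ M3 → bd G T ≤ bd G X) ∧
      (∀ T ∈ P, ∀ T' ∈ P, T ≠ T' → Disjoint T T') ∧ (∀ v ∈ V' \ W, ∃ T ∈ P, v ∈ T) := by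
  classical
  set U := V' \ W with hU
  have hUV : U ⊆ V' := sdiff_subset
  -- minimisers
  let Fam : V → Finset (Finset V) := fun v =>
    V'.powerset.filter (fun X => v ∈ X ∧ (X.card : ℝ) ≤ M3)
  have memFam : ∀ v X, X ∈ Fam v ↔ X ⊆ V' ∧ v ∈ X ∧ (X.card : ℝ) ≤ M3 := by
    intro v X; simp only [Fam, mem_filter, mem_powerset]
  have hex : ∀ v : V, ∃ S : Finset V, v ∈ U → S ∈ Fam v ∧
      (∀ X ∈ Fam v, bd G S ≤ bd G X) ∧ (∀ X ∈ Fam v, bd G X = bd G S → S.card ≤ X.card) := by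
    intro v
    by_cases hv : v ∈ U
    · have hne : (Fam v).Nonempty := by
        refine ⟨{v}, ?_⟩
        rw [memFam]
        refine ⟨singleton_subset_iff.2 (hUV hv), mem_singleton_self v, ?_⟩
        rw [card_singleton]; exact_mod_cast hM3'
      obtain ⟨S, hS, hmin⟩ := exists_min_image (Fam v)
        (fun X => bd G X * (Fintype.card V + 1) + X.card) hne
      refine ⟨S, fun _ => ⟨hS, ?_, ?_⟩⟩
      · intro X hX
        have h1 := hmin X hX
        have h2 : X.card ≤ Fintype.card V := card_le_univ X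
        by_contra hlt
        push Not at hlt
        have h3 : (bd G X + 1) * (Fintype.card V + 1) ≤ bd G S * (Fintype.card V + 1) :=
          Nat.mul_le_mul_right _ hlt
        have h4 : (bd G X + 1) * (Fintype.card V + 1)
            = bd G X * (Fintype.card V + 1) + (Fintype.card V + 1) := by ring
        omega
      · intro X hX hXe
        have h1 := hmin X hX
        rw [hXe] at h1
        omega
    · exact ⟨∅, fun h => absurd h hv⟩
  choose S hS using hex
  have hSV : ∀ v ∈ U, S v ⊆ V' := fun v hv => ((memFam v _).1 (hS v hv).1).1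
  have hvS : ∀ v ∈ U, v ∈ S v := fun v hv => ((memFam v _).1 (hS v hv).1).2.1
  have hSM : ∀ v ∈ U, ((S v).card : ℝ) ≤ M3 := fun v hv => ((memFam v _).1 (hS v hv).1).2.2
  have hSb : ∀ v ∈ U, bd G (S v) ≤ D0 := by
    intro v hv
    refine ((hS v hv).2.1 {v} ?_).trans (hdeg v hv)
    rw [memFam]
    refine ⟨singleton_subset_iff.2 (hUV hv), mem_singleton_self v, ?_⟩
    rw [card_singleton]; exact_mod_cast hM3'
  have hSc : ∀ v ∈ U, ((S v).card : ℝ) ≤ D0 / c := by
    intro v hv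
    rw [le_div_iff₀ hc]
    have h1 := hexp (S v) (hSV v hv) (hSM v hv)
    have h2 : (bd G (S v) : ℝ) ≤ D0 := by exact_mod_cast hSb v hv
    linarith
  have hSU : ∀ v ∈ U, S v ⊆ U := by
    intro v hv x hx
    rw [hU, mem_sdiff]
    refine ⟨hSV v hv hx, ?_⟩
    intro hxW
    have h1 := hbig (S v) (hSV v hv) (hSM v hv) (by
      rw [not_disjoint_iff]; exact ⟨x, hx, hxW⟩)
    have h2 : (bd G (S v) : ℝ) ≤ D0 := by exact_mod_cast hSb v hv
    linarith
  have hunion : ∀ u ∈ U, ∀ v ∈ U, ((S u ∪ S v).card : ℝ) ≤ M3 := by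
    intro u hu v hv
    have h1 : ((S u ∪ S v).card : ℝ) ≤ (S u).card + (S v).card := by
      exact_mod_cast card_union_le _ _
    have h2 := hSc u hu
    have h3 := hSc v hv
    have h4 : 2 * (D0 : ℝ) / c = D0 / c + D0 / c := by ring
    linarith
  have hsubM : ∀ u ∈ U, ∀ X, X ⊆ S u → (X.card : ℝ) ≤ M3 := by
    intro u hu X hX
    have h1 : (X.card : ℝ) ≤ (S u).card := by exact_mod_cast card_le_card hX
    exact h1.trans (hSM u hu)
  -- nested if a vertex of one cluster generates the other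
  have hnest : ∀ u ∈ U, ∀ v ∈ U, u ∈ S v → S u ⊆ S v := by
    intro u hu v hv huv
    have h1 := bd_union_add_inter G (S u) (S v)
    have h2 : bd G (S v) ≤ bd G (S u ∪ S v) := by
      apply (hS v hv).2.1
      rw [memFam]
      exact ⟨union_subset (hSV u hu) (hSV v hv), mem_union_right _ (hvS v hv), hunion u hu v hv⟩
    have h3 : S u ∩ S v ∈ Fam u := by
      rw [memFam]
      exact ⟨inter_subset_left.trans (hSV u hu), mem_inter.2 ⟨hvS u hu, huv⟩,
        hsubM u hu _ inter_subset_left⟩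
    have h4 := (hS u hu).2.1 _ h3
    have h5 : bd G (S u ∩ S v) = bd G (S u) := by omega
    have h6 := (hS u hu).2.2 _ h3 h5
    have h7 : S u ∩ S v = S u := eq_of_subset_of_card_le inter_subset_left h6
    rw [← h7]
    exact inter_subset_right
  have hlam : ∀ u ∈ U, ∀ v ∈ U, S u ⊆ S v ∨ S v ⊆ S u ∨ Disjoint (S u) (S v) := by
    intro u hu v hv
    by_cases h1 : u ∈ S v
    · exact Or.inl (hnest u hu v hv h1)
    by_cases h2 : v ∈ S u
    · exact Or.inr (Or.inl (hnest v hv u hu h2))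
    right; right
    have h3 := bd_sdiff_add_sdiff G (S u) (S v)
    have h4 : S u \ S v ∈ Fam u := by
      rw [memFam]
      exact ⟨sdiff_subset.trans (hSV u hu), mem_sdiff.2 ⟨hvS u hu, h1⟩,
        hsubM u hu _ sdiff_subset⟩
    have h5 : S v \ S u ∈ Fam v := by
      rw [memFam]
      exact ⟨sdiff_subset.trans (hSV v hv), mem_sdiff.2 ⟨hvS v hv, h2⟩,
        hsubM v hv _ sdiff_subset⟩
    have h6 := (hS u hu).2.1 _ h4
    have h7 := (hS v hv).2.1 _ h5
    have h8 : bd G (S u \ S v) = bd G (S u) := by omega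
    have h9 := (hS u hu).2.2 _ h4 h8
    have h10 : S u \ S v = S u := eq_of_subset_of_card_le sdiff_subset h9
    exact sdiff_eq_self_iff_disjoint.1 h10
  -- maximal members
  let C : Finset (Finset V) := U.image S
  let P : Finset (Finset V) := C.filter (fun T => ∀ T' ∈ C, T ⊆ T' → T' = T)
  have memC : ∀ T, T ∈ C ↔ ∃ v ∈ U, S v = T := by intro T; simp only [C, mem_image]
  have memP : ∀ T, T ∈ P ↔ T ∈ C ∧ ∀ T' ∈ C, T ⊆ T' → T' = T := by
    intro T; simp only [P, mem_filter]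
  refine ⟨P, ?_, ?_, ?_⟩
  · intro T hT
    obtain ⟨hTC, _⟩ := (memP T).1 hT
    obtain ⟨v, hv, rfl⟩ := (memC T).1 hTC
    refine ⟨⟨v, hvS v hv⟩, hSU v hv, hSb v hv, hSc v hv, ?_⟩
    intro X hX hTX hXc
    apply (hS v hv).2.1
    rw [memFam]
    exact ⟨hX, hTX (hvS v hv), hXc⟩
  · intro T hT T' hT' hne
    obtain ⟨hTC, hmax⟩ := (memP T).1 hT
    obtain ⟨hTC', hmax'⟩ := (memP T').1 hT'
    obtain ⟨u, hu, rfl⟩ := (memC T).1 hTC
    obtain ⟨v, hv, rfl⟩ := (memC T').1 hTC'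
    rcases hlam u hu v hv with h | h | h
    · exact absurd (hmax _ hTC' h).symm hne
    · exact absurd (hmax' _ hTC h) hne
    · exact h
  · intro v hv
    let Cv := C.filter (fun T => v ∈ T)
    have hCv : Cv.Nonempty := ⟨S v, mem_filter.2 ⟨(memC _).2 ⟨v, hv, rfl⟩, hvS v hv⟩⟩
    obtain ⟨T, hT, hmax⟩ := exists_max_image Cv Finset.card hCv
    rw [mem_filter] at hT
    refine ⟨T, ?_, hT.2⟩
    rw [memP]
    refine ⟨hT.1, ?_⟩
    intro T' hT' hsub
    have h1 := hmax T' (mem_filter.2 ⟨hT', hsub hT.2⟩)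
    exact (eq_of_subset_of_card_le hsub h1).symm

/-- Members of a partition whose weight is not much below average. -/
lemma dense_members {U : Finset V} (P : Finset (Finset V)) (hPU : ∀ T ∈ P, T ⊆ U)
    (hdisj : ∀ T ∈ P, ∀ T' ∈ P, T ≠ T' → Disjoint T T') (hcov : ∀ v ∈ U, ∃ T ∈ P, v ∈ T)
    (ω : V → ℝ) {ρ lam B s : ℝ} (hρ : lam ≤ ρ) (hB : ∀ v ∈ U, ω v ≤ B) (hB0 : 0 ≤ B)
    (hs : ∀ T ∈ P, (T.card : ℝ) ≤ s) (hω : ρ * U.card ≤ ∑ v ∈ U, ω v) :
    lam * U.card ≤ B * s * ((P.filter (fun T => (ρ - lam) * T.card ≤ ∑ v ∈ T, ω v)).card : ℝ) := by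
  classical
  have hU : U = P.biUnion id := by
    ext v
    rw [mem_biUnion]
    constructor
    · intro hv
      obtain ⟨T, hT, hvT⟩ := hcov v hv
      exact ⟨T, hT, hvT⟩
    · rintro ⟨T, hT, hvT⟩
      exact hPU T hT hvT
  have hpd : (P : Set (Finset V)).PairwiseDisjoint id := by
    intro T hT T' hT' hne
    exact hdisj T hT T' hT' hne
  have hsum : ∑ v ∈ U, ω v = ∑ T ∈ P, ∑ v ∈ T, ω v := by
    conv_lhs => rw [hU]
    rw [sum_biUnion hpd]
    rfl
  have hcard : (U.card : ℝ) = ∑ T ∈ P, (T.card : ℝ) := by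
    conv_lhs => rw [hU]
    rw [card_biUnion hpd]
    push_cast
    rfl
  set P1 := P.filter (fun T => (ρ - lam) * T.card ≤ ∑ v ∈ T, ω v) with hP1
  have h1 : ∑ T ∈ P, ∑ v ∈ T, ω v ≤ (ρ - lam) * U.card + ∑ T ∈ P1, B * s := by
    rw [hcard, mul_sum]
    have h2 : ∑ T ∈ P1, B * s = ∑ T ∈ P, if (ρ - lam) * T.card ≤ ∑ v ∈ T, ω v then B * s else 0 := by
      rw [hP1, sum_filter]
    rw [h2, ← sum_add_distrib]
    apply sum_le_sum
    intro T hT
    have hTc : (0 : ℝ) ≤ T.card := Nat.cast_nonneg _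
    split_ifs with h3
    · have h4 : ∑ v ∈ T, ω v ≤ T.card * B := by
        rw [← nsmul_eq_mul]
        apply sum_le_card_nsmul
        intro v hv
        exact hB v (hPU T hT hv)
      have h5 := hs T hT
      have h6 : (0 : ℝ) ≤ (ρ - lam) * T.card := mul_nonneg (by linarith) hTc
      nlinarith
    · push Not at h3
      linarith
  rw [sum_const, nsmul_eq_mul] at h1
  nlinarith

end Pool.Agent.H21.Imm
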