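import Pool.Agent.H21.Imm.Route

set_option autoImplicit false
set_option linter.unusedSectionVars false

namespace Pool.Agent.H21.Imm

open Finset

/-- `H` immerses the complete graph on `k` vertices. -/
def ImmK {W : Type} (H : SimpleGraph W) (k : ℕ) : Prop :=
  ∃ f : Fin k → W, Function.Injective f ∧
    ∃ P : ∀ i j : Fin k, H.Walk (f i) (f j),
      (∀ i j : Fin k, i < j → (P i j).IsPath) ∧
      (∀ i j i' j' : Fin k, i < j → i' < j' → (i ≠ i' ∨ j ≠ j') →
        (P i j).edges.Disjoint (P i' j').edges)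

/-- `H` immerses the complete graph on `k` vertices using at most `B` vertices. -/
def ImmKB {W : Type} (H : SimpleGraph W) (k B : ℕ) : Prop :=
  ∃ f : Fin k → W, Function.Injective f ∧
    ∃ P : ∀ i j : Fin k, H.Walk (f i) (f j),
      (∀ i j : Fin k, i < j → (P i j).IsPath) ∧
      (∀ i j i' j' : Fin k, i < j → i' < j' → (i ≠ i' ∨ j ≠ j') →
        (P i j).edges.Disjoint (P i' j').edges) ∧
      {v : W | (∃ i, f i = v) ∨ ∃ i j, i < j ∧ v ∈ (P i j).support}.ncard ≤ B

lemma ImmK.map {W W' : Type} {H : SimpleGraph W} {H' : SimpleGraph W'} {k : ℕ} (h : ImmK H k)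
    (φ : W → W') (hφ : Function.Injective φ) (hadj : ∀ u v, H.Adj u v → H'.Adj (φ u) (φ v)) :
    ImmK H' k := by
  obtain ⟨f, hf, P, hP1, hP2⟩ := h
  let g : H →g H' := ⟨φ, fun {u v} h => hadj u v h⟩
  refine ⟨fun i => φ (f i), hφ.comp hf, fun i j => (P i j).map g, ?_, ?_⟩
  · intro i j hij
    exact SimpleGraph.Walk.IsPath.map (f := g) hφ (hP1 i j hij)
  · intro i j i' j' hij hij' hne
    have hd := hP2 i j i' j' hij hij' hne
    intro e he he'
    rw [SimpleGraph.Walk.edges_map, List.mem_map] at he he'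
    obtain ⟨e1, h1, rfl⟩ := he
    obtain ⟨e2, h2, h3⟩ := he'
    have hinj : Function.Injective (Sym2.map φ) := Sym2.map.injective hφ
    have : e2 = e1 := hinj h3
    rw [this] at h2
    exact hd h1 h2

lemma ImmKB.map {W W' : Type} [Finite W'] {H : SimpleGraph W} {H' : SimpleGraph W'} {k B : ℕ}
    (h : ImmKB H k B)
    (φ : W → W') (hφ : Function.Injective φ) (hadj : ∀ u v, H.Adj u v → H'.Adj (φ u) (φ v)) :
    ImmKB H' k B := by
  obtain ⟨f, hf, P, hP1, hP2, hP3⟩ := h
  let g : H →g H' := ⟨φ, fun {u v} h => hadj u v h⟩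
  refine ⟨fun i => φ (f i), hφ.comp hf, fun i j => (P i j).map g, ?_, ?_, ?_⟩
  · intro i j hij
    exact SimpleGraph.Walk.IsPath.map (f := g) hφ (hP1 i j hij)
  · intro i j i' j' hij hij' hne
    have hd := hP2 i j i' j' hij hij' hne
    intro e he he'
    rw [SimpleGraph.Walk.edges_map, List.mem_map] at he he'
    obtain ⟨e1, h1, rfl⟩ := he
    obtain ⟨e2, h2, h3⟩ := he'
    have hinj : Function.Injective (Sym2.map φ) := Sym2.map.injective hφ
    have : e2 = e1 := hinj h3
    rw [this] at h2
    exact hd h1 h2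
  · have : Finite W := Finite.of_injective φ hφ
    have : {v : W' | (∃ i, φ (f i) = v) ∨ ∃ i j, i < j ∧ v ∈ ((P i j).map g).support}
        ⊆ φ '' {v : W | (∃ i, f i = v) ∨ ∃ i j, i < j ∧ v ∈ (P i j).support} := by
      rintro v (⟨i, rfl⟩ | ⟨i, j, hij, hv⟩)
      · exact ⟨f i, Or.inl ⟨i, rfl⟩, rfl⟩
      · rw [SimpleGraph.Walk.support_map, List.mem_map] at hv
        obtain ⟨u, hu, rfl⟩ := hv
        exact ⟨u, Or.inr ⟨i, j, hij, hu⟩, rfl⟩
    refine (Set.ncard_le_ncard this (Set.toFinite _)).trans ?_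
    exact (Set.ncard_image_le (Set.toFinite _)).trans hP3

section

variable {V : Type} [Fintype V] [DecidableEq V]

lemma mem_support_edges {G : SimpleGraph V} {u w : V} (p : G.Walk u w) {v : V}
    (hv : v ∈ p.support) : v = u ∨ ∃ e ∈ p.edges, v ∈ e := by
  induction p with
  | nil =>
    left
    simpa using hv
  | @cons a b c hab p ih =>
    rw [SimpleGraph.Walk.support_cons, List.mem_cons] at hv
    rcases hv with rfl | hv
    · exact Or.inl rfl
    · right
      rcases ih hv with rfl | ⟨e, he, hve⟩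
      · exact ⟨s(a, v), by simp, by simp⟩
      · exact ⟨e, by rw [SimpleGraph.Walk.edges_cons]; exact List.mem_cons_of_mem _ he, hve⟩

/-- Composition of an immersion in the linked graph `F0` with the links. -/
lemma compose {H F0 : SimpleGraph V} {k l : ℕ} {C : Sym2 V → Finset (Sym2 V)}
    (EF : Finset (Sym2 V)) (hEF : ∀ e ∈ F0.edgeSet, e ∈ EF)
    (h1 : ∀ u v, F0.Adj u v → ConnL H u v (C s(u, v)) l)
    (h2 : ∀ e ∈ F0.edgeSet, ∀ e' ∈ F0.edgeSet, e ≠ e' → Disjoint (C e) (C e'))
    (h : ImmK F0 k) : ImmKB H k (k + 2 * (EF.card * l)) := by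
  classical
  -- edge sets of the links
  have hex : ∀ e : Sym2 V, ∃ W : Finset (Sym2 V), e ∈ F0.edgeSet → W.card ≤ l ∧ W ⊆ C e ∧
      ∀ u v, e = s(u, v) → Conn H u v W := by
    intro e
    by_cases he : e ∈ F0.edgeSet
    · induction e using Sym2.ind with
      | _ a b =>
        obtain ⟨p, hp, hl⟩ := h1 a b he
        refine ⟨p.edges.toFinset, fun _ => ⟨?_, ?_, ?_⟩⟩
        · refine (List.toFinset_card_le _).trans ?_
          rw [SimpleGraph.Walk.length_edges]; exact hl
        · intro e he'
          exact hp e (List.mem_toFinset.1 he')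
        · intro u v huv
          rw [Sym2.eq_iff] at huv
          have hc : Conn H a b p.edges.toFinset := ⟨p, fun e he => List.mem_toFinset.2 he⟩
          rcases huv with ⟨rfl, rfl⟩ | ⟨rfl, rfl⟩
          · exact hc
          · exact hc.symm
    · exact ⟨∅, fun h => absurd h he⟩
  choose W hW using hex
  obtain ⟨f, hf, P, hP1, hP2⟩ := h
  have hconn : ∀ (u v : V) (p : F0.Walk u v), Conn H u v (p.edges.toFinset.biUnion W) := by
    intro u v p
    induction p with
    | nil => exact Conn.refl _ _ _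
    | @cons a b c hab p ih =>
      have h3 : Conn H a b (W s(a, b)) := (hW s(a, b) hab).2.2 a b rfl
      have h4 : W s(a, b) ⊆ ((SimpleGraph.Walk.cons hab p).edges.toFinset.biUnion W) := by
        apply subset_biUnion_of_mem W
        simp
      have h5 : (p.edges.toFinset.biUnion W) ⊆ ((SimpleGraph.Walk.cons hab p).edges.toFinset.biUnion W) := by
        apply biUnion_subset_biUnion_of_subset_left
        intro e he
        simp only [SimpleGraph.Walk.edges_cons, List.toFinset_cons, mem_insert]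
        exact Or.inr he
      exact (h3.mono h4).trans (ih.mono h5)
  have hpath : ∀ i j : Fin k, ∃ p : H.Walk (f i) (f j), p.IsPath ∧
      ∀ e ∈ p.edges, e ∈ ((P i j).edges.toFinset.biUnion W) := by
    intro i j
    obtain ⟨p, hp⟩ := hconn _ _ (P i j)
    exact ⟨p.bypass, p.bypass_isPath, fun e he => hp e (p.edges_bypass_subset_edges he)⟩
  choose P' hP'1 hP'2 using hpath
  refine ⟨f, hf, P', fun i j _ => hP'1 i j, ?_, ?_⟩
  · intro i j i' j' hij hij' hne e he he'
    have k1 := hP'2 i j e he
    have k2 := hP'2 i' j' e he'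
    rw [mem_biUnion] at k1 k2
    obtain ⟨e1, m1, n1⟩ := k1
    obtain ⟨e2, m2, n2⟩ := k2
    rw [List.mem_toFinset] at m1 m2
    have g1 := SimpleGraph.Walk.edges_subset_edgeSet _ m1
    have g2 := SimpleGraph.Walk.edges_subset_edgeSet _ m2
    by_cases h12 : e1 = e2
    · subst h12
      exact hP2 i j i' j' hij hij' hne m1 m2
    · have := h2 e1 g1 e2 g2 h12
      exact disjoint_left.1 this ((hW e1 g1).2.1 n1) ((hW e2 g2).2.1 n2)
  · let EF' := EF.filter (fun e => e ∈ F0.edgeSet)
    let Es : Finset (Sym2 V) := EF'.biUnion W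
    let Vs : Finset V := Es.biUnion (fun e => univ.filter (fun v => v ∈ e))
    have hsub : {v : V | (∃ i, f i = v) ∨ ∃ i j, i < j ∧ v ∈ (P' i j).support}
        ⊆ ((univ.image f ∪ Vs : Finset V) : Set V) := by
      rintro v (⟨i, rfl⟩ | ⟨i, j, hij, hv⟩)
      · rw [mem_coe, mem_union]
        exact Or.inl (mem_image.2 ⟨i, mem_univ _, rfl⟩)
      · rw [mem_coe, mem_union]
        rcases mem_support_edges _ hv with rfl | ⟨e, he, hve⟩
        · exact Or.inl (mem_image.2 ⟨i, mem_univ _, rfl⟩)
        · right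
          have k1 := hP'2 i j e he
          rw [mem_biUnion] at k1
          obtain ⟨e1, m1, n1⟩ := k1
          rw [List.mem_toFinset] at m1
          have g1 := SimpleGraph.Walk.edges_subset_edgeSet _ m1
          simp only [Vs, Es, EF', mem_biUnion, mem_filter, mem_univ, true_and]
          exact ⟨e, ⟨e1, ⟨hEF e1 g1, g1⟩, n1⟩, hve⟩
    have hcard : (univ.image f ∪ Vs : Finset V).card ≤ k + 2 * (EF.card * l) := by
      have c1 : (univ.image f).card ≤ k := card_image_le.trans (by simp)
      have c2 : Es.card ≤ EF'.card * l := by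
        apply card_biUnion_le_card_mul
        intro e he
        exact (hW e (mem_filter.1 he).2).1
      have c3 : EF'.card * l ≤ EF.card * l := Nat.mul_le_mul_right _ (card_le_card (filter_subset _ _))
      have c4 : Vs.card ≤ Es.card * 2 := by
        apply card_biUnion_le_card_mul
        intro e _
        induction e using Sym2.ind with
        | _ x y =>
          have : (univ.filter (fun v => v ∈ s(x, y))) ⊆ {x, y} := by
            intro v hv
            simp only [mem_filter, mem_univ, true_and, Sym2.mem_iff] at hv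
            simp [hv]
          exact (card_le_card this).trans card_le_two
      have c5 := card_union_le (univ.image f) Vs
      omega
    calc _ ≤ ((univ.image f ∪ Vs : Finset V) : Set V).ncard :=
          Set.ncard_le_ncard hsub (Set.toFinite _)
      _ = (univ.image f ∪ Vs : Finset V).card := Set.ncard_coe_finset _
      _ ≤ _ := hcard

lemma two_mul_ncard (G : SimpleGraph V) : 2 * G.edgeSet.ncard = inn G univ := by
  classical
  have h := G.two_mul_card_edgeFinset
  rw [← SimpleGraph.coe_edgeFinset, Set.ncard_coe_finset, h]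
  have h2 : (univ.filter fun (x, y) ↦ G.Adj x y) = darts G univ univ := by
    ext p
    rw [mem_filter, mem_darts]
    simp
  rw [h2]
  rfl

end

/-- The set of average degrees forcing an immersion. -/
def immSet (k : ℕ) : Set ℝ :=
  {d : ℝ | ∀ (m : ℕ) (H : SimpleGraph (Fin m)),
    d ≤ 2 * (H.edgeSet.ncard : ℝ) / (m : ℝ) → ImmK H k}

variable {V : Type} [Fintype V] [DecidableEq V]

/-- Using the definition of the immersion threshold on a graph supported on `X0`. -/
lemma immK_of_dense {k : ℕ} (hne : (immSet k).Nonempty) (F0 : SimpleGraph V) (X0 : Finset V)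
    (hX0 : X0.Nonempty) (h : sInf (immSet k) * X0.card < (inn F0 X0 : ℝ)) : ImmK F0 k := by
  classical
  have hpos : (0 : ℝ) < X0.card := by exact_mod_cast card_pos.2 hX0
  have h1 : sInf (immSet k) < (inn F0 X0 : ℝ) / X0.card := by
    rw [lt_div_iff₀ hpos]; exact h
  obtain ⟨d, hd, hdl⟩ := exists_lt_of_csInf_lt hne h1
  let e : Fin X0.card ≃ X0 := X0.equivFin.symm
  let φ : Fin X0.card → V := fun i => (e i : V)
  have hφ : Function.Injective φ := Subtype.val_injective.comp e.injective
  have hφX : ∀ i, φ i ∈ X0 := fun i => (e i).2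
  have hsurj : ∀ v ∈ X0, ∃ i, φ i = v := by
    intro v hv
    exact ⟨e.symm ⟨v, hv⟩, by simp [φ]⟩
  let H' : SimpleGraph (Fin X0.card) := F0.comap φ
  have hcard : inn H' univ = inn F0 X0 := by
    unfold inn
    apply card_bij (fun p _ => (φ p.1, φ p.2))
    · intro p hp
      rw [mem_darts] at hp ⊢
      exact ⟨⟨hφX _, hφX _⟩, hp.2⟩
    · rintro ⟨a, b⟩ _ ⟨c, d⟩ _ h
      simp only [Prod.mk.injEq] at h
      rw [hφ h.1, hφ h.2]
    · rintro ⟨a, b⟩ hp
      rw [mem_darts] at hp
      obtain ⟨i, hi⟩ := hsurj a hp.1.1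
      obtain ⟨j, hj⟩ := hsurj b hp.1.2
      refine ⟨(i, j), ?_, by simp [hi, hj]⟩
      rw [mem_darts]
      refine ⟨⟨mem_univ _, mem_univ _⟩, ?_⟩
      change F0.Adj (φ i) (φ j)
      rw [hi, hj]; exact hp.2
  have h2 : d ≤ 2 * (H'.edgeSet.ncard : ℝ) / (X0.card : ℝ) := by
    have h3 : 2 * (H'.edgeSet.ncard : ℝ) = (inn F0 X0 : ℝ) := by
      rw [← hcard, ← two_mul_ncard]; push_cast; ring
    rw [h3]; exact hdl.le
  have h4 := hd X0.card H' h2
  exact h4.map φ hφ (fun u v h => h)

end Pool.Agent.H21.Imm
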