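import Pool.Agent.H21.Imm.Params

set_option autoImplicit false
set_option linter.unusedSectionVars false

namespace Pool.Agent.H21.Imm

open Finset

variable {V : Type} [Fintype V] [DecidableEq V]

namespace Nums

variable (n : Nums)

lemma Zr_pos : (1 : ℝ) ≤ (n.Z : ℝ) := by exact_mod_cast n.Z_pos

lemma x_ge_one {x : ℝ} (hx : (n.Z : ℝ) ^ 4 ≤ x) : 1 ≤ x :=
  le_trans (one_le_pow₀ n.Zr_pos) hx

lemma Z_le_x {x : ℝ} (hx : (n.Z : ℝ) ^ 4 ≤ x) : (n.Z : ℝ) ≤ x := by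
  refine le_trans ?_ hx
  exact le_self_pow₀ n.Zr_pos (by norm_num)

lemma cast_le_x {x : ℝ} (hx : (n.Z : ℝ) ^ 4 ≤ x) {t : ℕ} (ht : t ≤ n.Z ^ 4) : (t : ℝ) ≤ x :=
  le_trans (by exact_mod_cast ht) hx

lemma cast_le_pow {x : ℝ} (hx : (n.Z : ℝ) ^ 4 ≤ x) {t i : ℕ} (hi : 1 ≤ i) (ht : t ≤ n.Z ^ 4) :
    (t : ℝ) ≤ x ^ i :=
  (n.cast_le_x hx ht).trans (le_self_pow₀ (n.x_ge_one hx) (by omega))

lemma e_eq : n.e = 8 * n.q + 8 := rfl

end Nums

/-- The common context after the hubs have been found. -/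
structure Ctx (n : Nums) (H : SimpleGraph V) (V' : Finset V) (x δ : ℝ) (y : ℕ → V)
    (Z : ℕ → Finset (Sym2 V)) : Prop where
  hub : HubSys H V' n.q y Z n.L n.Qt (x ^ (n.e - 1) / 2)
  hx : (n.Z : ℝ) ^ 4 ≤ x
  hl : (n.DD : ℝ) * x ^ n.e ≤ Real.exp n.l
  hcard : (V'.card : ℝ) ≤ x ^ n.e
  hδ : δ ≤ n.DD
  a2 : ∀ i ≤ 4 * n.q + 4, ∀ X ⊆ V', (X.card : ℝ) ≤ x ^ (n.e - i) →
    (inn H X : ℝ) ≤ (δ - i / (n.e * n.J)) * X.card

lemma Ctx.mono {n : Nums} {H : SimpleGraph V} {V' V'' : Finset V} {x δ : ℝ} {y : ℕ → V}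
    {Z : ℕ → Finset (Sym2 V)} (c : Ctx n H V' x δ y Z) (h : V'' ⊆ V') : Ctx n H V'' x δ y Z where
  hub := ⟨c.hub.disj, fun s hs E' hE' X hX hXc => c.hub.gen s hs E' hE' X (hX.trans h) hXc⟩
  hx := c.hx
  hl := c.hl
  hcard := le_trans (by exact_mod_cast card_le_card h) c.hcard
  hδ := c.hδ
  a2 := fun i hi X hX hXc => c.a2 i hi X (hX.trans h) hXc

lemma Ctx.dens {n : Nums} {H : SimpleGraph V} {V' : Finset V} {x δ : ℝ} {y : ℕ → V}
    {Z : ℕ → Finset (Sym2 V)} (c : Ctx n H V' x δ y Z) (X : Finset V) (hX : X ⊆ V') :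
    (inn H X : ℝ) ≤ δ * X.card := by
  have h := c.a2 0 (Nat.zero_le _) X hX
    (le_trans (by exact_mod_cast card_le_card hX) c.hcard)
  simpa using h

lemma Ctx.dens' {n : Nums} {H : SimpleGraph V} {V' : Finset V} {x δ : ℝ} {y : ℕ → V}
    {Z : ℕ → Finset (Sym2 V)} (c : Ctx n H V' x δ y Z) (X : Finset V) (hX : X ⊆ V') :
    (inn H X : ℝ) ≤ n.DD * X.card :=
  (c.dens X hX).trans (mul_le_mul_of_nonneg_right c.hδ (Nat.cast_nonneg _))

/-- Assembling the routing data. -/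
lemma mkSetup {n : Nums} {H G : SimpleGraph V} {V' : Finset V} {x δ : ℝ} {y : ℕ → V}
    {Z : ℕ → Finset (Sym2 V)} (ctx : Ctx n H V' x δ y Z)
    (hG : ∀ u v, G.Adj u v → (u ∈ V' ∧ v ∈ V') ∧ H.Adj u v ∧ s(u, v) ∉ allZ Z n.q)
    (hexp : ∀ X ⊆ V', (X.card : ℝ) ≤ x ^ (n.e - 1) → 1 / (n.C : ℝ) * X.card ≤ (bd G X : ℝ))
    {P : Finset (Finset V)} (PV : ∀ S ∈ P, S ⊆ V') (Pne : ∀ S ∈ P, S.Nonempty)
    (Pdisj : ∀ S ∈ P, ∀ S' ∈ P, S ≠ S' → Disjoint S S') {a a' r N : ℕ}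
    (hP1 : ∀ X ⊆ V', (X.card : ℝ) ≤ x ^ (4 * n.q + 4) → a * nin P X ≤ bd G X)
    (har : a' + r ≤ a) (ha : a ≤ n.D0) (hN : N ≤ 2 * n.M)
    {inte prt : Finset V → Finset (Sym2 V)} {I0 : ℕ}
    (prtc : ∀ S ∈ P, (prt S).card ≤ r)
    (prti : ∀ S ∈ P, ∀ e ∈ prt S, ∃ v ∈ S, v ∈ e)
    (intc : ∀ S ∈ P, (inte S).card ≤ I0)
    (inti : ∀ S ∈ P, ∀ e ∈ inte S, ∀ v ∈ e, v ∈ S)
    (intG : ∀ S ∈ P, ∀ e ∈ inte S, e ∈ G.edgeSet)
    (prtG : ∀ S ∈ P, ∀ e ∈ prt S, e ∈ G.edgeSet)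
    (hI0 : I0 ≤ n.DD * n.s0) (hPc : P.card = n.NP) :
    Setup H G V' n.q y Z n.L n.Qt (x ^ (n.e - 1)) (x ^ (4 * n.q + 4)) (x ^ (n.e - 1) / 2) n.DD
      (1 / (n.C : ℝ)) P a a' r N inte prt I0 n.T0 n.L n.Qm := by
  have hC : (0 : ℝ) < n.C := by exact_mod_cast n.C_pos
  have hDD : (0 : ℝ) < n.DD := by exact_mod_cast n.hDD
  have hx1 := n.x_ge_one ctx.hx
  have hNP := n.NP_le_Z
  have hNPQ := n.QmC_le_NP
  have hZ1 := n.Z_pos
  have hZZ : n.Z ≤ n.Z ^ 4 := Nat.le_self_pow (by norm_num) _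
  have hWle : a' * (n.T0 + n.L + n.L) ≤ n.D0 * n.W := by
    have : n.T0 + n.L + n.L = n.W := rfl
    rw [this]
    exact Nat.mul_le_mul_right _ (by omega)
  refine ⟨ctx.hub, hG, hDD, by positivity, ?_, hexp, PV, Pne, Pdisj, hP1, har, prtc, prti, intc,
    inti, intG, prtG, ?_, ?_, ?_, ?_, le_rfl, ?_, n.T0_pos, ?_, ?_⟩
  · intro X hX
    refine le_trans ?_ (ctx.dens' X hX)
    exact_mod_cast inn_mono (fun u v h => (hG u v h).2.1) (Subset.refl X)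
  · calc N * (a' * (n.T0 + n.L + n.L) + I0 + r)
        ≤ 2 * n.M * (n.D0 * n.W + n.DD * n.s0 + n.D0) := by
          apply Nat.mul_le_mul hN
          omega
      _ = n.Qm := rfl
  · have h1 : ((4 * n.Qm * n.C : ℕ) : ℝ) ≤ x ^ (n.e - 1) := by
      apply n.cast_le_pow ctx.hx
      · have := n.e_pos; omega
      · have : 4 * n.Qm * n.C = 2 * (2 * (n.Qm * n.C)) := by ring
        omega
    push_cast at h1
    rw [div_div_eq_mul_div, div_one]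
    linarith
  · have h1 : ((2 * n.Qm * n.C + n.NP * (2 * a * n.C) : ℕ) : ℝ) ≤ x ^ (4 * n.q + 4) := by
      apply n.cast_le_pow ctx.hx (by omega)
      have h2 : 2 * n.Qm * n.C ≤ n.NP := by
        have : 2 * n.Qm * n.C = 2 * (n.Qm * n.C) := by ring
        omega
      have h3 : 2 * a * n.C ≤ n.NP := by
        have h4 : a * n.C ≤ n.Qm := (Nat.mul_le_mul_right _ ha).trans n.D0C_le_Qm
        have h5 := n.Qm_le_NP
        have h6 : 2 * a * n.C = 2 * (a * n.C) := by ring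
        omega
      have h4 : n.NP * (2 * a * n.C) ≤ n.NP * n.NP := Nat.mul_le_mul_left _ h3
      have h5 : n.NP ≤ n.Z := by omega
      calc 2 * n.Qm * n.C + n.NP * (2 * a * n.C) ≤ n.NP + n.NP * n.NP := by omega
        _ ≤ n.Z ^ 2 := by nlinarith
        _ ≤ n.Z ^ 4 := Nat.pow_le_pow_right hZ1 (by norm_num)
    push_cast at h1
    rw [div_div_eq_mul_div, div_one, div_div_eq_mul_div, div_one, hPc]
    linarith
  · rw [hPc, div_div_eq_mul_div, div_one]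
    have h1 : N + 4 * n.Qm + 2 * n.Qm * n.C < n.NP := by
      unfold Nums.NP
      omega
    exact_mod_cast h1
  · have h1 : ((a' : ℝ) + r) ≤ n.D0 := by exact_mod_cast har.trans ha
    have h2 : 1 / (n.C : ℝ) / 2 * (n.T0 : ℝ) = n.D0 * n.DD := by
      unfold Nums.T0
      push_cast
      field_simp
    rw [h2]
    exact mul_le_mul_of_nonneg_right h1 hDD.le
  · have h1 := n.pow_L ctx.hl
    have h2 : x ^ (n.e - 1) / 2 ≤ x ^ n.e := by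
      have h3 : x ^ (n.e - 1) ≤ x ^ n.e := pow_le_pow_right₀ hx1 (Nat.sub_le _ _)
      have h4 : 0 ≤ x ^ (n.e - 1) := by positivity
      linarith
    have h3 : (1 + 1 / ((n.DD * n.K : ℕ) : ℝ)) ^ n.L ≤ (1 + 1 / (n.C : ℝ) / 2 / n.DD) ^ n.L := by
      apply pow_le_pow_left₀ (by positivity)
      have h4 : (2 * n.C : ℝ) ≤ n.K := by exact_mod_cast n.two_C_le_K
      have h5 : 1 / (n.C : ℝ) / 2 / n.DD = 1 / (n.DD * (2 * n.C)) := by field_simp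
      rw [h5]
      push_cast
      have h6 : 1 / ((n.DD : ℝ) * n.K) ≤ 1 / (n.DD * (2 * n.C)) := by
        apply one_div_le_one_div_of_le (by positivity)
        exact mul_le_mul_of_nonneg_left h4 hDD.le
      linarith
    have h4 := mul_le_mul_of_nonneg_left h2 hDD.le
    linarith
  · have : n.Qt = n.Qm + n.DD * n.s0 + n.D0 + n.D0 * n.W := rfl
    omega

end Pool.Agent.H21.Imm
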