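import Pool.Agent.H21.Imm.Cluster

set_option autoImplicit false
set_option linter.unusedSectionVars false

namespace Pool.Agent.H21.Imm

open Finset

variable {V : Type} [Fintype V] [DecidableEq V]

/-- Pigeonhole over the types of clusters. -/
lemma pigeon (P1 : Finset (Finset V)) (W : Finset V) (D0 : ℕ) (f g : Finset V → ℕ)
    (h : Finset V → Finset V) (hf : ∀ T ∈ P1, f T ≤ D0) (hg : ∀ T ∈ P1, g T ≤ D0)
    (hh : ∀ T ∈ P1, h T ⊆ W ∧ (h T).card ≤ D0) {n : ℕ}
    (hn : (D0 + 1) ^ 3 * (W.card + 1) ^ D0 * n ≤ P1.card) :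
    ∃ P2 ⊆ P1, n ≤ P2.card ∧ ∃ al be : ℕ, ∃ Ws : Finset V,
      ∀ T ∈ P2, f T = al ∧ g T = be ∧ h T = Ws := by
  classical
  let t : Finset (ℕ × ℕ × Finset V) := range (D0 + 1) ×ˢ (range (D0 + 1) ×ˢ
    ((range (D0 + 1)).biUnion (fun i => powersetCard i W)))
  have h1 : ∀ T ∈ P1, (f T, g T, h T) ∈ t := by
    intro T hT
    simp only [t, mem_product, mem_range, mem_biUnion, mem_powersetCard]
    have h2 := hf T hT
    have h3 := hg T hT
    have h4 := hh T hT
    exact ⟨by omega, by omega, (h T).card, by omega, h4.1, rfl⟩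
  have ht : t.Nonempty := by
    refine ⟨(0, 0, ∅), ?_⟩
    simp only [t, mem_product, mem_range, mem_biUnion, mem_powersetCard]
    exact ⟨by omega, by omega, 0, by omega, empty_subset _, rfl⟩
  have htc : t.card ≤ (D0 + 1) ^ 3 * (W.card + 1) ^ D0 := by
    simp only [t, card_product, card_range]
    have h2 : ((range (D0 + 1)).biUnion (fun i => powersetCard i W)).card
        ≤ (range (D0 + 1)).card * (W.card + 1) ^ D0 := by
      apply card_biUnion_le_card_mul
      intro i hi
      rw [mem_range] at hi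
      rw [card_powersetCard]
      calc W.card.choose i ≤ W.card ^ i := Nat.choose_le_pow _ _
        _ ≤ (W.card + 1) ^ i := Nat.pow_le_pow_left (Nat.le_succ _) _
        _ ≤ (W.card + 1) ^ D0 := Nat.pow_le_pow_right (Nat.succ_pos _) (by omega)
    rw [card_range] at h2
    calc (D0 + 1) * ((D0 + 1) * ((range (D0 + 1)).biUnion (fun i => powersetCard i W)).card)
        ≤ (D0 + 1) * ((D0 + 1) * ((D0 + 1) * (W.card + 1) ^ D0)) := by gcongr
      _ = (D0 + 1) ^ 3 * (W.card + 1) ^ D0 := by ring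
  have hn' : t.card * n ≤ P1.card := (Nat.mul_le_mul_right _ htc).trans hn
  obtain ⟨⟨al, be, Ws⟩, _, hy⟩ := exists_le_card_fiber_of_mul_le_card_of_maps_to h1 ht hn'
  refine ⟨P1.filter (fun T => (f T, g T, h T) = (al, be, Ws)), filter_subset _ _, hy, al, be, Ws, ?_⟩
  intro T hT
  have := (mem_filter.1 hT).2
  simp only [Prod.mk.injEq] at this
  exact this

/-- Greedy selection of pairwise non-conflicting elements. -/
lemma select {α : Type} [DecidableEq α] (conf : α → Finset α) (Kc : ℕ) (hKc : 1 ≤ Kc) :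
    ∀ (N : ℕ) (P : Finset α), (∀ T ∈ P, T ∈ conf T) →
      (∀ T ∈ P, ∀ T' ∈ P, T' ∈ conf T → T ∈ conf T') →
      (∀ T ∈ P, (conf T).card ≤ Kc) → Kc * N ≤ P.card →
      ∃ P' ⊆ P, P'.card = N ∧ ∀ T ∈ P', ∀ T' ∈ P', T ≠ T' → T' ∉ conf T := by
  intro N
  induction N with
  | zero =>
    intro P _ _ _ _
    exact ⟨∅, empty_subset _, rfl, by simp⟩
  | succ N ih =>
    intro P hself hsym hcard hP
    have hpos : 0 < P.card := by
      have : 1 ≤ Kc * (N + 1) := Nat.one_le_iff_ne_zero.2 (by positivity)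
      omega
    obtain ⟨T, hT⟩ := card_pos.1 hpos
    have h1 : Kc * N ≤ (P \ conf T).card := by
      have h2 := le_card_sdiff (conf T) P
      have h3 := hcard T hT
      have h4 : Kc * (N + 1) = Kc * N + Kc := by ring
      omega
    obtain ⟨P', hP', hP'c, hP'd⟩ := ih (P \ conf T)
      (fun T' hT' => hself T' (mem_sdiff.1 hT').1)
      (fun T' hT' T'' hT'' => hsym T' (mem_sdiff.1 hT').1 T'' (mem_sdiff.1 hT'').1)
      (fun T' hT' => hcard T' (mem_sdiff.1 hT').1) h1
    have hTP' : T ∉ P' := fun h => (mem_sdiff.1 (hP' h)).2 (hself T hT)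
    refine ⟨insert T P', ?_, ?_, ?_⟩
    · intro x hx
      rcases mem_insert.1 hx with rfl | hx
      · exact hT
      · exact (mem_sdiff.1 (hP' hx)).1
    · rw [card_insert_of_notMem hTP', hP'c]
    · intro x hx x' hx' hne
      rcases mem_insert.1 hx with h5 | h5
      · rcases mem_insert.1 hx' with h6 | h6
        · exact absurd (h5.trans h6.symm) hne
        · rw [h5]
          exact (mem_sdiff.1 (hP' h6)).2
      · rcases mem_insert.1 hx' with h6 | h6
        · rw [h6]
          intro h7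
          have h8 := (mem_sdiff.1 (hP' h5))
          exact h8.2 (hsym x h8.1 T hT h7)
        · exact hP'd x h5 x' h6 hne

lemma nb_mono_set (G : SimpleGraph V) {U U' A A' : Finset V} (hU : U ⊆ U') (hA : A ⊆ A') (r : ℕ) :
    nb G U A r ⊆ nb G U' A' r := by
  induction r with
  | zero => exact hA
  | succ r ih =>
    intro v hv
    rcases mem_nb_succ.1 hv with h | ⟨h1, u, hu, h2⟩
    · exact mem_nb_succ.2 (Or.inl (ih h))
    · exact mem_nb_succ.2 (Or.inr ⟨hU h1, u, ih hu, h2⟩)

lemma nb_nb (G : SimpleGraph V) (U A : Finset V) (r s : ℕ) :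
    nb G U (nb G U A r) s = nb G U A (r + s) := by
  induction s with
  | zero => rfl
  | succ s ih =>
    ext v
    rw [mem_nb_succ, ih, ← Nat.add_assoc, mem_nb_succ]

lemma nb_symm (G : SimpleGraph V) {U A : Finset V} (hA : A ⊆ U) :
    ∀ (r : ℕ) (x : V), x ∈ nb G U A r → ∃ a ∈ A, a ∈ nb G U {x} r := by
  intro r
  induction r with
  | zero =>
    intro x hx
    exact ⟨x, hx, mem_singleton_self x⟩
  | succ r ih =>
    intro x hx
    rcases mem_nb_succ.1 hx with h | ⟨h1, u, hu, h2⟩
    · obtain ⟨a, ha, hax⟩ := ih x h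
      exact ⟨a, ha, nb_subset_succ _ _ _ _ hax⟩
    · obtain ⟨a, ha, hau⟩ := ih u hu
      refine ⟨a, ha, ?_⟩
      have h3 : nb G U {u} r ⊆ nb G U (nb G U {x} 1) r := by
        apply nb_mono_set G (Subset.refl _)
        rw [singleton_subset_iff]
        exact mem_nb_succ.2 (Or.inr ⟨nb_subset G hA r hu, x, mem_singleton_self x, h2.symm⟩)
      rw [nb_nb, Nat.add_comm] at h3
      exact h3 hau

lemma card_nb_le (G : SimpleGraph V) {U A : Finset V} (hA : A ⊆ U) (D0 : ℕ)
    (hdeg : ∀ v ∈ U, bd G {v} ≤ D0) (r : ℕ) : (nb G U A r).card ≤ A.card * (D0 + 1) ^ r := by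
  classical
  induction r with
  | zero => simp [nb]
  | succ r ih =>
    have h1 : nb G U A (r + 1) ⊆ nb G U A r ∪
        (nb G U A r).biUnion (fun u => U.filter (fun v => G.Adj u v)) := by
      intro v hv
      rcases mem_nb_succ.1 hv with h | ⟨h1, u, hu, h2⟩
      · exact mem_union_left _ h
      · apply mem_union_right
        rw [mem_biUnion]
        exact ⟨u, hu, mem_filter.2 ⟨h1, h2⟩⟩
    have h2 : ∀ u ∈ nb G U A r, (U.filter (fun v => G.Adj u v)).card ≤ D0 := by
      intro u hu
      refine le_trans ?_ (hdeg u (nb_subset G hA r hu))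
      unfold bd
      apply card_le_card_of_injOn (fun v => (u, v))
      · intro v hv
        have hv' := mem_filter.1 (mem_coe.1 hv)
        rw [mem_coe, mem_darts, mem_compl, mem_singleton]
        exact ⟨⟨rfl, fun h => hv'.2.ne' (mem_singleton.1 h)⟩, hv'.2⟩
      · intro v _ v' _ h
        simp only [Prod.mk.injEq, true_and] at h
        exact h
    have h3 := (card_le_card h1).trans (card_union_le _ _)
    have h4 := card_biUnion_le_card_mul (nb G U A r) _ D0 h2
    calc (nb G U A (r + 1)).card ≤ (nb G U A r).card + (nb G U A r).card * D0 := by omega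
      _ = (nb G U A r).card * (D0 + 1) := by ring
      _ ≤ A.card * (D0 + 1) ^ r * (D0 + 1) := Nat.mul_le_mul_right _ ih
      _ = A.card * (D0 + 1) ^ (r + 1) := by ring

/-- Selecting clusters far apart. -/
lemma far_select (G : SimpleGraph V) {U : Finset V} (D0 ρ s : ℕ)
    (hdeg : ∀ v ∈ U, bd G {v} ≤ D0) (P : Finset (Finset V)) (hPU : ∀ T ∈ P, T ⊆ U)
    (hPne : ∀ T ∈ P, T.Nonempty)
    (hdisj : ∀ T ∈ P, ∀ T' ∈ P, T ≠ T' → Disjoint T T') (hs : ∀ T ∈ P, T.card ≤ s) (hs1 : 1 ≤ s)
    {N : ℕ} (hN : s * (D0 + 1) ^ (2 * ρ) * N ≤ P.card) :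
    ∃ P' ⊆ P, P'.card = N ∧
      ∀ T ∈ P', ∀ T' ∈ P', T ≠ T' → Disjoint (nb G U T ρ) (nb G U T' ρ) := by
  classical
  let conf : Finset V → Finset (Finset V) := fun T =>
    P.filter (fun T' => ¬ Disjoint (nb G U T ρ) (nb G U T' ρ))
  have g1 : ∀ T ∈ P, T ∈ conf T := by
    intro T hT
    obtain ⟨v, hv⟩ := hPne T hT
    refine mem_filter.2 ⟨hT, ?_⟩
    rw [not_disjoint_iff]
    exact ⟨v, subset_nb G U T ρ hv, subset_nb G U T ρ hv⟩
  have g2 : ∀ T ∈ P, ∀ T' ∈ P, T' ∈ conf T → T ∈ conf T' := by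
    intro T hT T' _ h
    have h1 := (mem_filter.1 h).2
    refine mem_filter.2 ⟨hT, ?_⟩
    rw [disjoint_comm]
    exact h1
  have g3 : ∀ T ∈ P, (conf T).card ≤ s * (D0 + 1) ^ (2 * ρ) := by
    intro T hT
    have h1 : conf T ⊆ P.filter (fun T' => ¬ Disjoint T' (nb G U T (ρ + ρ))) := by
      intro T' hT'
      rw [mem_filter] at hT' ⊢
      refine ⟨hT'.1, ?_⟩
      obtain ⟨x, hx, hx'⟩ := not_disjoint_iff.1 hT'.2
      obtain ⟨a, ha, hax⟩ := nb_symm G (hPU T' hT'.1) ρ x hx'
      rw [not_disjoint_iff]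
      refine ⟨a, ha, ?_⟩
      rw [← nb_nb]
      exact nb_mono_set G (Subset.refl _) (singleton_subset_iff.2 hx) ρ hax
    refine (card_le_card h1).trans ((card_hit_le P hdisj _).trans ?_)
    refine (card_nb_le G (hPU T hT) D0 hdeg _).trans ?_
    rw [two_mul]
    exact Nat.mul_le_mul_right _ (hs T hT)
  have hKc : 1 ≤ s * (D0 + 1) ^ (2 * ρ) := Nat.one_le_iff_ne_zero.2 (by positivity)
  obtain ⟨P', hP', hc, hd⟩ := select conf _ hKc N P g1 g2 g3 hN
  refine ⟨P', hP', hc, ?_⟩
  intro T hT T' hT' hne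
  by_contra hcon
  exact hd T hT T' hT' hne (mem_filter.2 ⟨hP' hT', hcon⟩)

lemma bd_split {G : SimpleGraph V} {X A : Finset V} (hA : A ⊆ X)
    (h : ∀ u ∈ A, ∀ v ∈ X, G.Adj u v → v ∈ A) : bd G X = bd G A + bd G (X \ A) := by
  unfold bd
  rw [← card_union_of_disjoint]
  · congr 1
    ext p
    simp only [mem_union, mem_darts, mem_compl, mem_sdiff]
    constructor
    · rintro ⟨⟨h1, h2⟩, h3⟩
      by_cases h4 : p.1 ∈ A
      · exact Or.inl ⟨⟨h4, fun h5 => h2 (hA h5)⟩, h3⟩
      · exact Or.inr ⟨⟨⟨h1, h4⟩, fun h5 => h2 h5.1⟩, h3⟩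
    · rintro (⟨⟨h1, h2⟩, h3⟩ | ⟨⟨⟨h1, h4⟩, h2⟩, h3⟩)
      · exact ⟨⟨hA h1, fun h5 => h2 (h _ h1 _ h5 h3)⟩, h3⟩
      · refine ⟨⟨h1, fun h5 => ?_⟩, h3⟩
        have h6 : p.2 ∈ A := by
          by_contra h7
          exact h2 ⟨h5, h7⟩
        exact h4 (h _ h6 _ h1 h3.symm)
  · rw [disjoint_left]
    intro p hp hp'
    rw [mem_darts] at hp hp'
    exact (mem_sdiff.1 hp'.1.1).2 hp.1.1

/-- Far apart tight clusters need many boundary edges. -/
lemma P1_of_far {G : SimpleGraph V} {V' W : Finset V} (P : Finset (Finset V)) (a ρ : ℕ)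
    {c M3 : ℝ} (hc : 0 < c) (hPne : ∀ T ∈ P, T.Nonempty)
    (htight : ∀ T ∈ P, ∀ X ⊆ V', T ⊆ X → (X.card : ℝ) ≤ M3 → a ≤ bd G X)
    (hfar : ∀ T ∈ P, ∀ T' ∈ P, T ≠ T' → Disjoint (nb G (V' \ W) T ρ) (nb G (V' \ W) T' ρ))
    (hexp : ∀ X ⊆ V', (X.card : ℝ) ≤ M3 → c * X.card ≤ (bd G X : ℝ))
    (hcρ : (a : ℝ) ≤ c * ρ)
    (hbig : ∀ X ⊆ V', (X.card : ℝ) ≤ M3 → ¬ Disjoint X W → a * P.card ≤ bd G X) :
    ∀ n : ℕ, ∀ X ⊆ V', X.card ≤ n → (X.card : ℝ) ≤ M3 → a * nin P X ≤ bd G X := by
  classical
  intro n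
  induction n with
  | zero =>
    intro X _ hX0 _
    have hX : X = ∅ := card_eq_zero.1 (by omega)
    have : nin P X = 0 := by
      unfold nin
      rw [card_eq_zero, filter_eq_empty_iff]
      intro T hT h
      rw [hX, subset_empty] at h
      exact not_nonempty_empty (h ▸ hPne T hT)
    rw [this]; simp
  | succ n ih =>
    intro X hX hXn hXM
    by_cases hW : Disjoint X W
    swap
    · refine le_trans ?_ (hbig X hX hXM hW)
      exact Nat.mul_le_mul_left _ (card_le_card (filter_subset _ _))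
    have hXU : X ⊆ V' \ W := by
      intro v hv
      rw [mem_sdiff]
      exact ⟨hX hv, disjoint_left.1 hW hv⟩
    by_cases hcl : ∃ T ∈ P, T ⊆ X ∧ ∃ i ≤ ρ, nb G X T (i + 1) = nb G X T i
    · obtain ⟨T, hT, hTX, i, hi, hnb⟩ := hcl
      set A := nb G X T i with hA
      have hAX : A ⊆ X := nb_subset G hTX i
      have hTA : T ⊆ A := subset_nb G X T i
      have hclosed : ∀ u ∈ A, ∀ v ∈ X, G.Adj u v → v ∈ A := by
        intro u hu v hv huv
        rw [← hnb]
        exact mem_nb_succ.2 (Or.inr ⟨hv, u, hu, huv⟩)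
      rw [bd_split hAX hclosed]
      have h1 : a ≤ bd G A := by
        apply htight T hT A (hAX.trans hX) hTA
        have : (A.card : ℝ) ≤ X.card := by exact_mod_cast card_le_card hAX
        linarith
      have h2 : nin P X ≤ 1 + nin P (X \ A) := by
        have h3 : P.filter (fun S => S ⊆ X) ⊆ insert T (P.filter (fun S => S ⊆ X \ A)) := by
          intro T' hT'
          rw [mem_filter] at hT'
          rw [mem_insert, mem_filter]
          by_cases hTT : T' = T
          · exact Or.inl hTT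
          · right
            refine ⟨hT'.1, ?_⟩
            intro v hv
            rw [mem_sdiff]
            refine ⟨hT'.2 hv, ?_⟩
            intro hvA
            have h4 := hfar T hT T' hT'.1 (Ne.symm hTT)
            rw [disjoint_left] at h4
            apply h4 (a := v)
            · exact nb_mono G _ _ hi (nb_mono_set G hXU (Subset.refl _) i hvA)
            · exact subset_nb G _ _ _ hv
        have h4 := card_le_card h3
        have h5 := card_insert_le T (P.filter (fun S => S ⊆ X \ A))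
        unfold nin
        omega
      have hTpos : 0 < T.card := card_pos.2 (hPne T hT)
      have hApos : 0 < A.card := lt_of_lt_of_le hTpos (card_le_card hTA)
      have h6 : (X \ A).card ≤ n := by
        rw [card_sdiff_of_subset hAX]
        omega
      have h7 : ((X \ A).card : ℝ) ≤ M3 := by
        have : ((X \ A).card : ℝ) ≤ X.card := by exact_mod_cast card_le_card sdiff_subset
        linarith
      have h8 := ih (X \ A) (sdiff_subset.trans hX) h6 h7
      calc a * nin P X ≤ a * (1 + nin P (X \ A)) := Nat.mul_le_mul_left _ h2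
        _ = a + a * nin P (X \ A) := by ring
        _ ≤ bd G A + bd G (X \ A) := by omega
    · push Not at hcl
      -- all balls are large
      have h1 : ∀ T ∈ P, T ⊆ X → ρ ≤ (nb G X T ρ).card := by
        intro T hT hTX
        have h2 : ∀ i ≤ ρ, i ≤ (nb G X T i).card := by
          intro i
          induction i with
          | zero => intro _; exact Nat.zero_le _
          | succ i ih2 =>
            intro hi
            have h3 := ih2 (by omega)
            have h4 := hcl T hT hTX i (by omega)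
            have h5 : nb G X T i ⊂ nb G X T (i + 1) :=
              ssubset_of_subset_of_ne (nb_subset_succ G X T i) (Ne.symm h4)
            have h6 := card_lt_card h5
            omega
        exact h2 ρ le_rfl
      have h2 : ρ * nin P X ≤ X.card := by
        have h3 : ((P.filter (fun S => S ⊆ X)).biUnion (fun T => nb G X T ρ)) ⊆ X := by
          intro v hv
          rw [mem_biUnion] at hv
          obtain ⟨T, hT, hv⟩ := hv
          exact nb_subset G (mem_filter.1 hT).2 ρ hv
        have h4 := card_le_card h3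
        rw [card_biUnion] at h4
        · refine le_trans ?_ h4
          have h5 : (P.filter (fun S => S ⊆ X)).card • ρ ≤
              ∑ T ∈ P.filter (fun S => S ⊆ X), (nb G X T ρ).card := by
            apply card_nsmul_le_sum
            intro T hT
            rw [mem_filter] at hT
            exact h1 T hT.1 hT.2
          rw [smul_eq_mul] at h5
          unfold nin
          rw [Nat.mul_comm]
          exact h5
        · intro T hT T' hT' hne
          have hT1 := mem_filter.1 hT
          have hT1' := mem_filter.1 hT'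
          have h5 := hfar T hT1.1 T' hT1'.1 hne
          change Disjoint (nb G X T ρ) (nb G X T' ρ)
          exact disjoint_of_subset_left (nb_mono_set G hXU (Subset.refl _) ρ)
            (disjoint_of_subset_right (nb_mono_set G hXU (Subset.refl _) ρ) h5)
      have h3 := hexp X hX hXM
      have h4 : (ρ : ℝ) * nin P X ≤ X.card := by exact_mod_cast h2
      have h5 : (0 : ℝ) ≤ nin P X := Nat.cast_nonneg _
      have h6 : (a : ℝ) * nin P X ≤ (bd G X : ℝ) := by
        calc (a : ℝ) * nin P X ≤ c * ρ * nin P X := mul_le_mul_of_nonneg_right hcρ h5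
          _ = c * (ρ * nin P X) := by ring
          _ ≤ c * X.card := mul_le_mul_of_nonneg_left h4 hc.le
          _ ≤ _ := h3
      exact_mod_cast h6

end Pool.Agent.H21.Imm
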