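import Pool.Agent.H21.Imm.Compose

set_option autoImplicit false
set_option linter.unusedSectionVars false

namespace Pool.Agent.H21.Imm

open Finset

variable {V : Type} [Fintype V] [DecidableEq V]

/-- Tree paths towards the root. -/
lemma rooted_conn {G : SimpleGraph V} {B : Finset V} {y : V} {par : V → V} {dep : V → ℕ} {T : ℕ}
    (hR : Rooted G B y par dep T) :
    ∀ d, ∀ v ∈ B, dep v = d → Conn G v y ((B.erase y).image (fun v => s(v, par v))) := by
  intro d
  induction d with
  | zero =>
    intro v hv hd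
    have hvy : v = y := by
      by_contra h
      have := hR.dep_par v hv h
      omega
    rw [hvy]; exact Conn.refl _ _ _
  | succ d ih =>
    intro v hv hd
    by_cases hvy : v = y
    · rw [hvy]; exact Conn.refl _ _ _
    · have h1 := hR.dep_par v hv hvy
      have h2 := ih (par v) (hR.par_mem v hv hvy) (by omega)
      refine Conn.trans (Conn.single (hR.adj v hv hvy) ?_) h2
      exact mem_image.2 ⟨v, mem_erase.2 ⟨hvy, hv⟩, rfl⟩

lemma exists_pow_gt (D : ℝ) (x : ℝ) (hx : 0 < x) : ∃ T : ℕ, D < 2 * (1 + x) ^ T := by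
  obtain ⟨T, hT⟩ := pow_unbounded_of_one_lt D (show (1 : ℝ) < 1 + x by linarith)
  refine ⟨T, ?_⟩
  have : (0 : ℝ) < (1 + x) ^ T := by positivity
  linarith

/-- Nested edge-disjoint connected subgraphs. -/
lemma nested (c : ℕ) : ∀ (N : ℕ) (H : SimpleGraph V) (X : Finset V), X.Nonempty →
    ((3 * N + c : ℕ) : ℝ) * X.card ≤ (inn H X : ℝ) →
    ∃ Y ⊆ X, c ≤ Y.card ∧ ∃ E : ℕ → Finset (Sym2 V),
      (∀ i < N, ∀ j < N, i ≠ j → Disjoint (E i) (E j)) ∧
      (∀ i < N, ∀ e ∈ E i, e ∈ H.edgeSet) ∧
      (∀ i < N, ∀ u ∈ Y, ∀ v ∈ Y, Conn H u v (E i)) := by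
  intro N
  induction N with
  | zero =>
    intro H X hX h
    refine ⟨X, Subset.refl _, ?_, fun _ => ∅, ?_, ?_, ?_⟩
    · have h1 := inn_le_sq H X
      have h2 : (0 : ℝ) < X.card := by exact_mod_cast card_pos.2 hX
      have h3 : (inn H X : ℝ) ≤ X.card * X.card := by exact_mod_cast h1
      have h4 : ((3 * 0 + c : ℕ) : ℝ) * X.card ≤ X.card * X.card := h.trans h3
      have h5 := le_of_mul_le_mul_right h4 h2
      have h6 : 3 * 0 + c ≤ X.card := by exact_mod_cast h5
      omega
    all_goals intro i hi; omega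
  | succ N ih =>
    intro H X hX h
    set ρ : ℝ := ((3 * (N + 1) + c : ℕ) : ℝ) with hρ
    obtain ⟨V1, hV1, hV1ne, _, hcrit⟩ := exists_critical H (fun _ => ρ) hX
      (by rw [sum_const, nsmul_eq_mul, mul_comm]; exact h)
    have hcrit' : ∀ X ⊆ V1, ρ * X.card ≤ (inn H X : ℝ) + 2 * (bd (res H V1) X : ℝ) := by
      intro X hX
      have := hcrit X hX
      rw [sum_const, nsmul_eq_mul, mul_comm] at this
      exact this
    set D : ℝ := (Fintype.card V : ℝ) + 1 with hD
    have hD0 : 0 < D := by positivity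
    have hdens : ∀ X ⊆ V1, (inn H X : ℝ) ≤ D * X.card := by
      intro X _
      have h1 : (inn H X : ℝ) ≤ X.card * X.card := by exact_mod_cast inn_le_sq H X
      have h2 : (X.card : ℝ) ≤ Fintype.card V := by exact_mod_cast card_le_univ X
      have h3 : (0 : ℝ) ≤ X.card := Nat.cast_nonneg _
      nlinarith
    obtain ⟨T, hT⟩ := exists_pow_gt (D * V1.card) (1 / D) (by positivity)
    obtain ⟨B, hB, y, par, dep, hR, hBd⟩ := carve H one_pos hD0 hcrit' hdens hT hV1ne
    set E0 : Finset (Sym2 V) := (B.erase y).image (fun v => s(v, par v)) with hE0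
    have hE0c : E0.card ≤ B.card := card_image_le.trans (card_le_card (erase_subset _ _))
    have h1 : (inn H B : ℝ) ≤ inn (del H E0) B + 2 * E0.card := by
      exact_mod_cast inn_le_del H E0 B
    have h2 : ((3 * N + c : ℕ) : ℝ) * B.card ≤ (inn (del H E0) B : ℝ) := by
      have h3 : (E0.card : ℝ) ≤ B.card := by exact_mod_cast hE0c
      have h4 : (ρ - 1) = ((3 * N + c : ℕ) : ℝ) + 2 := by
        rw [hρ]; push_cast; ring
      rw [h4] at hBd
      nlinarith
    obtain ⟨Y, hY, hYc, E, g1, g2, g3⟩ := ih (del H E0) B ⟨y, hR.mem⟩ h2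
    let E' : ℕ → Finset (Sym2 V) := fun i => if i = N then E0 else E i
    have hE'N : E' N = E0 := by simp [E']
    have hE'i : ∀ i, i < N → E' i = E i := by intro i hi; simp [E', hi.ne]
    refine ⟨Y, hY.trans (hB.trans hV1), hYc, E', ?_, ?_, ?_⟩
    · intro i hi j hj hij
      rcases Nat.lt_succ_iff_lt_or_eq.1 hi with h | h
      · rcases Nat.lt_succ_iff_lt_or_eq.1 hj with h' | h'
        · rw [hE'i i h, hE'i j h']; exact g1 i h j h' hij
        · subst h'
          rw [hE'i i h, hE'N, disjoint_left]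
          intro e he he'
          have := g2 i h e he
          induction e using Sym2.ind with
          | _ u v => exact this.2 he'
      · subst h
        have h' : j < i := by omega
        rw [hE'i j h', hE'N, disjoint_left]
        intro e he he'
        have := g2 j h' e he'
        induction e using Sym2.ind with
        | _ u v => exact this.2 he
    · intro i hi e he
      rcases Nat.lt_succ_iff_lt_or_eq.1 hi with h | h
      · rw [hE'i i h] at he
        have := g2 i h e he
        induction e using Sym2.ind with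
        | _ u v => exact this.1
      · rw [h, hE'N, hE0, mem_image] at he
        obtain ⟨v, hv, rfl⟩ := he
        rw [mem_erase] at hv
        exact hR.adj v hv.2 hv.1
    · intro i hi u hu v hv
      rcases Nat.lt_succ_iff_lt_or_eq.1 hi with h | h
      · rw [hE'i i h]
        obtain ⟨p, hp⟩ := g3 i h u hu v hv
        refine ⟨p.mapLe (del_le H E0), fun e he => ?_⟩
        rw [edges_mapLe] at he
        exact hp e he
      · rw [h, hE'N]
        exact (rooted_conn hR _ u (hY hu) rfl).trans (rooted_conn hR _ v (hY hv) rfl).symm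

/-- The immersion threshold is finite. -/
lemma immSet_nonempty (k : ℕ) : (immSet k).Nonempty := by
  classical
  rcases Nat.eq_zero_or_pos k with hk | hk
  · subst hk
    refine ⟨0, fun m H _ => ⟨Fin.elim0, fun i => i.elim0, fun i => i.elim0, fun i => i.elim0,
      fun i => i.elim0⟩⟩
  refine ⟨((3 * (k * k) + k : ℕ) : ℝ), fun m H hd => ?_⟩
  have hpos : (0 : ℝ) < ((3 * (k * k) + k : ℕ) : ℝ) := by
    have : 0 < 3 * (k * k) + k := by omega
    exact_mod_cast this
  have hm : 0 < m := by
    rcases Nat.eq_zero_or_pos m with h | h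
    · subst h
      simp only [Nat.cast_zero, div_zero] at hd
      linarith
    · exact h
  have hmr : (0 : ℝ) < m := by exact_mod_cast hm
  have h1 : ((3 * (k * k) + k : ℕ) : ℝ) * (univ : Finset (Fin m)).card ≤ (inn H univ : ℝ) := by
    rw [← two_mul_ncard, card_univ, Fintype.card_fin]
    rw [le_div_iff₀ hmr] at hd
    push_cast at hd ⊢
    exact hd
  obtain ⟨Y, _, hYc, E, g1, _, g3⟩ := nested k (k * k) H univ
    ⟨⟨0, hm⟩, mem_univ _⟩ h1
  -- choose the branch vertices
  obtain ⟨Y', hY', hY'c⟩ := exists_subset_card_eq hYc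
  let f : Fin k → Fin m := fun i => (Y'.orderEmbOfFin hY'c i)
  have hf : Function.Injective f := (Y'.orderEmbOfFin hY'c).injective
  have hfY : ∀ i, f i ∈ Y := fun i => hY' (Y'.orderEmbOfFin_mem hY'c i)
  have hidx : ∀ i j : Fin k, (i : ℕ) * k + j < k * k := by
    intro i j
    have h2 := i.2
    have h3 := j.2
    nlinarith
  have hpath : ∀ i j : Fin k, ∃ p : H.Walk (f i) (f j), p.IsPath ∧
      ∀ e ∈ p.edges, e ∈ E ((i : ℕ) * k + j) := by
    intro i j
    obtain ⟨p, hp⟩ := g3 _ (hidx i j) (f i) (hfY i) (f j) (hfY j)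
    exact ⟨p.bypass, p.bypass_isPath, fun e he => hp e (p.edges_bypass_subset_edges he)⟩
  choose P hP1 hP2 using hpath
  refine ⟨f, hf, P, fun i j _ => hP1 i j, ?_⟩
  intro i j i' j' _ _ hne e he he'
  have hne' : (i : ℕ) * k + j ≠ (i' : ℕ) * k + j' := by
    intro h
    have h2 := i.2
    have h3 := j.2
    have h4 := i'.2
    have h5 := j'.2
    have hi : (i : ℕ) = i' := by
      have e1 : ((i : ℕ) * k + j) / k = i := by
        rw [Nat.mul_comm, Nat.mul_add_div hk, Nat.div_eq_of_lt h3]; rfl
      have e2 : ((i' : ℕ) * k + j') / k = i' := by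
        rw [Nat.mul_comm, Nat.mul_add_div hk, Nat.div_eq_of_lt h5]; rfl
      rw [← e1, ← e2, h]
    have hj : (j : ℕ) = j' := by
      rw [hi] at h; omega
    rcases hne with h6 | h6
    · exact h6 (Fin.ext hi)
    · exact h6 (Fin.ext hj)
  exact disjoint_left.1 (g1 _ (hidx i j) _ (hidx i' j') hne') (hP2 i j e he) (hP2 i' j' e he')

end Pool.Agent.H21.Imm
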