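import Pool.Agent.H21.Imm.Hubs

set_option autoImplicit false
set_option linter.unusedSectionVars false

namespace Pool.Agent.H21.Imm

open Finset

variable {V : Type} [Fintype V] [DecidableEq V]

/-- `a` and `b` are joined by a walk with edges in `E`. -/
def Conn (H : SimpleGraph V) (a b : V) (E : Finset (Sym2 V)) : Prop :=
  ∃ p : H.Walk a b, ∀ e ∈ p.edges, e ∈ E

lemma Conn.refl (H : SimpleGraph V) (a : V) (E : Finset (Sym2 V)) : Conn H a a E :=
  ⟨SimpleGraph.Walk.nil, by simp⟩

lemma Conn.mono {H : SimpleGraph V} {a b : V} {E E' : Finset (Sym2 V)} (h : Conn H a b E)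
    (hE : E ⊆ E') : Conn H a b E' := by
  obtain ⟨p, hp⟩ := h
  exact ⟨p, fun e he => hE (hp e he)⟩

lemma Conn.symm {H : SimpleGraph V} {a b : V} {E : Finset (Sym2 V)} (h : Conn H a b E) :
    Conn H b a E := by
  obtain ⟨p, hp⟩ := h
  refine ⟨p.reverse, fun e he => hp e ?_⟩
  rw [SimpleGraph.Walk.edges_reverse, List.mem_reverse] at he
  exact he

lemma Conn.trans {H : SimpleGraph V} {a b c : V} {E : Finset (Sym2 V)} (h : Conn H a b E)
    (h' : Conn H b c E) : Conn H a c E := by
  obtain ⟨p, hp⟩ := h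
  obtain ⟨p', hp'⟩ := h'
  refine ⟨p.append p', fun e he => ?_⟩
  rw [SimpleGraph.Walk.edges_append, List.mem_append] at he
  rcases he with he | he
  · exact hp e he
  · exact hp' e he

lemma Conn.single {H : SimpleGraph V} {a b : V} {E : Finset (Sym2 V)} (h : H.Adj a b)
    (he : s(a, b) ∈ E) : Conn H a b E :=
  ⟨SimpleGraph.Walk.cons h SimpleGraph.Walk.nil, by simpa using he⟩

/-- Net outflow of a set of darts at a vertex. -/
def net (F : Finset (V × V)) (v : V) : ℤ :=
  ((F.filter (fun p => p.1 = v)).card : ℤ) - ((F.filter (fun p => p.2 = v)).card : ℤ)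

lemma net_insert {F : Finset (V × V)} {u w : V} (h : (u, w) ∉ F) (v : V) :
    net (insert (u, w) F) v = net F v + (if v = u then 1 else 0) - (if v = w then 1 else 0) := by
  unfold net
  have h1 : ((insert (u, w) F).filter (fun p => p.1 = v)).card
      = (F.filter (fun p => p.1 = v)).card + (if v = u then 1 else 0) := by
    rw [filter_insert]
    by_cases hv : v = u
    · subst hv
      simp only [if_true]
      rw [card_insert_of_notMem (fun h' => h (mem_filter.1 h').1)]
    · rw [if_neg (fun h' => hv h'.symm), if_neg hv]; rfl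
  have h2 : ((insert (u, w) F).filter (fun p => p.2 = v)).card
      = (F.filter (fun p => p.2 = v)).card + (if v = w then 1 else 0) := by
    rw [filter_insert]
    by_cases hv : v = w
    · subst hv
      simp only [if_true]
      rw [card_insert_of_notMem (fun h' => h (mem_filter.1 h').1)]
    · rw [if_neg (fun h' => hv h'.symm), if_neg hv]; rfl
  rw [h1, h2]
  push_cast
  ring

lemma net_erase {F : Finset (V × V)} {u w : V} (h : (u, w) ∈ F) (v : V) :
    net (F.erase (u, w)) v = net F v - (if v = u then 1 else 0) + (if v = w then 1 else 0) := by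
  have h1 := net_insert (F := F.erase (u, w)) (u := u) (w := w) (notMem_erase _ _) v
  rw [insert_erase h] at h1
  rw [h1]; ring

lemma sum_net (F : Finset (V × V)) (A : Finset V) :
    ∑ v ∈ A, net F v = ((F.filter (fun p => p.1 ∈ A ∧ p.2 ∉ A)).card : ℤ)
      - ((F.filter (fun p => p.1 ∉ A ∧ p.2 ∈ A)).card : ℤ) := by
  unfold net
  rw [sum_sub_distrib]
  have h1 : ∑ v ∈ A, ((F.filter (fun p => p.1 = v)).card : ℤ)
      = ((F.filter (fun p => p.1 ∈ A)).card : ℤ) := by
    rw [← Nat.cast_sum]
    congr 1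
    rw [← card_biUnion]
    · congr 1
      ext p
      simp only [mem_biUnion, mem_filter]
      constructor
      · rintro ⟨v, hv, hp, rfl⟩; exact ⟨hp, hv⟩
      · rintro ⟨hp, hv⟩; exact ⟨_, hv, hp, rfl⟩
    · intro u _ v _ huv
      change Disjoint (F.filter (fun p => p.1 = u)) (F.filter (fun p => p.1 = v))
      rw [disjoint_left]
      intro p hp hp'
      exact huv ((mem_filter.1 hp).2.symm.trans (mem_filter.1 hp').2)
  have h2 : ∑ v ∈ A, ((F.filter (fun p => p.2 = v)).card : ℤ)
      = ((F.filter (fun p => p.2 ∈ A)).card : ℤ) := by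
    rw [← Nat.cast_sum]
    congr 1
    rw [← card_biUnion]
    · congr 1
      ext p
      simp only [mem_biUnion, mem_filter]
      constructor
      · rintro ⟨v, hv, hp, rfl⟩; exact ⟨hp, hv⟩
      · rintro ⟨hp, hv⟩; exact ⟨_, hv, hp, rfl⟩
    · intro u _ v _ huv
      change Disjoint (F.filter (fun p => p.2 = u)) (F.filter (fun p => p.2 = v))
      rw [disjoint_left]
      intro p hp hp'
      exact huv ((mem_filter.1 hp).2.symm.trans (mem_filter.1 hp').2)
  rw [h1, h2]
  have h3 : (F.filter (fun p => p.1 ∈ A)).card = (F.filter (fun p => p.1 ∈ A ∧ p.2 ∉ A)).card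
      + (F.filter (fun p => p.1 ∈ A ∧ p.2 ∈ A)).card := by
    rw [← card_union_of_disjoint]
    · congr 1
      ext p
      simp only [mem_filter, mem_union]
      tauto
    · rw [disjoint_left]
      intro p hp hp'
      rw [mem_filter] at hp hp'
      exact hp.2.2 hp'.2.2
  have h4 : (F.filter (fun p => p.2 ∈ A)).card = (F.filter (fun p => p.1 ∉ A ∧ p.2 ∈ A)).card
      + (F.filter (fun p => p.1 ∈ A ∧ p.2 ∈ A)).card := by
    rw [← card_union_of_disjoint]
    · congr 1
      ext p
      simp only [mem_filter, mem_union]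
      tauto
    · rw [disjoint_left]
      intro p hp hp'
      rw [mem_filter] at hp hp'
      exact hp.2.1 hp'.2.1
  rw [h3, h4]
  push_cast
  ring

/-- `A` is a set of vertices to which the flow `F` out of `S` can be augmented at cost `t`. -/
def Aug (Ok : V → V → Prop) (S : Finset V) (F : Finset (V × V)) (A : Finset V) (t : ℕ) : Prop :=
  S ⊆ A ∧ ∀ v ∈ A, ∃ F' : Finset (V × V), F'.card ≤ F.card + t ∧
    (∀ p ∈ F', p ∉ F → Ok p.1 p.2) ∧
    (∀ p ∈ F', (p.2, p.1) ∉ F') ∧
    (∀ x, x ∉ S → net F' x = net F x - (if x = v then 1 else 0)) ∧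
    (∀ p : V × V, (p.1 ∉ A ∨ p.2 ∉ A) → (p ∈ F' ↔ p ∈ F))

lemma aug_base {Ok : V → V → Prop} {S : Finset V} {F : Finset (V × V)}
    (hF : ∀ p ∈ F, (p.2, p.1) ∉ F) : Aug Ok S F S 0 := by
  refine ⟨Subset.refl _, ?_⟩
  intro v hv
  refine ⟨F, le_rfl, fun p hp hp' => absurd hp hp', hF, ?_, fun _ _ => Iff.rfl⟩
  intro x hx
  have hne : x ≠ v := by
    intro h
    rw [h] at hx
    exact hx hv
  rw [if_neg hne]
  ring

lemma aug_mono {Ok : V → V → Prop} {S : Finset V} {F : Finset (V × V)} {A : Finset V} {t t' : ℕ}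
    (h : Aug Ok S F A t) (ht : t ≤ t') : Aug Ok S F A t' := by
  refine ⟨h.1, ?_⟩
  intro v hv
  obtain ⟨F', h1, h2, h3, h4, h5⟩ := h.2 v hv
  exact ⟨F', by omega, h2, h3, h4, h5⟩

lemma aug_back {Ok : V → V → Prop} {S : Finset V} {F : Finset (V × V)} {A : Finset V} {t : ℕ}
    (h : Aug Ok S F A t) {u v : V} (hu : u ∈ A) (hv : (v, u) ∈ F) :
    Aug Ok S F (insert v A) t := by
  by_cases hvA : v ∈ A
  · rw [insert_eq_of_mem hvA]; exact h
  refine ⟨h.1.trans (subset_insert _ _), ?_⟩
  intro x hx
  rcases mem_insert.1 hx with rfl | hxA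
  · obtain ⟨F', h1, h2, h3, h4, h5⟩ := h.2 u hu
    have hmem : (x, u) ∈ F' := (h5 (x, u) (Or.inl hvA)).2 hv
    refine ⟨F'.erase (x, u), ?_, ?_, ?_, ?_, ?_⟩
    · have := card_erase_le (s := F') (a := (x, u))
      omega
    · intro p hp hpF
      exact h2 p (mem_of_mem_erase hp) hpF
    · intro p hp hp'
      exact h3 p (mem_of_mem_erase hp) (mem_of_mem_erase hp')
    · intro z hz
      rw [net_erase hmem, h4 z hz]
      ring
    · intro p hp
      have hne : p ≠ (x, u) := by
        rintro rfl
        rcases hp with hp | hp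
        · exact hp (mem_insert_self _ _)
        · exact hp (mem_insert_of_mem hu)
      rw [mem_erase]
      have hp' : p.1 ∉ A ∨ p.2 ∉ A := by
        rcases hp with hp | hp
        · exact Or.inl (fun h' => hp (mem_insert_of_mem h'))
        · exact Or.inr (fun h' => hp (mem_insert_of_mem h'))
      constructor
      · rintro ⟨_, h'⟩; exact (h5 p hp').1 h'
      · intro h'; exact ⟨hne, (h5 p hp').2 h'⟩
  · obtain ⟨F', h1, h2, h3, h4, h5⟩ := h.2 x hxA
    refine ⟨F', h1, h2, h3, h4, ?_⟩
    intro p hp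
    apply h5
    rcases hp with hp | hp
    · exact Or.inl (fun h' => hp (mem_insert_of_mem h'))
    · exact Or.inr (fun h' => hp (mem_insert_of_mem h'))

lemma aug_fwd_set {Ok : V → V → Prop} {S : Finset V} {F : Finset (V × V)} {A : Finset V} {t : ℕ}
    (h : Aug Ok S F A t) (N : Finset V)
    (hN : ∀ v ∈ N, v ∈ A ∨ ∃ u ∈ A, Ok u v ∧ (u, v) ∉ F ∧ (v, u) ∉ F) :
    Aug Ok S F (A ∪ N) (t + 1) := by
  refine ⟨h.1.trans subset_union_left, ?_⟩
  intro v hv
  have hout : ∀ p : V × V, (p.1 ∉ A ∪ N ∨ p.2 ∉ A ∪ N) → (p.1 ∉ A ∨ p.2 ∉ A) := by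
    intro p hp
    rcases hp with hp | hp
    · exact Or.inl (fun h' => hp (mem_union_left _ h'))
    · exact Or.inr (fun h' => hp (mem_union_left _ h'))
  by_cases hvA : v ∈ A
  · obtain ⟨F', h1, h2, h3, h4, h5⟩ := h.2 v hvA
    exact ⟨F', by omega, h2, h3, h4, fun p hp => h5 p (hout p hp)⟩
  · have hvN : v ∈ N := by
      rcases mem_union.1 hv with h' | h'
      · exact absurd h' hvA
      · exact h'
    rcases hN v hvN with h' | ⟨u, hu, hok, hf1, hf2⟩
    · exact absurd h' hvA
    obtain ⟨F', h1, h2, h3, h4, h5⟩ := h.2 u hu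
    have hn1 : (u, v) ∉ F' := fun h' => hf1 ((h5 (u, v) (Or.inr hvA)).1 h')
    have hn2 : (v, u) ∉ F' := fun h' => hf2 ((h5 (v, u) (Or.inl hvA)).1 h')
    have huv : u ≠ v := fun h' => hvA (h' ▸ hu)
    refine ⟨insert (u, v) F', ?_, ?_, ?_, ?_, ?_⟩
    · rw [card_insert_of_notMem hn1]; omega
    · intro p hp hpF
      rcases mem_insert.1 hp with rfl | hp
      · exact hok
      · exact h2 p hp hpF
    · intro p hp hp'
      rcases mem_insert.1 hp with h6 | h6
      · rw [h6] at hp'
        rcases mem_insert.1 hp' with h7 | h7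
        · simp only [Prod.mk.injEq] at h7
          exact huv h7.2
        · exact hn2 h7
      · rcases mem_insert.1 hp' with h7 | h7
        · have : p = (v, u) := by
            simp only [Prod.mk.injEq] at h7
            ext
            · exact h7.2
            · exact h7.1
          rw [this] at h6
          exact hn2 h6
        · exact h3 p h6 h7
    · intro x hx
      rw [net_insert hn1, h4 x hx]
      ring
    · intro p hp
      have hne : p ≠ (u, v) := by
        rintro rfl
        rcases hp with hp | hp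
        · exact hp (mem_union_left _ hu)
        · exact hp hv
      rw [mem_insert]
      constructor
      · rintro (h' | h')
        · exact absurd h' hne
        · exact (h5 p (hout p hp)).1 h'
      · intro h'; exact Or.inr ((h5 p (hout p hp)).2 h')

lemma aug_close {Ok : V → V → Prop} {S : Finset V} {F : Finset (V × V)} {A : Finset V} {t : ℕ}
    (h : Aug Ok S F A t) :
    ∃ A', A ⊆ A' ∧ Aug Ok S F A' t ∧ ∀ u ∈ A', ∀ v, (v, u) ∈ F → v ∈ A' := by
  classical
  let C : Finset (Finset V) := univ.filter (fun A' => A ⊆ A' ∧ Aug Ok S F A' t)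
  have hC : C.Nonempty := ⟨A, by simp only [C, mem_filter, mem_univ, true_and]; exact ⟨Subset.refl _, h⟩⟩
  obtain ⟨A', hA', hmax⟩ := exists_max_image C Finset.card hC
  simp only [C, mem_filter, mem_univ, true_and] at hA' hmax
  refine ⟨A', hA'.1, hA'.2, ?_⟩
  intro u hu v hv
  by_contra hvA
  have h1 := aug_back hA'.2 hu hv
  have h2 := hmax (insert v A') ⟨hA'.1.trans (subset_insert _ _), h1⟩
  rw [card_insert_of_notMem hvA] at h2
  omega

lemma aug_walk {H : SimpleGraph V} {Ok : V → V → Prop} {S : Finset V} {F : Finset (V × V)}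
    {z w : V} (p : H.Walk z w)
    (hok : ∀ u v, H.Adj u v → s(u, v) ∈ p.edges → Ok u v ∧ (u, v) ∉ F ∧ (v, u) ∉ F) :
    ∀ {A : Finset V} {t : ℕ}, Aug Ok S F A t → z ∈ A →
      ∃ A', A ⊆ A' ∧ Aug Ok S F A' (t + p.length) ∧ w ∈ A' := by
  induction p with
  | nil =>
    intro A t h hz
    exact ⟨A, Subset.refl _, by simpa using h, hz⟩
  | @cons a b c hab p ih =>
    intro A t h hz
    have h1 := hok a b hab (by simp)
    have hN : ∀ v ∈ ({b} : Finset V), v ∈ A ∨ ∃ u ∈ A, Ok u v ∧ (u, v) ∉ F ∧ (v, u) ∉ F := by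
      intro v hv
      rw [mem_singleton] at hv
      subst hv
      exact Or.inr ⟨a, hz, h1⟩
    have h2 := aug_fwd_set h {b} hN
    obtain ⟨A', h3, h4, h5⟩ := ih (fun u v huv he => hok u v huv (by
      rw [SimpleGraph.Walk.edges_cons]; exact List.mem_cons_of_mem _ he)) h2
      (mem_union_right _ (mem_singleton_self b))
    refine ⟨A', subset_union_left.trans h3, ?_, h5⟩
    rw [SimpleGraph.Walk.length_cons]
    have : t + (p.length + 1) = t + 1 + p.length := by ring
    rw [this]; exact h4

/-- The flow out of a closed set is at most the number of sinks. -/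
lemma out_le {S : Finset V} {F : Finset (V × V)} {A : Finset V} (hSA : S ⊆ A) (J : Finset ℕ)
    (w : ℕ → V)
    (hfl : ∀ x, x ∉ S → net F x = - ((J.filter (fun j => w j = x)).card : ℤ))
    (hcl : ∀ u ∈ A, ∀ v, (v, u) ∈ F → v ∈ A) :
    (F.filter (fun p => p.1 ∈ A ∧ p.2 ∉ A)).card ≤ J.card := by
  have h1 := sum_net F A
  have h2 : F.filter (fun p => p.1 ∉ A ∧ p.2 ∈ A) = ∅ := by
    rw [filter_eq_empty_iff]
    rintro ⟨a, b⟩ hp ⟨h3, h4⟩
    exact h3 (hcl b h4 a hp)
  rw [h2, card_empty] at h1
  have h3 : ∑ v, net F v = 0 := by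
    rw [sum_net F univ]
    simp
  have h4 : ∑ v ∈ A, net F v = - ∑ v ∈ Aᶜ, net F v := by
    have := sum_add_sum_compl A (fun v => net F v)
    linarith
  have h5 : ∑ v ∈ Aᶜ, net F v = - ∑ v ∈ Aᶜ, ((J.filter (fun j => w j = v)).card : ℤ) := by
    rw [← sum_neg_distrib]
    apply sum_congr rfl
    intro x hx
    exact hfl x (fun h => (mem_compl.1 hx) (hSA h))
  have h6 : ∑ v ∈ Aᶜ, (J.filter (fun j => w j = v)).card ≤ J.card := by
    rw [← card_biUnion]
    · apply card_le_card
      intro j hj
      rw [mem_biUnion] at hj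
      obtain ⟨_, _, hj⟩ := hj
      exact (mem_filter.1 hj).1
    · intro u _ v _ huv
      change Disjoint (J.filter (fun j => w j = u)) (J.filter (fun j => w j = v))
      rw [disjoint_left]
      intro p hp hp'
      exact huv ((mem_filter.1 hp).2.symm.trans (mem_filter.1 hp').2)
  have h7 : (∑ v ∈ Aᶜ, ((J.filter (fun j => w j = v)).card : ℤ)) ≤ J.card := by exact_mod_cast h6
  have h8 : ((F.filter (fun p => p.1 ∈ A ∧ p.2 ∉ A)).card : ℤ) ≤ J.card := by
    have : (((F.filter (fun p => p.1 ∈ A ∧ p.2 ∉ A)).card : ℤ)) = ∑ v ∈ A, net F v := by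
      rw [h1]; simp
    rw [this, h4, h5]
    linarith
  exact_mod_cast h8

/-- Decomposing a flow into edge-disjoint walks. -/
lemma decompose (H : SimpleGraph V) (S : Finset V) : ∀ (n : ℕ) (F : Finset (V × V)), F.card = n →
    (∀ p ∈ F, H.Adj p.1 p.2) → (∀ p ∈ F, (p.2, p.1) ∉ F) → ∀ (J : Finset ℕ) (w : ℕ → V),
    (∀ x, x ∉ S → net F x = - ((J.filter (fun j => w j = x)).card : ℤ)) →
    ∃ (E : ℕ → Finset (Sym2 V)) (x : ℕ → V),
      (∀ j ∈ J, x j ∈ S ∧ Conn H (x j) (w j) (E j)) ∧
      (∀ j ∈ J, ∀ e ∈ E j, ∃ d ∈ F, s(d.1, d.2) = e) ∧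
      (∀ i ∈ J, ∀ j ∈ J, i ≠ j → Disjoint (E i) (E j)) := by
  intro n
  induction n with
  | zero =>
    intro F hF hadj hanti J w hfl
    have hF0 : F = ∅ := card_eq_zero.1 hF
    have hall : ∀ j ∈ J, w j ∈ S := by
      intro j hj
      by_contra hw
      have h1 := hfl (w j) hw
      rw [hF0] at h1
      simp only [net, filter_empty, card_empty] at h1
      have h2 : 0 < (J.filter (fun i => w i = w j)).card :=
        card_pos.2 ⟨j, mem_filter.2 ⟨hj, rfl⟩⟩
      omega
    refine ⟨fun _ => ∅, w, ?_, ?_, ?_⟩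
    · intro j hj
      exact ⟨hall j hj, Conn.refl _ _ _⟩
    · intro j _ e he; simp at he
    · intro i _ j _ _; simp
  | succ n ih =>
    intro F hF hadj hanti J w hfl
    by_cases hall : ∀ j ∈ J, w j ∈ S
    · refine ⟨fun _ => ∅, w, ?_, ?_, ?_⟩
      · intro j hj
        exact ⟨hall j hj, Conn.refl _ _ _⟩
      · intro j _ e he; simp at he
      · intro i _ j _ _; simp
    push Not at hall
    obtain ⟨j0, hj0, hw0⟩ := hall
    have h1 := hfl (w j0) hw0
    have h2 : 0 < (J.filter (fun i => w i = w j0)).card :=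
      card_pos.2 ⟨j0, mem_filter.2 ⟨hj0, rfl⟩⟩
    have h3 : 0 < (F.filter (fun p => p.2 = w j0)).card := by
      unfold net at h1
      omega
    obtain ⟨⟨u, w0⟩, hd⟩ := card_pos.1 h3
    rw [mem_filter] at hd
    obtain ⟨hdF, hdw⟩ := hd
    simp only at hdw
    subst hdw
    have hadj0 : H.Adj u (w j0) := hadj _ hdF
    let w' : ℕ → V := fun j => if j = j0 then u else w j
    have hw'0 : w' j0 = u := by simp [w']
    have hw'j : ∀ j, j ≠ j0 → w' j = w j := by intro j hj; simp [w', hj]
    have hcard : (F.erase (u, w j0)).card = n := by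
      rw [card_erase_of_mem hdF]; omega
    obtain ⟨E, x, hE1, hE2, hE3⟩ := ih (F.erase (u, w j0)) hcard
      (fun p hp => hadj p (mem_of_mem_erase hp))
      (fun p hp hp' => hanti p (mem_of_mem_erase hp) (mem_of_mem_erase hp')) J w' (by
        intro x hx
        rw [net_erase hdF, hfl x hx]
        have hsplit : ∀ (f : ℕ → V), (J.filter (fun j => f j = x)).card
            = ((J.erase j0).filter (fun j => f j = x)).card + (if f j0 = x then 1 else 0) := by
          intro f
          conv_lhs => rw [← insert_erase hj0]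
          rw [filter_insert]
          by_cases h : f j0 = x
          · rw [if_pos h, if_pos h, card_insert_of_notMem]
            intro h'
            exact (notMem_erase j0 J) (mem_filter.1 h').1
          · rw [if_neg h, if_neg h]; rfl
        rw [hsplit w, hsplit w', hw'0]
        have heq : ((J.erase j0).filter (fun j => w' j = x)) = ((J.erase j0).filter (fun j => w j = x)) := by
          apply filter_congr
          intro j hj
          rw [hw'j j (ne_of_mem_erase hj)]
        rw [heq]
        push_cast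
        have e1 : (if w j0 = x then (1 : ℤ) else 0) = (if x = w j0 then 1 else 0) := by
          simp only [eq_comm]
        have e2 : (if u = x then (1 : ℤ) else 0) = (if x = u then 1 else 0) := by
          simp only [eq_comm]
        rw [e1, e2]
        ring)
    have hnotE : ∀ j ∈ J, s(u, w j0) ∉ E j := by
      intro j hj he
      obtain ⟨d, hd, hde⟩ := hE2 j hj _ he
      rw [Sym2.eq_iff] at hde
      rcases hde with ⟨h4, h5⟩ | ⟨h4, h5⟩
      · apply notMem_erase (u, w j0) F
        have : d = (u, w j0) := Prod.ext h4 h5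
        rw [this] at hd; exact hd
      · apply hanti _ hdF
        have : d = (w j0, u) := Prod.ext h4 h5
        rw [this] at hd; exact mem_of_mem_erase hd
    let E' : ℕ → Finset (Sym2 V) := fun j => if j = j0 then insert s(u, w j0) (E j) else E j
    have hE'0 : E' j0 = insert s(u, w j0) (E j0) := by simp [E']
    have hE'j : ∀ j, j ≠ j0 → E' j = E j := by intro j hj; simp [E', hj]
    refine ⟨E', x, ?_, ?_, ?_⟩
    · intro j hj
      obtain ⟨hx, hp⟩ := hE1 j hj
      refine ⟨hx, ?_⟩
      by_cases hjj : j = j0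
      · subst hjj
        rw [hw'0] at hp
        rw [hE'0]
        exact (hp.mono (subset_insert _ _)).trans (Conn.single hadj0 (mem_insert_self _ _))
      · rw [hw'j j hjj] at hp
        rw [hE'j j hjj]
        exact hp
    · intro j hj e he
      by_cases hjj : j = j0
      · subst hjj
        rw [hE'0, mem_insert] at he
        rcases he with rfl | he
        · exact ⟨(u, w j), hdF, rfl⟩
        · obtain ⟨d, hd, hde⟩ := hE2 j hj e he
          exact ⟨d, mem_of_mem_erase hd, hde⟩
      · rw [hE'j j hjj] at he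
        obtain ⟨d, hd, hde⟩ := hE2 j hj e he
        exact ⟨d, mem_of_mem_erase hd, hde⟩
    · intro i hi j hj hij
      by_cases hii : i = j0
      · subst hii
        rw [hE'0, hE'j j (Ne.symm hij), disjoint_insert_left]
        exact ⟨hnotE j hj, hE3 i hi j hj hij⟩
      · by_cases hjj : j = j0
        · subst hjj
          rw [hE'0, hE'j i hii, disjoint_insert_right]
          exact ⟨hnotE i hi, hE3 i hi j hj hij⟩
        · rw [hE'j i hii, hE'j j hjj]
          exact hE3 i hi j hj hij

end Pool.Agent.H21.Imm
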