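import Pool.Agent.H21.Imm.Growth

set_option autoImplicit false
set_option linter.unusedSectionVars false

namespace Pool.Agent.H21.Imm

open Finset

variable {V : Type} [Fintype V] [DecidableEq V]

/-- Number of members of the family `P` inside `X`. -/
def nin (P : Finset (Finset V)) (X : Finset V) : ℕ := (P.filter (fun S => S ⊆ X)).card

lemma nin_mono (P : Finset (Finset V)) {X Y : Finset V} (h : X ⊆ Y) : nin P X ≤ nin P Y := by
  apply card_le_card
  intro S hS
  rw [mem_filter] at hS ⊢
  exact ⟨hS.1, hS.2.trans h⟩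

/-- In a disjoint family, few members meet a small set. -/
lemma card_hit_le (P : Finset (Finset V)) (hdisj : ∀ S ∈ P, ∀ S' ∈ P, S ≠ S' → Disjoint S S')
    (X : Finset V) : (P.filter (fun S => ¬ Disjoint S X)).card ≤ X.card := by
  classical
  rcases isEmpty_or_nonempty V with hV | hV
  · have : P.filter (fun S => ¬ Disjoint S X) = ∅ := by
      rw [filter_eq_empty_iff]
      intro S _ h
      rw [not_disjoint_iff] at h
      obtain ⟨v, _⟩ := h
      exact hV.elim v
    rw [this, card_empty]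
    exact Nat.zero_le _
  have hex : ∀ S : Finset V, ∃ v : V, S ∈ P.filter (fun S => ¬ Disjoint S X) → v ∈ S ∧ v ∈ X := by
    intro S
    by_cases h : S ∈ P.filter (fun S => ¬ Disjoint S X)
    · have h2 := (mem_filter.1 h).2
      rw [not_disjoint_iff] at h2
      obtain ⟨v, hv⟩ := h2
      exact ⟨v, fun _ => hv⟩
    · exact ⟨hV.some, fun h' => absurd h' h⟩
  choose f hf using hex
  apply card_le_card_of_injOn f
  · intro S hS
    exact (hf S hS).2
  · intro S hS S' hS' h
    by_contra hne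
    have h1 := hf S hS
    have h2 := hf S' hS'
    have h3 := hdisj S (mem_filter.1 hS).1 S' (mem_filter.1 hS').1 hne
    rw [disjoint_left] at h3
    exact h3 h1.1 (by rw [h]; exact h2.1)

lemma bd_union_res {K : SimpleGraph V} {V' Y X : Finset V}
    (hK : ∀ u v, K.Adj u v → u ∈ V' ∧ v ∈ V') :
    bd K (Y ∪ X) ≤ bd K Y + bd (res K (V' \ Y)) X := by
  unfold bd
  refine le_trans (card_le_card (t := darts K Y Yᶜ ∪ darts (res K (V' \ Y)) X Xᶜ) ?_)
    (card_union_le _ _)
  intro p hp
  simp only [mem_union, mem_darts, mem_compl, res_adj, mem_sdiff] at hp ⊢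
  obtain ⟨⟨h1, h2⟩, h3⟩ := hp
  push Not at h2
  rcases h1 with h1 | h1
  · exact Or.inl ⟨⟨h1, h2.1⟩, h3⟩
  · by_cases h4 : p.1 ∈ Y
    · exact Or.inl ⟨⟨h4, h2.1⟩, h3⟩
    · exact Or.inr ⟨⟨h1, h2.2⟩, ⟨⟨(hK _ _ h3).1, h4⟩, ⟨(hK _ _ h3).2, h2.1⟩⟩, h3⟩

/-- A place is good if it is untouched by `Q` and still well connected. -/
structure GoodPlace (G : SimpleGraph V) (U : Finset V) (Q : Finset (Sym2 V)) (a : ℕ) (M : ℝ)
    (S : Finset V) : Prop where
  sub : S ⊆ U
  clean : ∀ e ∈ Q, ∀ v ∈ S, v ∉ e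
  cut : ∀ X ⊆ U, S ⊆ X → (X.card : ℝ) < M → a ≤ bd (res (del G Q) U) X

/-- Almost all places remain good after deleting few edges. -/
lemma good_places {G : SimpleGraph V} {V' : Finset V} (hG : ∀ u v, G.Adj u v → u ∈ V' ∧ v ∈ V')
    {c M0 M1 : ℝ} (hc : 0 < c)
    (hexp : ∀ X ⊆ V', (X.card : ℝ) ≤ M0 → c * X.card ≤ (bd G X : ℝ))
    (P : Finset (Finset V)) (hPV : ∀ S ∈ P, S ⊆ V') (hPne : ∀ S ∈ P, S.Nonempty)
    (hdisj : ∀ S ∈ P, ∀ S' ∈ P, S ≠ S' → Disjoint S S') {a : ℕ}
    (hP1 : ∀ X ⊆ V', (X.card : ℝ) ≤ M1 → a * nin P X ≤ bd G X)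
    (Q : Finset (Sym2 V)) (hM0 : 2 * (Q.card : ℝ) / c ≤ M0 / 2)
    (hM1 : 2 * (Q.card : ℝ) / c + P.card * (2 * a / c) ≤ M1)
    (Ex : Finset (Finset V))
    (hP : (Ex.card : ℝ) + 4 * Q.card + 2 * Q.card / c < P.card) :
    ∃ U ⊆ V', (∀ X ⊆ U, (X.card : ℝ) ≤ M0 / 2 → c / 2 * X.card ≤ (bd (res (del G Q) U) X : ℝ)) ∧
      ∃ S ∈ P, S ∉ Ex ∧ GoodPlace G U Q a (M0 / 2) S := by
  classical
  set K := del G Q with hKdef
  have hK : ∀ u v, K.Adj u v → u ∈ V' ∧ v ∈ V' := fun u v h => hG u v h.1
  have hM0' : (0 : ℝ) ≤ M0 := by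
    have : (0 : ℝ) ≤ 2 * (Q.card : ℝ) / c := by positivity
    linarith
  let C : Finset (Finset V) := V'.powerset.filter
    (fun Y => (Y.card : ℝ) ≤ M0 ∧ (bd K Y : ℝ) ≤ c / 2 * Y.card)
  have memC : ∀ Y, Y ∈ C ↔ Y ⊆ V' ∧ (Y.card : ℝ) ≤ M0 ∧ (bd K Y : ℝ) ≤ c / 2 * Y.card := by
    intro Y; simp only [C, mem_filter, mem_powerset]
  have hC : C.Nonempty := ⟨∅, by rw [memC]; simp [hM0']⟩
  obtain ⟨Y0, hY0, hmax⟩ := exists_max_image C Finset.card hC
  rw [memC] at hY0
  obtain ⟨hY0V, hY0M, hY0b⟩ := hY0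
  have hQ0 : (0 : ℝ) ≤ Q.card := Nat.cast_nonneg _
  have hbdle : ∀ X, (bd G X : ℝ) ≤ bd K X + Q.card := by
    intro X; exact_mod_cast bd_le_del G Q X
  have hY0c : (Y0.card : ℝ) ≤ 2 * Q.card / c := by
    rw [le_div_iff₀ hc]
    have h1 := hexp Y0 hY0V hY0M
    have h2 := hbdle Y0
    nlinarith
  set U := V' \ Y0 with hU
  have hUV : U ⊆ V' := sdiff_subset
  have hexpU : ∀ X ⊆ U, (X.card : ℝ) ≤ M0 / 2 → c / 2 * X.card ≤ (bd (res K U) X : ℝ) := by
    intro X hX hXc
    rcases X.eq_empty_or_nonempty with h0 | h0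
    · subst h0; simp
    have hdis : Disjoint Y0 X := by
      rw [disjoint_left]
      intro v hv hvX
      have := hX hvX
      rw [hU, mem_sdiff] at this
      exact this.2 hv
    have hcard : (Y0 ∪ X).card = Y0.card + X.card := card_union_of_disjoint hdis
    have hcard' : ((Y0 ∪ X).card : ℝ) = Y0.card + X.card := by rw [hcard]; push_cast; ring
    have hXpos : 0 < X.card := card_pos.2 h0
    have hnot : Y0 ∪ X ∉ C := by
      intro h
      have := hmax _ h
      omega
    rw [memC] at hnot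
    have h1 : ¬ ((bd K (Y0 ∪ X) : ℝ) ≤ c / 2 * (Y0 ∪ X).card) := by
      intro h
      apply hnot
      refine ⟨union_subset hY0V (hX.trans hUV), ?_, h⟩
      rw [hcard']
      linarith
    push Not at h1
    rw [hcard'] at h1
    have h2 : (bd K (Y0 ∪ X) : ℝ) ≤ bd K Y0 + bd (res K U) X := by
      exact_mod_cast bd_union_res hK
    nlinarith
  refine ⟨U, hUV, hexpU, ?_⟩
  -- the three kinds of bad places
  let QV : Finset V := univ.filter (fun v => ∃ e ∈ Q, v ∈ e)
  have hQV : QV.card ≤ 2 * Q.card := by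
    have h1 : QV ⊆ Q.biUnion (fun e => univ.filter (fun v => v ∈ e)) := by
      intro v hv
      simp only [QV, mem_filter, mem_univ, true_and] at hv
      obtain ⟨e, he, hve⟩ := hv
      rw [mem_biUnion]
      exact ⟨e, he, by simp [hve]⟩
    have h2 : ∀ e ∈ Q, (univ.filter (fun v => v ∈ e)).card ≤ 2 := by
      intro e _
      induction e using Sym2.ind with
      | _ x y =>
        have : (univ.filter (fun v => v ∈ s(x, y))) ⊆ {x, y} := by
          intro v hv
          simp only [mem_filter, mem_univ, true_and, Sym2.mem_iff] at hv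
          simp [hv]
        exact (card_le_card this).trans card_le_two
    have := (card_le_card h1).trans (card_biUnion_le_card_mul Q _ 2 h2)
    omega
  let Bad1 := P.filter (fun S => ¬ Disjoint S Y0)
  let Bad2 := P.filter (fun S => ¬ Disjoint S QV)
  let Bad3 := P.filter (fun S => ∃ X ⊆ U, S ⊆ X ∧ (X.card : ℝ) < M0 / 2 ∧ bd (res K U) X < a)
  have hB1 : Bad1.card ≤ Y0.card := card_hit_le P hdisj Y0
  have hB2 : Bad2.card ≤ 2 * Q.card := (card_hit_le P hdisj QV).trans hQV
  have hB3 : (Bad3.card : ℝ) ≤ 2 * Q.card := by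
    have key : ∀ B : Finset (Finset V), B ⊆ Bad3 → ∃ X ⊆ U, (∀ S ∈ B, S ⊆ X) ∧
        (bd (res K U) X : ℝ) ≤ ((a : ℝ) - 1) * nin P X ∧ (X.card : ℝ) ≤ B.card * (2 * a / c) := by
      intro B
      induction B using Finset.induction_on with
      | empty =>
        intro _
        have hempty : (∅ : Finset V) ∉ P := by
          intro h
          exact not_nonempty_empty (hPne ∅ h)
        refine ⟨∅, empty_subset _, by simp, ?_, by simp⟩
        have : nin P ∅ = 0 := by
          unfold nin
          rw [card_eq_zero, filter_eq_empty_iff]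
          intro S hS h
          rw [subset_empty] at h
          exact hempty (h ▸ hS)
        rw [this]; simp
      | @insert S B hS ih =>
        intro hB
        obtain ⟨X, hXU, hXS, hXb, hXc⟩ := ih ((subset_insert _ _).trans hB)
        have hSB := hB (mem_insert_self _ _)
        simp only [Bad3, mem_filter] at hSB
        obtain ⟨hSP, X', hX'U, hSX', hX'c, hX'b⟩ := hSB
        have hcardins : ((insert S B).card : ℝ) = B.card + 1 := by
          rw [card_insert_of_notMem hS]; push_cast; ring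
        have ha0 : (0 : ℝ) ≤ 2 * a / c := by positivity
        by_cases hSX : S ⊆ X
        · refine ⟨X, hXU, ?_, hXb, ?_⟩
          · intro S' hS'
            rcases mem_insert.1 hS' with rfl | h
            · exact hSX
            · exact hXS S' h
          · rw [hcardins]; nlinarith
        · have hX'b' : (bd (res K U) X' : ℝ) ≤ a - 1 := by
            have : bd (res K U) X' + 1 ≤ a := hX'b
            have : (bd (res K U) X' : ℝ) + 1 ≤ a := by exact_mod_cast this
            linarith
          have hX'card : (X'.card : ℝ) ≤ 2 * a / c := by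
            have h1 := hexpU X' hX'U hX'c.le
            rw [le_div_iff₀ hc]
            nlinarith
          have ha1 : (0 : ℝ) ≤ (a : ℝ) - 1 := le_trans (Nat.cast_nonneg _) hX'b'
          refine ⟨X ∪ X', union_subset hXU hX'U, ?_, ?_, ?_⟩
          · intro S' hS'
            rcases mem_insert.1 hS' with rfl | h
            · exact hSX'.trans subset_union_right
            · exact (hXS S' h).trans subset_union_left
          · have h1 : (bd (res K U) (X ∪ X') : ℝ) ≤ bd (res K U) X + bd (res K U) X' := by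
              exact_mod_cast bd_union_le (res K U) X X'
            have h2 : nin P X + 1 ≤ nin P (X ∪ X') := by
              have h3 : insert S (P.filter (fun S => S ⊆ X)) ⊆ P.filter (fun S => S ⊆ X ∪ X') := by
                intro S' hS'
                rw [mem_filter]
                rcases mem_insert.1 hS' with rfl | h
                · exact ⟨hSP, hSX'.trans subset_union_right⟩
                · rw [mem_filter] at h
                  exact ⟨h.1, h.2.trans subset_union_left⟩
              have h4 := card_le_card h3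
              have h5 : S ∉ P.filter (fun S => S ⊆ X) := fun h => hSX (mem_filter.1 h).2
              rw [card_insert_of_notMem h5] at h4
              exact h4
            have h3 : (nin P X : ℝ) + 1 ≤ nin P (X ∪ X') := by exact_mod_cast h2
            nlinarith
          · have h1 : ((X ∪ X').card : ℝ) ≤ X.card + X'.card := by
              exact_mod_cast card_union_le X X'
            rw [hcardins]
            nlinarith
    obtain ⟨X, hXU, hXS, hXb, hXc⟩ := key Bad3 (Subset.refl _)
    have h1 : Bad3.card ≤ nin P X := by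
      apply card_le_card
      intro S hS
      rw [mem_filter]
      exact ⟨(mem_filter.1 hS).1, hXS S hS⟩
    have ha0 : (0 : ℝ) ≤ 2 * a / c := by positivity
    have h2 : ((Y0 ∪ X).card : ℝ) ≤ M1 := by
      have h3 : ((Y0 ∪ X).card : ℝ) ≤ Y0.card + X.card := by exact_mod_cast card_union_le Y0 X
      have h4 : (Bad3.card : ℝ) ≤ P.card := by exact_mod_cast card_le_card (filter_subset _ _)
      nlinarith
    have h3 : (a : ℝ) * nin P (Y0 ∪ X) ≤ bd G (Y0 ∪ X) := by
      exact_mod_cast hP1 (Y0 ∪ X) (union_subset hY0V (hXU.trans hUV)) h2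
    have h4 := hbdle (Y0 ∪ X)
    have h5 : (bd K (Y0 ∪ X) : ℝ) ≤ bd K Y0 + bd (res K U) X := by
      exact_mod_cast bd_union_res hK
    have h6 : (nin P X : ℝ) ≤ nin P (Y0 ∪ X) := by
      exact_mod_cast nin_mono P (subset_union_right)
    have h7 : c / 2 * (Y0.card : ℝ) ≤ Q.card := by
      have := hY0c
      rw [le_div_iff₀ hc] at this
      linarith
    have h8 : (Bad3.card : ℝ) ≤ nin P X := by exact_mod_cast h1
    have h9 : (0 : ℝ) ≤ (a : ℝ) := Nat.cast_nonneg _
    have h10 : (a : ℝ) * nin P X ≤ a * nin P (Y0 ∪ X) := mul_le_mul_of_nonneg_left h6 h9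
    nlinarith
  -- choose a good place
  have hex : ∃ S ∈ P, S ∉ Ex ∧ S ∉ Bad1 ∧ S ∉ Bad2 ∧ S ∉ Bad3 := by
    by_contra hcon
    push Not at hcon
    have h1 : P ⊆ Ex ∪ (Bad1 ∪ (Bad2 ∪ Bad3)) := by
      intro S hS
      by_contra h
      simp only [mem_union, not_or] at h
      exact h.2.2.2 (hcon S hS h.1 h.2.1 h.2.2.1)
    have h2 := card_le_card h1
    have h3 := card_union_le Ex (Bad1 ∪ (Bad2 ∪ Bad3))
    have h4 := card_union_le Bad1 (Bad2 ∪ Bad3)
    have h5 := card_union_le Bad2 Bad3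
    have h6 : (P.card : ℝ) ≤ Ex.card + (Bad1.card + (Bad2.card + Bad3.card)) := by
      have : P.card ≤ Ex.card + (Bad1.card + (Bad2.card + Bad3.card)) := by omega
      exact_mod_cast this
    have h7 : (Bad1.card : ℝ) ≤ Y0.card := by exact_mod_cast hB1
    have h8 : (Bad2.card : ℝ) ≤ 2 * Q.card := by exact_mod_cast hB2
    linarith
  obtain ⟨S, hSP, hSEx, hS1, hS2, hS3⟩ := hex
  refine ⟨S, hSP, hSEx, ?_, ?_, ?_⟩
  · intro v hv
    rw [hU, mem_sdiff]
    refine ⟨hPV S hSP hv, ?_⟩
    intro hvY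
    apply hS1
    rw [mem_filter, not_disjoint_iff]
    exact ⟨hSP, v, hv, hvY⟩
  · intro e he v hv hve
    apply hS2
    rw [mem_filter, not_disjoint_iff]
    refine ⟨hSP, v, hv, ?_⟩
    simp only [QV, mem_filter, mem_univ, true_and]
    exact ⟨e, he, hve⟩
  · intro X hXU hSX hXc
    by_contra hlt
    push Not at hlt
    apply hS3
    rw [mem_filter]
    exact ⟨hSP, X, hXU, hSX, hXc, hlt⟩

end Pool.Agent.H21.Imm
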