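import Pool.Agent.H21.Imm.Flow

set_option autoImplicit false
set_option linter.unusedSectionVars false

namespace Pool.Agent.H21.Imm

open Finset

variable {V : Type} [Fintype V] [DecidableEq V]

/-- Residual growth: the set of vertices reachable by cheap augmentations becomes large. -/
lemma growth {Ok : V → V → Prop} {S : Finset V} {F : Finset (V × V)} (G : SimpleGraph V)
    {U : Finset V} (hSU : S ⊆ U) (hGU : ∀ u v, G.Adj u v → u ∈ U ∧ v ∈ U)
    (hGOk : ∀ u v, G.Adj u v → v ∉ S → Ok u v)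
    (hanti : ∀ p ∈ F, (p.2, p.1) ∉ F) (J : Finset ℕ) (w : ℕ → V)
    (hfl : ∀ x, x ∉ S → net F x = - ((J.filter (fun j => w j = x)).card : ℤ))
    {D c b M2 : ℝ} {a : ℕ} (hD : 0 < D) (hc : 0 < c) (hJ : J.card < a)
    (hdens : ∀ X ⊆ U, (inn G X : ℝ) ≤ D * X.card)
    (hcut : ∀ X ⊆ U, S ⊆ X → (X.card : ℝ) < M2 → a ≤ bd G X ∧ c * X.card - b ≤ (bd G X : ℝ))
    {T0 T1 : ℕ} (hT0 : ((a : ℝ) + b) * D ≤ c * T0) (hT0' : 1 ≤ T0)
    (hT1 : D * M2 < 2 * (1 + c / D) ^ T1) :
    ∃ A, Aug Ok S F A (T0 + T1) ∧ M2 ≤ ((A ∩ U).card : ℝ) := by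
  classical
  have key : ∀ t : ℕ, ∃ A, Aug Ok S F A t ∧ (∀ u ∈ A, ∀ v, (v, u) ∈ F → v ∈ A) ∧
      (M2 ≤ ((A ∩ U).card : ℝ) ∨ (2 * t ≤ inn G (A ∩ U) ∧
        (T0 ≤ t → 2 * (1 + c / D) ^ (t - T0) ≤ (inn G (A ∩ U) : ℝ)))) := by
    intro t
    induction t with
    | zero =>
      obtain ⟨A, hA, hAug, hcl⟩ := aug_close (aug_base (Ok := Ok) (S := S) hanti)
      refine ⟨A, hAug, hcl, Or.inr ⟨by omega, ?_⟩⟩
      intro h; omega
    | succ t ih =>
      obtain ⟨A, hAug, hcl, hor⟩ := ih
      by_cases hM : M2 ≤ ((A ∩ U).card : ℝ)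
      · exact ⟨A, aug_mono hAug (Nat.le_succ t), hcl, Or.inl hM⟩
      rcases hor with h | ⟨hI1, hI2⟩
      · exact absurd h hM
      push Not at hM
      set X := A ∩ U with hX
      have hXU : X ⊆ U := inter_subset_right
      have hSX : S ⊆ X := subset_inter hAug.1 hSU
      obtain ⟨hc1, hc2⟩ := hcut X hXU hSX hM
      -- forward darts
      let E : Finset (V × V) := (darts G X Xᶜ) \ F
      have hE : ∀ p, p ∈ E ↔ ((p.1 ∈ X ∧ p.2 ∉ X) ∧ G.Adj p.1 p.2) ∧ p ∉ F := by
        intro p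
        simp only [E, mem_sdiff, mem_darts, mem_compl]
      have hout := out_le hAug.1 J w hfl hcl
      have hEcard : bd G X ≤ E.card + J.card := by
        have h1 : darts G X Xᶜ ⊆ E ∪ F.filter (fun p => p.1 ∈ A ∧ p.2 ∉ A) := by
          intro p hp
          by_cases hpF : p ∈ F
          · apply mem_union_right
            rw [mem_filter]
            rw [mem_darts, mem_compl] at hp
            refine ⟨hpF, (mem_inter.1 hp.1.1).1, ?_⟩
            intro h2
            exact hp.1.2 (mem_inter.2 ⟨h2, (hGU _ _ hp.2).2⟩)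
          · exact mem_union_left _ (mem_sdiff.2 ⟨hp, hpF⟩)
        have h2 := (card_le_card h1).trans (card_union_le _ _)
        have h3 : bd G X = (darts G X Xᶜ).card := rfl
        omega
      have hE1 : 1 ≤ E.card := by omega
      -- the next set
      have hN : ∀ v ∈ E.image Prod.snd, v ∈ A ∨ ∃ u ∈ A, Ok u v ∧ (u, v) ∉ F ∧ (v, u) ∉ F := by
        intro v hv
        rw [mem_image] at hv
        obtain ⟨⟨u, v'⟩, hp, rfl⟩ := hv
        rw [hE] at hp
        simp only at hp
        obtain ⟨⟨⟨hu, hv⟩, hadj⟩, hpF⟩ := hp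
        have huA := (mem_inter.1 hu).1
        have hvU := (hGU _ _ hadj).2
        have hvA : v' ∉ A := fun h => hv (mem_inter.2 ⟨h, hvU⟩)
        right
        refine ⟨u, huA, hGOk u v' hadj (fun h => hvA (hAug.1 h)), hpF, ?_⟩
        intro h
        exact hvA (hcl u huA v' h)
      obtain ⟨A', hAA', hAug', hcl'⟩ := aug_close (aug_fwd_set hAug _ hN)
      have hsub : X ⊆ A' ∩ U := by
        intro v hv
        rw [mem_inter] at hv ⊢
        exact ⟨hAA' (mem_union_left _ hv.1), hv.2⟩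
      have hinc : inn G X + 2 * E.card ≤ inn G (A' ∩ U) := by
        apply inn_add_le hsub
        intro p hp
        have hp' := (hE p).1 hp
        refine ⟨hp'.1.1.1, hp'.1.1.2, ?_, hp'.1.2⟩
        rw [mem_inter]
        refine ⟨hAA' (mem_union_right _ (mem_image.2 ⟨p, hp, rfl⟩)), (hGU _ _ hp'.1.2).2⟩
      refine ⟨A', hAug', hcl', Or.inr ⟨by omega, ?_⟩⟩
      intro ht
      rcases Nat.lt_or_ge t T0 with hlt | hge
      · have : t + 1 = T0 := by omega
        rw [this, Nat.sub_self, pow_zero, mul_one]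
        have : 2 ≤ inn G (A' ∩ U) := by omega
        exact_mod_cast this
      · have h1 := hI2 hge
        have h2 : t + 1 - T0 = (t - T0) + 1 := by omega
        rw [h2, pow_succ]
        have hI : (2 : ℝ) * T0 ≤ inn G X := by
          have h4 : 2 * T0 ≤ inn G X := by omega
          exact_mod_cast h4
        have h5 := hdens X hXU
        have hE2 : (bd G X : ℝ) ≤ E.card + J.card := by exact_mod_cast hEcard
        have hJ' : (J.card : ℝ) ≤ a := by exact_mod_cast hJ.le
        have h6 : c / D * (inn G X : ℝ) ≤ c * X.card := by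
          calc c / D * (inn G X : ℝ) ≤ c / D * (D * X.card) :=
                mul_le_mul_of_nonneg_left h5 (by positivity)
            _ = c * X.card := by field_simp
        have h7 : 2 * ((a : ℝ) + b) ≤ c / D * (inn G X : ℝ) := by
          have h8 : ((a : ℝ) + b) ≤ c / D * T0 := by
            rw [div_mul_eq_mul_div, le_div_iff₀ hD]
            exact hT0
          have h9 : c / D * (2 * T0) ≤ c / D * (inn G X : ℝ) :=
            mul_le_mul_of_nonneg_left hI (by positivity)
          linarith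
        have h10 : c / D * (inn G X : ℝ) ≤ 2 * E.card := by linarith
        have h11 : (inn G X : ℝ) + 2 * E.card ≤ inn G (A' ∩ U) := by exact_mod_cast hinc
        calc 2 * ((1 + c / D) ^ (t - T0) * (1 + c / D))
            = (1 + c / D) * (2 * (1 + c / D) ^ (t - T0)) := by ring
          _ ≤ (1 + c / D) * (inn G X : ℝ) := mul_le_mul_of_nonneg_left h1 (by positivity)
          _ = (inn G X : ℝ) + c / D * (inn G X : ℝ) := by ring
          _ ≤ (inn G (A' ∩ U) : ℝ) := by linarith
  obtain ⟨A, hAug, _, hor⟩ := key (T0 + T1)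
  refine ⟨A, hAug, ?_⟩
  rcases hor with h | ⟨_, h⟩
  · exact h
  · by_contra hcon
    push Not at hcon
    have h1 := h (Nat.le_add_right _ _)
    rw [Nat.add_sub_cancel_left] at h1
    have h2 := hdens (A ∩ U) inter_subset_right
    have h3 : D * ((A ∩ U).card : ℝ) ≤ D * M2 := mul_le_mul_of_nonneg_left hcon.le hD.le
    linarith

/-- `a` and `b` are joined by a walk of length at most `L` with edges in `E`. -/
def ConnL (H : SimpleGraph V) (a b : V) (E : Finset (Sym2 V)) (L : ℕ) : Prop :=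
  ∃ p : H.Walk a b, (∀ e ∈ p.edges, e ∈ E) ∧ p.length ≤ L

/-- The edge is allowed. -/
def OkE (H : SimpleGraph V) (Bad Za : Finset (Sym2 V)) (u v : V) : Prop :=
  H.Adj u v ∧ s(u, v) ∉ Bad ∧ s(u, v) ∉ Za

/-- Flows from `S` to distinct hubs, built one hub at a time. -/
lemma flows {H : SimpleGraph V} {V' : Finset V} {q : ℕ} {y : ℕ → V} {Z : ℕ → Finset (Sym2 V)}
    {L Qt : ℕ} {M2 : ℝ} (hub : HubSys H V' q y Z L Qt M2) (Bad : Finset (Sym2 V))
    {S : Finset V} (G : SimpleGraph V) {U : Finset V} (hSU : S ⊆ U) (hUV : U ⊆ V')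
    (hGU : ∀ u v, G.Adj u v → u ∈ U ∧ v ∈ U)
    (hGOk : ∀ u v, G.Adj u v → v ∉ S → OkE H Bad (allZ Z q) u v)
    {D c b : ℝ} {a : ℕ} (hD : 0 < D) (hc : 0 < c)
    (hdens : ∀ X ⊆ U, (inn G X : ℝ) ≤ D * X.card)
    (hcut : ∀ X ⊆ U, S ⊆ X → (X.card : ℝ) < M2 → a ≤ bd G X ∧ c * X.card - b ≤ (bd G X : ℝ))
    {T0 T1 : ℕ} (hT0 : ((a : ℝ) + b) * D ≤ c * T0) (hT0' : 1 ≤ T0)
    (hT1 : D * M2 < 2 * (1 + c / D) ^ T1) (hQt : Bad.card + a * (T0 + T1 + L) ≤ Qt)
    (J : Finset ℕ) : J.card ≤ a → (∀ j ∈ J, j < q) →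
    ∃ (F : Finset (V × V)) (w : ℕ → V), F.card ≤ J.card * (T0 + T1 + L) ∧
      (∀ p ∈ F, OkE H Bad (allZ Z q) p.1 p.2) ∧ (∀ p ∈ F, (p.2, p.1) ∉ F) ∧
      (∀ x, x ∉ S → net F x = - ((J.filter (fun j => w j = x)).card : ℤ)) ∧
      (∀ j ∈ J, ConnL H (w j) (y j) (Z j) L) := by
  classical
  induction J using Finset.induction_on with
  | empty =>
    intro _ _
    refine ⟨∅, fun _ => y 0, by simp, by simp, by simp, ?_, by simp⟩
    intro x _
    simp [net]
  | @insert s J hs ih =>
    intro hJa hJq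
    rw [card_insert_of_notMem hs] at hJa
    obtain ⟨F, w, hF1, hF2, hF3, hF4, hF5⟩ := ih (by omega)
      (fun j hj => hJq j (mem_insert_of_mem hj))
    have hsq : s < q := hJq s (mem_insert_self _ _)
    obtain ⟨A, hAug, hAM⟩ := growth (Ok := OkE H Bad (allZ Z q)) G hSU hGU hGOk hF3 J w hF4 hD hc
      (show J.card < a by omega) hdens hcut hT0 hT0' hT1
    -- generic vertex
    let FE : Finset (Sym2 V) := F.image (fun p => s(p.1, p.2))
    have hFE : FE.card ≤ F.card := card_image_le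
    have hcardE : (Bad ∪ FE).card ≤ Qt := by
      have h1 := card_union_le Bad FE
      have h2 : J.card * (T0 + T1 + L) ≤ a * (T0 + T1 + L) := Nat.mul_le_mul_right _ (by omega)
      omega
    obtain ⟨z, hz, w0, p, p', hp, hp', hl⟩ := hub.gen s hsq (Bad ∪ FE) hcardE (A ∩ U)
      ((inter_subset_right).trans hUV) hAM
    have hzA := (mem_inter.1 hz).1
    have hok : ∀ u v, H.Adj u v → s(u, v) ∈ p.edges →
        OkE H Bad (allZ Z q) u v ∧ (u, v) ∉ F ∧ (v, u) ∉ F := by
      intro u v huv he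
      obtain ⟨h1, h2⟩ := hp _ he
      rw [mem_union, not_or] at h1
      refine ⟨⟨huv, h1.1, h2⟩, ?_, ?_⟩
      · intro h
        exact h1.2 (mem_image.2 ⟨(u, v), h, rfl⟩)
      · intro h
        exact h1.2 (mem_image.2 ⟨(v, u), h, Sym2.eq_swap⟩)
    obtain ⟨A', _, hAug', hwA⟩ := aug_walk p hok hAug hzA
    obtain ⟨F', h1, h2, h3, h4, _⟩ := hAug'.2 w0 hwA
    refine ⟨F', fun j => if j = s then w0 else w j, ?_, ?_, h3, ?_, ?_⟩
    · rw [card_insert_of_notMem hs, Nat.add_mul, Nat.one_mul]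
      omega
    · intro d hd
      by_cases hdF : d ∈ F
      · exact hF2 d hdF
      · exact h2 d hd hdF
    · intro x hx
      rw [h4 x hx, hF4 x hx, filter_insert]
      have heq : J.filter (fun j => (if j = s then w0 else w j) = x) = J.filter (fun j => w j = x) := by
        apply filter_congr
        intro j hj
        have : j ≠ s := fun h => hs (h ▸ hj)
        rw [if_neg this]
      rw [heq]
      simp only [if_true]
      by_cases hxw : x = w0
      · rw [if_pos hxw, if_pos hxw.symm, card_insert_of_notMem]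
        · push_cast; ring
        · intro h; exact hs (mem_filter.1 h).1
      · rw [if_neg hxw, if_neg (fun h => hxw h.symm)]
        ring
    · intro j hj
      rcases mem_insert.1 hj with rfl | hj
      · beta_reduce
        rw [if_pos rfl]
        exact ⟨p', hp', by omega⟩
      · have : j ≠ s := fun h => hs (h ▸ hj)
        beta_reduce
        rw [if_neg this]
        exact hF5 j hj

end Pool.Agent.H21.Imm
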