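import Pool.Agent.H21.Imm.Tree

set_option autoImplicit false
set_option linter.unusedSectionVars false

namespace Pool.Agent.H21.Imm

open Finset

variable {V : Type} [Fintype V] [DecidableEq V]

/-- All popular edges of the first `q` hubs. -/
def allZ (Z : ℕ → Finset (Sym2 V)) (q : ℕ) : Finset (Sym2 V) := (range q).biUnion Z

lemma mem_allZ {Z : ℕ → Finset (Sym2 V)} {q : ℕ} {e : Sym2 V} :
    e ∈ allZ Z q ↔ ∃ j < q, e ∈ Z j := by
  simp [allZ]

/-- A system of hubs reachable from generic vertices of `U`. -/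
structure HubSys (H : SimpleGraph V) (U : Finset V) (q : ℕ) (y : ℕ → V)
    (Z : ℕ → Finset (Sym2 V)) (L Qt : ℕ) (M2 : ℝ) : Prop where
  disj : ∀ i < q, ∀ j < q, i ≠ j → Disjoint (Z i) (Z j)
  gen : ∀ s < q, ∀ E' : Finset (Sym2 V), E'.card ≤ Qt → ∀ X ⊆ U, M2 ≤ (X.card : ℝ) →
    ∃ z ∈ X, ∃ w, ∃ (p : H.Walk z w) (p' : H.Walk w (y s)),
      (∀ e ∈ p.edges, e ∉ E' ∧ e ∉ allZ Z q) ∧ (∀ e ∈ p'.edges, e ∈ Z s) ∧
        p.length + p'.length ≤ L

lemma edges_mapLe {G H : SimpleGraph V} (h : G ≤ H) {u v : V} (p : G.Walk u v) :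
    (p.mapLe h).edges = p.edges := by
  simp

lemma length_mapLe {G H : SimpleGraph V} (h : G ≤ H) {u v : V} (p : G.Walk u v) :
    (p.mapLe h).length = p.length := by
  simp

/-- Recursive construction of nested hubs. -/
lemma hubs_aux (H : SimpleGraph V) {V0 : Finset V} (hne : V0.Nonempty) {ρ κ Δ : ℝ} (hκ : 0 < κ)
    (hΔ : 0 < Δ) (hdens : ∀ X ⊆ V0, (inn H X : ℝ) ≤ Δ * X.card)
    (hρ : ρ * V0.card ≤ (inn H V0 : ℝ)) {T : ℕ} (hT : Δ * V0.card < 2 * (1 + κ / Δ) ^ T)
    (q : ℕ) (A : ℕ → ℕ) (hA : ∀ s, 0 < A s) {Ml : ℝ}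
    (hlow : ∀ X ⊆ V0, X.Nonempty → (ρ - 2 * κ * q - κ) * X.card ≤ (inn H X : ℝ) → Ml ≤ X.card)
    (hnum : ∀ s < q, 2 * ((T : ℝ) + 1) * V0.card ≤ κ * Ml * A s) :
    ∀ s ≤ q, ∃ U ⊆ V0, U.Nonempty ∧ ∃ (y : ℕ → V) (Z : ℕ → Finset (Sym2 V))
      (LE : ℕ → V → Finset (Sym2 V)),
      (ρ - 2 * κ * s) * U.card ≤ (inn (del H (allZ Z s)) U : ℝ) ∧
      (∀ j < s, (Z j).card * A j ≤ (T + 1) * V0.card) ∧
      (∀ j < s, ∀ i < j, Disjoint (Z i) (Z j)) ∧
      (∀ j < s, ∀ e, (U.filter (fun z => e ∈ LE j z)).card ≤ A j) ∧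
      (∀ j < s, ∀ z ∈ U, (∀ e ∈ LE j z, ∀ i ≤ j, e ∉ Z i) ∧
        ∃ w, ∃ (p : H.Walk z w) (p' : H.Walk w (y j)), (∀ e ∈ p.edges, e ∈ LE j z) ∧
            (∀ e ∈ p'.edges, e ∈ Z j) ∧ p.length + p'.length ≤ T) := by
  classical
  intro s
  induction s with
  | zero =>
    intro _
    refine ⟨V0, Subset.refl _, hne, fun _ => hne.choose, fun _ => ∅, fun _ _ => ∅, ?_, ?_, ?_, ?_, ?_⟩
    · have : inn H V0 ≤ inn (del H (allZ (fun _ => (∅ : Finset (Sym2 V))) 0)) V0 := by
        apply inn_mono _ (Subset.refl _)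
        intro u v h
        exact ⟨h, by simp [allZ]⟩
      have h2 : (inn H V0 : ℝ) ≤ (inn (del H (allZ (fun _ => (∅ : Finset (Sym2 V))) 0)) V0 : ℝ) := by
        exact_mod_cast this
      simp only [Nat.cast_zero, mul_zero, sub_zero]
      linarith
    all_goals intro j hj; omega
  | succ s ih =>
    intro hs
    obtain ⟨U, hUV, hU0, y, Z, LE, h1, h2, h3, h4, h5⟩ := ih (by omega)
    set G := del H (allZ Z s) with hG
    have hGH : G ≤ H := del_le _ _
    -- critical subset
    obtain ⟨V1, hV1, hV1ne, hV1d, hcrit⟩ := exists_critical G (fun _ => ρ - 2 * κ * s) hU0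
      (by rw [sum_const, nsmul_eq_mul, mul_comm]; exact h1)
    have hcrit' : ∀ X ⊆ V1, (ρ - 2 * κ * s) * X.card ≤ (inn G X : ℝ) + 2 * (bd (res G V1) X : ℝ) := by
      intro X hX
      have := hcrit X hX
      rw [sum_const, nsmul_eq_mul, mul_comm] at this
      exact this
    have hV1V : V1 ⊆ V0 := hV1.trans hUV
    have hdens' : ∀ X ⊆ V1, (inn G X : ℝ) ≤ Δ * X.card := by
      intro X hX
      have h : (inn G X : ℝ) ≤ inn H X := by exact_mod_cast inn_mono hGH (Subset.refl X)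
      exact h.trans (hdens X (hX.trans hV1V))
    have hT' : Δ * V1.card < 2 * (1 + κ / Δ) ^ T := by
      have : (V1.card : ℝ) ≤ V0.card := by exact_mod_cast card_le_card hV1V
      have := mul_le_mul_of_nonneg_left this hΔ.le
      linarith
    obtain ⟨B, hB, yy, par, dep, hR, hBd⟩ := carve G hκ hΔ hcrit' hdens' hT' hV1ne
    have hBU : B ⊆ U := hB.trans hV1
    have hBV : B ⊆ V0 := hBU.trans hUV
    have hB0 : B.Nonempty := ⟨yy, hR.mem⟩
    obtain ⟨Zs, hZs, hZsG, LEs, hLEs, hwalk⟩ := tree_split G hR (hA s)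
    -- size of B
    have hBH : (inn G B : ℝ) ≤ inn H B := by exact_mod_cast inn_mono hGH (Subset.refl B)
    have hsq : (s : ℝ) + 1 ≤ q := by exact_mod_cast hs
    have hBc : (0 : ℝ) ≤ B.card := Nat.cast_nonneg _
    have hMl : Ml ≤ B.card := by
      apply hlow B hBV hB0
      have h6 : (ρ - 2 * κ * q - κ) ≤ (ρ - 2 * κ * s - κ) := by nlinarith
      have h7 := mul_le_mul_of_nonneg_right h6 hBc
      linarith
    have hZcard : 2 * (Zs.card : ℝ) ≤ κ * B.card := by
      have hA0 : (0 : ℝ) < A s := by exact_mod_cast hA s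
      have h6 : (Zs.card : ℝ) * A s ≤ (T + 1) * B.card := by exact_mod_cast hZs
      have h7 : (B.card : ℝ) ≤ V0.card := by exact_mod_cast card_le_card hBV
      have h8 := hnum s (by omega)
      have h9 : 2 * (Zs.card : ℝ) * A s ≤ κ * B.card * A s := by
        calc 2 * (Zs.card : ℝ) * A s = 2 * ((Zs.card : ℝ) * A s) := by ring
          _ ≤ 2 * ((T + 1) * B.card) := by linarith
          _ ≤ 2 * ((T : ℝ) + 1) * V0.card := by
              have : (0 : ℝ) ≤ (T : ℝ) + 1 := by positivity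
              nlinarith
          _ ≤ κ * Ml * A s := h8
          _ ≤ κ * B.card * A s := by
              apply mul_le_mul_of_nonneg_right _ hA0.le
              exact mul_le_mul_of_nonneg_left hMl hκ.le
      exact le_of_mul_le_mul_right h9 hA0
    -- new data
    let Z' : ℕ → Finset (Sym2 V) := fun j => if j = s then Zs else Z j
    let y' : ℕ → V := fun j => if j = s then yy else y j
    let LE' : ℕ → V → Finset (Sym2 V) := fun j => if j = s then LEs else LE j
    have hZ's : Z' s = Zs := by simp [Z']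
    have hZ'j : ∀ j, j < s → Z' j = Z j := by intro j hj; simp [Z', hj.ne]
    have hy's : y' s = yy := by simp [y']
    have hy'j : ∀ j, j < s → y' j = y j := by intro j hj; simp [y', hj.ne]
    have hLE's : LE' s = LEs := by simp [LE']
    have hLE'j : ∀ j, j < s → LE' j = LE j := by intro j hj; simp [LE', hj.ne]
    have hall : allZ Z' (s + 1) = allZ Z s ∪ Zs := by
      ext e
      rw [mem_union, mem_allZ, mem_allZ]
      constructor
      · rintro ⟨j, hj, he⟩
        rcases Nat.lt_succ_iff_lt_or_eq.1 hj with h | h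
        · rw [hZ'j j h] at he; exact Or.inl ⟨j, h, he⟩
        · rw [h, hZ's] at he; exact Or.inr he
      · rintro (⟨j, hj, he⟩ | he)
        · exact ⟨j, by omega, by rw [hZ'j j hj]; exact he⟩
        · exact ⟨s, by omega, by rw [hZ's]; exact he⟩
    have hGnotin : ∀ e ∈ G.edgeSet, e ∉ allZ Z s := by
      intro e
      induction e using Sym2.ind with
      | _ a b => intro h; exact h.2
    refine ⟨B, hBV, hB0, y', Z', LE', ?_, ?_, ?_, ?_, ?_⟩
    · have h6 : inn G B ≤ inn (del G Zs) B + 2 * Zs.card := inn_le_del G Zs B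
      have h7 : del G Zs = del H (allZ Z' (s + 1)) := by
        ext u v
        rw [hall, del_adj, hG, del_adj, del_adj, mem_union]
        tauto
      rw [h7] at h6
      have h8 : (inn G B : ℝ) ≤ (inn (del H (allZ Z' (s + 1))) B : ℝ) + 2 * (Zs.card : ℝ) := by
        exact_mod_cast h6
      have h9 : (ρ - 2 * κ * ((s + 1 : ℕ) : ℝ)) * B.card
          = (ρ - 2 * κ * s - κ) * B.card - κ * B.card := by push_cast; ring
      rw [h9]
      linarith
    · intro j hj
      rcases Nat.lt_succ_iff_lt_or_eq.1 hj with h | h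
      · rw [hZ'j j h]; exact h2 j h
      · rw [h, hZ's]
        exact hZs.trans (Nat.mul_le_mul_left _ (card_le_card hBV))
    · intro j hj i hi
      rcases Nat.lt_succ_iff_lt_or_eq.1 hj with h | h
      · rw [hZ'j j h, hZ'j i (by omega)]; exact h3 j h i hi
      · subst h
        rw [hZ's, hZ'j i hi, disjoint_left]
        intro e he he'
        exact hGnotin e (hZsG e he') (mem_allZ.2 ⟨i, hi, he⟩)
    · intro j hj e
      rcases Nat.lt_succ_iff_lt_or_eq.1 hj with h | h
      · rw [hLE'j j h]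
        refine (card_le_card ?_).trans (h4 j h e)
        exact filter_subset_filter _ hBU
      · subst h
        rw [hLE's]
        exact hLEs e
    · intro j hj z hz
      rcases Nat.lt_succ_iff_lt_or_eq.1 hj with h | h
      · rw [hLE'j j h, hy'j j h]
        obtain ⟨h6, w, p, p', h7, h8, h9⟩ := h5 j h z (hBU hz)
        refine ⟨?_, w, p, p', h7, ?_, h9⟩
        · intro e he i hi
          rw [hZ'j i (by omega)]
          exact h6 e he i hi
        · intro e he
          rw [hZ'j j h]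
          exact h8 e he
      · subst h
        rw [hLE's, hy's]
        obtain ⟨h6, w, p, p', h7, h8, h9⟩ := hwalk z hz
        refine ⟨?_, w, p.mapLe hGH, p'.mapLe hGH, ?_, ?_, ?_⟩
        · intro e he i hi
          obtain ⟨h10, h11⟩ := h6 e he
          rcases Nat.lt_or_eq_of_le hi with h | h
          · rw [hZ'j i h]
            intro hh
            exact hGnotin e h11 (mem_allZ.2 ⟨i, h, hh⟩)
          · rw [h, hZ's]; exact h10
        · intro e he
          rw [edges_mapLe] at he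
          exact h7 e he
        · intro e he
          rw [edges_mapLe] at he
          rw [hZ's]
          exact h8 e he
        · rw [length_mapLe, length_mapLe]; exact h9

/-- Existence of a hub system on a dense subset. -/
lemma hubs (H : SimpleGraph V) {V0 : Finset V} (hne : V0.Nonempty) {ρ κ Δ : ℝ} (hκ : 0 < κ)
    (hΔ : 0 < Δ) (hdens : ∀ X ⊆ V0, (inn H X : ℝ) ≤ Δ * X.card)
    (hρ : ρ * V0.card ≤ (inn H V0 : ℝ)) {T : ℕ} (hT : Δ * V0.card < 2 * (1 + κ / Δ) ^ T)
    (q : ℕ) (A : ℕ → ℕ) (hA : ∀ s, 0 < A s) {Ml : ℝ}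
    (hlow : ∀ X ⊆ V0, X.Nonempty → (ρ - 2 * κ * q - κ) * X.card ≤ (inn H X : ℝ) → Ml ≤ X.card)
    (hnum : ∀ s < q, 2 * ((T : ℝ) + 1) * V0.card ≤ κ * Ml * A s)
    {R M2 : ℝ} (hR0 : 0 < R) (hR1 : ∀ j < q, ∀ i < j, (A i : ℝ) * R ≤ A j)
    (hR2 : ∀ j < q, (A j : ℝ) * R ≤ V0.card) {Qt : ℕ}
    (hM2 : ((Qt : ℝ) + q * (T + 1)) * V0.card < M2 * R) :
    ∃ U ⊆ V0, U.Nonempty ∧ ∃ (y : ℕ → V) (Z : ℕ → Finset (Sym2 V)),
      (ρ - 2 * κ * q) * U.card ≤ (inn (del H (allZ Z q)) U : ℝ) ∧
      HubSys H U q y Z T Qt M2 := by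
  classical
  obtain ⟨U, hU, hU0, y, Z, LE, h1, h2, h3, h4, h5⟩ :=
    hubs_aux H hne hκ hΔ hdens hρ hT q A hA hlow hnum q le_rfl
  refine ⟨U, hU, hU0, y, Z, h1, ?_, ?_⟩
  · intro i hi j hj hij
    rcases lt_or_gt_of_ne hij with h | h
    · exact h3 j hj i h
    · exact (h3 i hi j h).symm
  · intro s hs E' hE' X hX hXc
    -- the bad edges
    let BE : Finset (Sym2 V) := E' ∪ (Ioo s q).biUnion Z
    let bad : Finset V := BE.biUnion (fun e => U.filter (fun z => e ∈ LE s z))
    have hAs : (0 : ℝ) < A s := by exact_mod_cast hA s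
    have hbad : (bad.card : ℝ) * R < M2 * R := by
      have hb1 : bad.card ≤ BE.card * A s := card_biUnion_le_card_mul _ _ _ (fun e _ => h4 s hs e)
      have hb2 : BE.card ≤ E'.card + ∑ j ∈ Ioo s q, (Z j).card :=
        (card_union_le _ _).trans (Nat.add_le_add_left card_biUnion_le _)
      have hb3 : (bad.card : ℝ) ≤ ((Qt : ℝ) + ∑ j ∈ Ioo s q, ((Z j).card : ℝ)) * A s := by
        have : (bad.card : ℝ) ≤ (BE.card : ℝ) * A s := by exact_mod_cast hb1
        have h6 : (BE.card : ℝ) ≤ (E'.card : ℝ) + ∑ j ∈ Ioo s q, ((Z j).card : ℝ) := by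
          exact_mod_cast hb2
        have h7 : (E'.card : ℝ) ≤ Qt := by exact_mod_cast hE'
        calc (bad.card : ℝ) ≤ (BE.card : ℝ) * A s := this
          _ ≤ ((Qt : ℝ) + ∑ j ∈ Ioo s q, ((Z j).card : ℝ)) * A s := by
            apply mul_le_mul_of_nonneg_right _ hAs.le
            linarith
      have hb4 : ∀ j ∈ Ioo s q, ((Z j).card : ℝ) * A s * R ≤ (T + 1) * V0.card := by
        intro j hj
        rw [mem_Ioo] at hj
        have h6 : ((Z j).card : ℝ) * A j ≤ (T + 1) * V0.card := by exact_mod_cast h2 j hj.2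
        have h7 := hR1 j hj.2 s hj.1
        have h8 : (0 : ℝ) ≤ (Z j).card := Nat.cast_nonneg _
        calc ((Z j).card : ℝ) * A s * R = (Z j).card * (A s * R) := by ring
          _ ≤ (Z j).card * A j := mul_le_mul_of_nonneg_left h7 h8
          _ ≤ _ := h6
      have hb5 : (∑ j ∈ Ioo s q, ((Z j).card : ℝ)) * A s * R ≤ q * ((T + 1) * V0.card) := by
        rw [sum_mul, sum_mul]
        calc ∑ j ∈ Ioo s q, ((Z j).card : ℝ) * A s * R
            ≤ ∑ j ∈ Ioo s q, ((T : ℝ) + 1) * V0.card := sum_le_sum hb4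
          _ = ((Ioo s q).card : ℝ) * (((T : ℝ) + 1) * V0.card) := by
              rw [sum_const, nsmul_eq_mul]
          _ ≤ q * ((T + 1) * V0.card) := by
              apply mul_le_mul_of_nonneg_right _ (by positivity)
              have : (Ioo s q).card ≤ q := by
                rw [Nat.card_Ioo]; omega
              exact_mod_cast this
      have hb6 : (Qt : ℝ) * A s * R ≤ Qt * V0.card := by
        have := hR2 s hs
        have h8 : (0 : ℝ) ≤ Qt := Nat.cast_nonneg _
        calc (Qt : ℝ) * A s * R = Qt * (A s * R) := by ring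
          _ ≤ _ := mul_le_mul_of_nonneg_left this h8
      have hb7 : (bad.card : ℝ) * R ≤ ((Qt : ℝ) + ∑ j ∈ Ioo s q, ((Z j).card : ℝ)) * A s * R :=
        mul_le_mul_of_nonneg_right hb3 hR0.le
      have hb8 : ((Qt : ℝ) + ∑ j ∈ Ioo s q, ((Z j).card : ℝ)) * A s * R
          = (Qt : ℝ) * A s * R + (∑ j ∈ Ioo s q, ((Z j).card : ℝ)) * A s * R := by ring
      have hb9 : ((Qt : ℝ) + q * (T + 1)) * V0.card = Qt * V0.card + q * ((T + 1) * V0.card) := by
        ring
      linarith
    have hbad' : (bad.card : ℝ) < X.card := by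
      have := lt_of_mul_lt_mul_right hbad hR0.le
      linarith
    have hbad'' : bad.card < X.card := by exact_mod_cast hbad'
    obtain ⟨z, hz, hzb⟩ : ∃ z ∈ X, z ∉ bad := by
      by_contra hcon
      push Not at hcon
      have := card_le_card (fun z hz => hcon z hz : X ⊆ bad)
      omega
    have hzU := hX hz
    obtain ⟨h6, w, p, p', h7, h8, h9⟩ := h5 s hs z hzU
    refine ⟨z, hz, w, p, p', ?_, h8, h9⟩
    intro e he
    have heL := h7 e he
    have hnb : e ∉ BE := by
      intro h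
      apply hzb
      rw [mem_biUnion]
      exact ⟨e, h, mem_filter.2 ⟨hzU, heL⟩⟩
    simp only [BE, mem_union, mem_biUnion, mem_Ioo, not_or, not_exists, not_and] at hnb
    refine ⟨hnb.1, ?_⟩
    rw [mem_allZ]
    rintro ⟨j, hj, hej⟩
    rcases Nat.lt_or_ge s j with h | h
    · exact hnb.2 j ⟨h, hj⟩ hej
    · exact h6 e heL j h hej

end Pool.Agent.H21.Imm
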