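import Pool.Agent.H21.Imm.Far

set_option autoImplicit false
set_option linter.unusedSectionVars false

namespace Pool.Agent.H21.Imm

open Finset

variable {V : Type} [Fintype V] [DecidableEq V]

/-- The graph made of the places, their edges to `Ws` and the links. -/
def linkG (G : SimpleGraph V) (Ws : Finset V) (N q' : ℕ) (Sx : ℕ → Finset V) (xa xb : ℕ → V)
    (hab : ∀ j < q', xa j ≠ xb j) : SimpleGraph V where
  Adj u v := (∃ i < N, u ∈ Sx i ∧ v ∈ Sx i ∧ G.Adj u v) ∨
    (∃ i < N, ((u ∈ Sx i ∧ v ∈ Ws) ∨ (v ∈ Sx i ∧ u ∈ Ws)) ∧ G.Adj u v) ∨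
    (∃ j < q', (u = xa j ∧ v = xb j) ∨ (u = xb j ∧ v = xa j))
  symm := ⟨by
    rintro u v (⟨i, hi, h1, h2, h3⟩ | ⟨i, hi, h1, h3⟩ | ⟨j, hj, h⟩)
    · exact Or.inl ⟨i, hi, h2, h1, h3.symm⟩
    · exact Or.inr (Or.inl ⟨i, hi, h1.symm, h3.symm⟩)
    · refine Or.inr (Or.inr ⟨j, hj, ?_⟩)
      rcases h with h | h
      · exact Or.inr ⟨h.2, h.1⟩
      · exact Or.inl ⟨h.2, h.1⟩⟩
  loopless := ⟨by
    rintro u (⟨i, hi, h1, h2, h3⟩ | ⟨i, hi, h1, h3⟩ | ⟨j, hj, h⟩)
    · exact h3.ne rfl
    · exact h3.ne rfl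
    · rcases h with h | h
      · exact hab j hj (h.1.symm.trans h.2)
      · exact hab j hj (h.2.symm.trans h.1)⟩

/-- From routing to an immersion through the linked graph. -/
lemma linked {H G : SimpleGraph V} (hGH : G ≤ H) {Ws : Finset V} {k N q' l : ℕ}
    {Sx : ℕ → Finset V} {C : ℕ → Finset (Sym2 V)} {xa xb : ℕ → V} {al be : ℕ → ℕ}
    (hdis : ∀ i < N, ∀ i' < N, i ≠ i' → Disjoint (Sx i) (Sx i'))
    (hW : ∀ i < N, Disjoint (Sx i) Ws)
    (hal : ∀ j < q', al j < N) (hbe : ∀ j < q', be j < N)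
    (hne : ∀ i < q', ∀ j < q', al i ≠ be j)
    (hinj : ∀ i < q', ∀ j < q', al i = al j → be i = be j → i = j)
    (hlink : ∀ j < q', xa j ∈ Sx (al j) ∧ xb j ∈ Sx (be j) ∧ ConnL H (xa j) (xb j) (C j) l)
    (hl : 1 ≤ l) (hC : ∀ i < q', ∀ j < q', i ≠ j → Disjoint (C i) (C j))
    (hCE : ∀ j < q', ∀ i < N, ∀ u v, G.Adj u v → u ∈ Sx i → (v ∈ Sx i ∨ v ∈ Ws) → s(u, v) ∉ C j)
    (hX : 0 < ∑ i ∈ range N, (Sx i).card)
    (hdense : sInf (immSet k) * ((∑ i ∈ range N, (Sx i).card : ℕ) + Ws.card : ℝ) <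
      ((∑ i ∈ range N, (inn G (Sx i) + 2 * (darts G (Sx i) Ws).card) + 2 * q' : ℕ) : ℝ))
    (hσ : 0 ≤ sInf (immSet k)) :
    ImmKB H k (k + 2 * ((∑ i ∈ range N, (inn G (Sx i) + (darts G (Sx i) Ws).card) + q') * l)) := by
  classical
  have hab' : ∀ i < q', ∀ j < q', xa i ≠ xb j := by
    intro i hi j hj h
    have h1 := (hlink i hi).1
    have h2 := (hlink j hj).2.1
    rw [h] at h1
    exact disjoint_left.1 (hdis (al i) (hal i hi) (be j) (hbe j hj) (hne i hi j hj)) h1 h2
  have hab : ∀ j < q', xa j ≠ xb j := fun j hj => hab' j hj j hj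
  set F0 := linkG G Ws N q' Sx xa xb hab with hF0
  -- index of a vertex
  have hidx : ∀ i < N, ∀ i' < N, ∀ v, v ∈ Sx i → v ∈ Sx i' → i = i' := by
    intro i hi i' hi' v h1 h2
    by_contra h
    exact disjoint_left.1 (hdis i hi i' hi' h) h1 h2
  have hxa : ∀ i < q', ∀ j < q', xa i = xa j → al i = al j := by
    intro i hi j hj h
    have h1 := (hlink i hi).1
    rw [h] at h1
    exact hidx _ (hal i hi) _ (hal j hj) _ h1 (hlink j hj).1
  have hxb : ∀ i < q', ∀ j < q', xb i = xb j → be i = be j := by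
    intro i hi j hj h
    have h1 := (hlink i hi).2.1
    rw [h] at h1
    exact hidx _ (hbe i hi) _ (hbe j hj) _ h1 (hlink j hj).2.1
  have hsinj : ∀ i < q', ∀ j < q', s(xa i, xb i) = s(xa j, xb j) → i = j := by
    intro i hi j hj h
    rw [Sym2.eq_iff] at h
    rcases h with ⟨h1, h2⟩ | ⟨h1, _⟩
    · exact hinj i hi j hj (hxa i hi j hj h1) (hxb i hi j hj h2)
    · exact absurd h1 (hab' i hi j hj)
  let X0 : Finset V := (range N).biUnion Sx ∪ Ws
  have hSxX0 : ∀ i < N, Sx i ⊆ X0 := by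
    intro i hi v hv
    exact mem_union_left _ (mem_biUnion.2 ⟨i, mem_range.2 hi, hv⟩)
  have hWsX0 : Ws ⊆ X0 := subset_union_right
  -- counting the darts of F0
  let D1 : ℕ → Finset (V × V) := fun i => darts G (Sx i) (Sx i) ∪ (darts G (Sx i) Ws ∪ darts G Ws (Sx i))
  let D2 : Finset (V × V) := (range q').image (fun j => (xa j, xb j))
  let D3 : Finset (V × V) := (range q').image (fun j => (xb j, xa j))
  have hD1c : ∀ i < N, (D1 i).card = inn G (Sx i) + 2 * (darts G (Sx i) Ws).card := by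
    intro i hi
    have hWi := hW i hi
    simp only [D1]
    rw [card_union_of_disjoint, card_union_of_disjoint, card_darts_swap G Ws (Sx i)]
    · unfold inn; ring
    · rw [disjoint_left]
      intro p hp hp'
      rw [mem_darts] at hp hp'
      exact disjoint_left.1 hWi hp.1.1 hp'.1.1
    · rw [disjoint_left]
      intro p hp hp'
      rw [mem_darts] at hp
      rw [mem_union, mem_darts, mem_darts] at hp'
      rcases hp' with h | h
      · exact disjoint_left.1 hWi hp.1.2 h.1.2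
      · exact disjoint_left.1 hWi hp.1.1 h.1.1
  have hD1m : ∀ i p, p ∈ D1 i → (p.1 ∈ Sx i ∨ p.2 ∈ Sx i) ∧ (p.1 ∈ Sx i ∨ p.1 ∈ Ws) ∧
      (p.2 ∈ Sx i ∨ p.2 ∈ Ws) := by
    intro i p hp
    simp only [D1, mem_union, mem_darts] at hp
    tauto
  have hWnot : ∀ i < N, ∀ v, v ∈ Sx i → v ∉ Ws := fun i hi v h1 h2 => disjoint_left.1 (hW i hi) h1 h2
  have hsumD1 : ((range N).biUnion D1).card
      = ∑ i ∈ range N, (inn G (Sx i) + 2 * (darts G (Sx i) Ws).card) := by
    rw [card_biUnion]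
    · apply sum_congr rfl
      intro i hi
      exact hD1c i (mem_range.1 hi)
    · intro i hi i' hi' hii
      change Disjoint (D1 i) (D1 i')
      rw [disjoint_left]
      intro p hp hp'
      have hi := mem_range.1 hi
      have hi' := mem_range.1 hi'
      obtain ⟨h1, h2, h3⟩ := hD1m i p hp
      obtain ⟨k1, k2, k3⟩ := hD1m i' p hp'
      rcases h1 with h1 | h1
      · rcases k2 with k2 | k2
        · exact hii (hidx i hi i' hi' _ h1 k2)
        · exact hWnot i hi _ h1 k2
      · rcases k3 with k3 | k3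
        · exact hii (hidx i hi i' hi' _ h1 k3)
        · exact hWnot i hi _ h1 k3
  have hD2c : D2.card = q' := by
    simp only [D2]
    rw [card_image_of_injOn, card_range]
    intro i hi j hj h
    have hi := mem_range.1 (mem_coe.1 hi)
    have hj := mem_range.1 (mem_coe.1 hj)
    simp only [Prod.mk.injEq] at h
    exact hinj i hi j hj (hxa i hi j hj h.1) (hxb i hi j hj h.2)
  have hD3c : D3.card = q' := by
    simp only [D3]
    rw [card_image_of_injOn, card_range]
    intro i hi j hj h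
    have hi := mem_range.1 (mem_coe.1 hi)
    have hj := mem_range.1 (mem_coe.1 hj)
    simp only [Prod.mk.injEq] at h
    exact hinj i hi j hj (hxa i hi j hj h.2) (hxb i hi j hj h.1)
  have hnot1 : ∀ i < N, ∀ j < q', (xa j, xb j) ∉ D1 i ∧ (xb j, xa j) ∉ D1 i := by
    intro i hi j hj
    have ha := (hlink j hj).1
    have hb := (hlink j hj).2.1
    have hna : xa j ∉ Ws := hWnot _ (hal j hj) _ ha
    have hnb : xb j ∉ Ws := hWnot _ (hbe j hj) _ hb
    constructor
    · intro h
      obtain ⟨_, h2, h3⟩ := hD1m i _ h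
      have h2' : xa j ∈ Sx i := h2.resolve_right hna
      have h3' : xb j ∈ Sx i := h3.resolve_right hnb
      exact hne j hj j hj ((hidx _ (hal j hj) _ hi _ ha h2').trans (hidx _ hi _ (hbe j hj) _ h3' hb))
    · intro h
      obtain ⟨_, h2, h3⟩ := hD1m i _ h
      have h2' : xb j ∈ Sx i := h2.resolve_right hnb
      have h3' : xa j ∈ Sx i := h3.resolve_right hna
      exact hne j hj j hj ((hidx _ (hal j hj) _ hi _ ha h3').trans (hidx _ hi _ (hbe j hj) _ h2' hb))
  have hcount : ∑ i ∈ range N, (inn G (Sx i) + 2 * (darts G (Sx i) Ws).card) + 2 * q'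
      ≤ inn F0 X0 := by
    have h1 : (range N).biUnion D1 ∪ (D2 ∪ D3) ⊆ darts F0 X0 X0 := by
      intro p hp
      rw [mem_union, mem_union] at hp
      rw [mem_darts]
      rcases hp with hp | hp | hp
      · rw [mem_biUnion] at hp
        obtain ⟨i, hi, hp⟩ := hp
        have hi := mem_range.1 hi
        obtain ⟨_, h2, h3⟩ := hD1m i p hp
        refine ⟨⟨?_, ?_⟩, ?_⟩
        · rcases h2 with h2 | h2
          · exact hSxX0 i hi h2
          · exact hWsX0 h2
        · rcases h3 with h3 | h3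
          · exact hSxX0 i hi h3
          · exact hWsX0 h3
        · simp only [D1, mem_union, mem_darts] at hp
          rcases hp with hp | hp | hp
          · exact Or.inl ⟨i, hi, hp.1.1, hp.1.2, hp.2⟩
          · exact Or.inr (Or.inl ⟨i, hi, Or.inl hp.1, hp.2⟩)
          · exact Or.inr (Or.inl ⟨i, hi, Or.inr ⟨hp.1.2, hp.1.1⟩, hp.2⟩)
      · rw [mem_image] at hp
        obtain ⟨j, hj, rfl⟩ := hp
        have hj := mem_range.1 hj
        exact ⟨⟨hSxX0 _ (hal j hj) (hlink j hj).1, hSxX0 _ (hbe j hj) (hlink j hj).2.1⟩,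
          Or.inr (Or.inr ⟨j, hj, Or.inl ⟨rfl, rfl⟩⟩)⟩
      · rw [mem_image] at hp
        obtain ⟨j, hj, rfl⟩ := hp
        have hj := mem_range.1 hj
        exact ⟨⟨hSxX0 _ (hbe j hj) (hlink j hj).2.1, hSxX0 _ (hal j hj) (hlink j hj).1⟩,
          Or.inr (Or.inr ⟨j, hj, Or.inr ⟨rfl, rfl⟩⟩)⟩
    have h2 := card_le_card h1
    rw [card_union_of_disjoint, card_union_of_disjoint, hsumD1, hD2c, hD3c] at h2
    · unfold inn at h2 ⊢
      omega
    · rw [disjoint_left]
      intro p hp hp'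
      rw [mem_image] at hp hp'
      obtain ⟨j, hj, rfl⟩ := hp
      obtain ⟨j', hj', h⟩ := hp'
      simp only [Prod.mk.injEq] at h
      exact hab' j (mem_range.1 hj) j' (mem_range.1 hj') h.1.symm
    · rw [disjoint_left]
      intro p hp hp'
      rw [mem_biUnion] at hp
      obtain ⟨i, hi, hp⟩ := hp
      rw [mem_union, mem_image, mem_image] at hp'
      rcases hp' with ⟨j, hj, rfl⟩ | ⟨j, hj, rfl⟩
      · exact (hnot1 i (mem_range.1 hi) j (mem_range.1 hj)).1 hp
      · exact (hnot1 i (mem_range.1 hi) j (mem_range.1 hj)).2 hp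
  have hX0c : X0.card ≤ ∑ i ∈ range N, (Sx i).card + Ws.card :=
    (card_union_le _ _).trans (Nat.add_le_add_right card_biUnion_le _)
  have hX0ne : X0.Nonempty := by
    obtain ⟨i, hi, hpos⟩ : ∃ i ∈ range N, 0 < (Sx i).card := by
      by_contra hcon
      push Not at hcon
      have : ∑ i ∈ range N, (Sx i).card = 0 := by
        apply sum_eq_zero
        intro i hi
        have := hcon i hi
        omega
      omega
    obtain ⟨v, hv⟩ := card_pos.1 hpos
    exact ⟨v, hSxX0 i (mem_range.1 hi) hv⟩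
  have himm : ImmK F0 k := by
    apply immK_of_dense (immSet_nonempty k) F0 X0 hX0ne
    have h1 : (X0.card : ℝ) ≤ ((∑ i ∈ range N, (Sx i).card : ℕ) + Ws.card : ℝ) := by
      exact_mod_cast hX0c
    have h2 := mul_le_mul_of_nonneg_left h1 hσ
    have h3 : ((∑ i ∈ range N, (inn G (Sx i) + 2 * (darts G (Sx i) Ws).card) + 2 * q' : ℕ) : ℝ)
      ≤ (inn F0 X0 : ℝ) := by exact_mod_cast hcount
    linarith
  -- the links of the edges of F0
  let C' : Sym2 V → Finset (Sym2 V) := fun e =>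
    if h : ∃ j, j < q' ∧ e = s(xa j, xb j) then C h.choose else {e}
  have hC'link : ∀ j < q', C' s(xa j, xb j) = C j := by
    intro j hj
    have h : ∃ j', j' < q' ∧ s(xa j, xb j) = s(xa j', xb j') := ⟨j, hj, rfl⟩
    simp only [C', dif_pos h]
    exact congrArg C (hsinj j hj _ h.choose_spec.1 h.choose_spec.2).symm
  have hC'not : ∀ e, (¬ ∃ j, j < q' ∧ e = s(xa j, xb j)) → C' e = {e} := by
    intro e h
    simp only [C', dif_neg h]
  -- classification of the edges of F0
  have hclass : ∀ u v, F0.Adj u v → (∃ j, j < q' ∧ s(u, v) = s(xa j, xb j)) ∨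
      (G.Adj u v ∧ ∀ j < q', s(u, v) ∉ C j) := by
    rintro u v (⟨i, hi, h1, h2, h3⟩ | ⟨i, hi, h1, h3⟩ | ⟨j, hj, h⟩)
    · exact Or.inr ⟨h3, fun j hj => hCE j hj i hi u v h3 h1 (Or.inl h2)⟩
    · refine Or.inr ⟨h3, fun j hj => ?_⟩
      rcases h1 with h1 | h1
      · exact hCE j hj i hi u v h3 h1.1 (Or.inr h1.2)
      · rw [Sym2.eq_swap]
        exact hCE j hj i hi v u h3.symm h1.1 (Or.inr h1.2)
    · left
      refine ⟨j, hj, ?_⟩
      rcases h with h | h
      · rw [h.1, h.2]
      · rw [h.1, h.2, Sym2.eq_swap]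
  let EF : Finset (Sym2 V) := (range N).biUnion (fun i =>
      (darts G (Sx i) (Sx i)).image (fun p => s(p.1, p.2)) ∪
      (darts G (Sx i) Ws).image (fun p => s(p.1, p.2))) ∪
    (range q').image (fun j => s(xa j, xb j))
  have hEF : ∀ e ∈ F0.edgeSet, e ∈ EF := by
    intro e
    induction e using Sym2.ind with
    | _ u v =>
      rintro (⟨i, hi, h1, h2, h3⟩ | ⟨i, hi, h1, h3⟩ | ⟨j, hj, h⟩)
      · apply mem_union_left
        rw [mem_biUnion]
        refine ⟨i, mem_range.2 hi, mem_union_left _ (mem_image.2 ⟨(u, v), ?_, rfl⟩)⟩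
        rw [mem_darts]; exact ⟨⟨h1, h2⟩, h3⟩
      · apply mem_union_left
        rw [mem_biUnion]
        refine ⟨i, mem_range.2 hi, mem_union_right _ (mem_image.2 ?_)⟩
        rcases h1 with h1 | h1
        · exact ⟨(u, v), mem_darts.2 ⟨h1, h3⟩, rfl⟩
        · exact ⟨(v, u), mem_darts.2 ⟨h1, h3.symm⟩, Sym2.eq_swap⟩
      · apply mem_union_right
        rw [mem_image]
        refine ⟨j, mem_range.2 hj, ?_⟩
        simp only at h
        rcases h with h | h
        · rw [h.1, h.2]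
        · rw [h.1, h.2, Sym2.eq_swap]
  have hEFc : EF.card ≤ ∑ i ∈ range N, (inn G (Sx i) + (darts G (Sx i) Ws).card) + q' := by
    refine (card_union_le _ _).trans (Nat.add_le_add ?_ ?_)
    · refine card_biUnion_le.trans (sum_le_sum ?_)
      intro i _
      exact (card_union_le _ _).trans (Nat.add_le_add card_image_le card_image_le)
    · exact card_image_le.trans (by rw [card_range])
  have hh1 : ∀ u v, F0.Adj u v → ConnL H u v (C' s(u, v)) l := by
    intro u v huv
    rcases hclass u v huv with ⟨j, hj, h⟩ | ⟨h1, _⟩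
    · rw [h, hC'link j hj]
      have hc := (hlink j hj).2.2
      rw [Sym2.eq_iff] at h
      rcases h with ⟨h1, h2⟩ | ⟨h1, h2⟩
      · rw [h1, h2]; exact hc
      · rw [h1, h2]; exact hc.symm
    · by_cases hlk : ∃ j, j < q' ∧ s(u, v) = s(xa j, xb j)
      · obtain ⟨j, hj, h⟩ := hlk
        rw [h, hC'link j hj]
        have hc := (hlink j hj).2.2
        rw [Sym2.eq_iff] at h
        rcases h with ⟨h1, h2⟩ | ⟨h1, h2⟩
        · rw [h1, h2]; exact hc
        · rw [h1, h2]; exact hc.symm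
      · rw [hC'not _ hlk]
        exact ⟨SimpleGraph.Walk.cons (hGH h1) SimpleGraph.Walk.nil, by simp, by simpa using hl⟩
  have hh2 : ∀ e ∈ F0.edgeSet, ∀ e' ∈ F0.edgeSet, e ≠ e' → Disjoint (C' e) (C' e') := by
    intro e he e' he' hee
    by_cases hlk : ∃ j, j < q' ∧ e = s(xa j, xb j)
    · obtain ⟨j, hj, rfl⟩ := hlk
      rw [hC'link j hj]
      by_cases hlk' : ∃ j, j < q' ∧ e' = s(xa j, xb j)
      · obtain ⟨j', hj', rfl⟩ := hlk'
        rw [hC'link j' hj']
        exact hC j hj j' hj' (fun h => hee (by rw [h]))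
      · rw [hC'not _ hlk', disjoint_singleton_right]
        induction e' using Sym2.ind with
        | _ u v =>
          rcases hclass u v he' with h | h
          · exact absurd h hlk'
          · exact h.2 j hj
    · rw [hC'not _ hlk]
      by_cases hlk' : ∃ j, j < q' ∧ e' = s(xa j, xb j)
      · obtain ⟨j', hj', rfl⟩ := hlk'
        rw [hC'link j' hj', disjoint_singleton_left]
        induction e using Sym2.ind with
        | _ u v =>
          rcases hclass u v he with h | h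
          · exact absurd h hlk
          · exact h.2 j' hj'
      · rw [hC'not _ hlk', disjoint_singleton]
        exact hee
  obtain ⟨f, hf, P, hP1, hP2, hP3⟩ := compose (C := C') (l := l) EF hEF hh1 hh2 himm
  refine ⟨f, hf, P, hP1, hP2, hP3.trans ?_⟩
  have := Nat.mul_le_mul_right l hEFc
  omega

end Pool.Agent.H21.Imm
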