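import Pool.Agent.H21.Imm.CaseTwo

set_option autoImplicit false
set_option linter.unusedSectionVars false

namespace Pool.Agent.H21.Imm

open Finset

variable {V : Type} [Fintype V] [DecidableEq V]

/-- Expansion of critical sets. -/
lemma expansion {n : Nums} {H G0 : SimpleGraph V} {V' : Finset V} {x δ : ℝ} {y : ℕ → V}
    {Z : ℕ → Finset (Sym2 V)} (ctx : Ctx n H V' x δ y Z) (hG0 : G0 ≤ H) {ω : V → ℝ}
    (hω : ∀ v, δ - 1 / (2 * n.J * n.e) ≤ ω v)
    (hcrit : ∀ X ⊆ V', ∑ v ∈ X, ω v ≤ (inn G0 X : ℝ) + 2 * (bd (res G0 V') X : ℝ)) :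
    (∀ X ⊆ V', (X.card : ℝ) ≤ x ^ (n.e - 1) →
      1 / (n.C : ℝ) * X.card ≤ (bd (res G0 V') X : ℝ)) ∧
    (∀ X ⊆ V', (X.card : ℝ) ≤ x ^ (4 * n.q + 4) →
      1 / (8 * n.J : ℝ) * X.card ≤ (bd (res G0 V') X : ℝ)) := by
  have hJ : (0 : ℝ) < n.J := by exact_mod_cast n.hJ
  have he8 : (8 : ℝ) ≤ n.e := by exact_mod_cast n.e_pos
  have he : (0 : ℝ) < n.e := by linarith
  have hsum : ∀ X : Finset V, (δ - 1 / (2 * n.J * n.e)) * X.card ≤ ∑ v ∈ X, ω v := by
    intro X
    have := card_nsmul_le_sum X ω (δ - 1 / (2 * n.J * n.e)) (fun v _ => hω v)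
    rw [nsmul_eq_mul] at this
    linarith
  have hinn : ∀ X : Finset V, (inn G0 X : ℝ) ≤ inn H X := by
    intro X; exact_mod_cast inn_mono hG0 (Subset.refl X)
  constructor
  · intro X hX hXc
    have h1 := ctx.a2 1 (by omega) X hX hXc
    have h2 := hcrit X hX
    have h3 := hsum X
    have h4 := hinn X
    have h5 : (0 : ℝ) ≤ X.card := Nat.cast_nonneg _
    have h6 : 1 / (n.C : ℝ) = 1 / (4 * n.J * n.e) := by
      unfold Nums.C; push_cast; rfl
    rw [h6]
    have h7 : 1 / ((n.e : ℝ) * n.J) = 4 * (1 / (4 * n.J * n.e)) := by field_simp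
    have h8 : 1 / (2 * (n.J : ℝ) * n.e) = 2 * (1 / (4 * n.J * n.e)) := by field_simp; norm_num
    push_cast at h1
    rw [h7] at h1
    rw [h8] at h3
    linarith
  · intro X hX hXc
    have heq : n.e - (4 * n.q + 4) = 4 * n.q + 4 := by unfold Nums.e; omega
    have h1 := ctx.a2 (4 * n.q + 4) le_rfl X hX (by rw [heq]; exact hXc)
    have h2 := hcrit X hX
    have h3 := hsum X
    have h4 := hinn X
    have h5 : (0 : ℝ) ≤ X.card := Nat.cast_nonneg _
    have h7 : ((4 * n.q + 4 : ℕ) : ℝ) / (n.e * n.J) = 4 * (1 / (8 * n.J)) := by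
      have : (n.e : ℝ) = 2 * ((4 * n.q + 4 : ℕ) : ℝ) := by
        unfold Nums.e; push_cast; ring
      rw [this]
      have h9 : (0 : ℝ) < ((4 * n.q + 4 : ℕ) : ℝ) := by positivity
      field_simp
      norm_num
    rw [h7] at h1
    have h8 : 1 / (2 * (n.J : ℝ) * n.e) ≤ 2 * (1 / (8 * n.J)) := by
      have h9 : 2 * (1 / (8 * (n.J : ℝ))) = 1 / (2 * n.J * 2) := by field_simp; norm_num
      rw [h9]
      apply one_div_le_one_div_of_le (by positivity)
      apply mul_le_mul_of_nonneg_left (by linarith) (by positivity)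
    have h9 := mul_le_mul_of_nonneg_right h8 h5
    linarith

/-- The main combinatorial theorem. -/
theorem main_comb (n : Nums) (H : SimpleGraph V) {V0 : Finset V} (hne : V0.Nonempty) {x δ : ℝ}
    (hx : (n.Z : ℝ) ^ 4 ≤ x) (hxm : x ^ n.e = V0.card)
    (hl : (n.DD : ℝ) * V0.card ≤ Real.exp n.l) (hδ : δ ≤ n.DD)
    (hδ0 : δ * V0.card ≤ (inn H V0 : ℝ))
    (a2 : ∀ i ≤ 4 * n.q + 4, ∀ X ⊆ V0, (X.card : ℝ) ≤ x ^ (n.e - i) →
      (inn H X : ℝ) ≤ (δ - i / (n.e * n.J)) * X.card)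
    (hσ0 : 0 ≤ sInf (immSet n.k))
    (hσ : sInf (immSet n.k) * (1 + 1 / (2 * n.Tn)) + 1 / n.Ln + 1 / n.J < δ) :
    ImmKB H n.k n.B := by
  classical
  have hJ : (0 : ℝ) < n.J := by exact_mod_cast n.hJ
  have he8 : (8 : ℝ) ≤ n.e := by exact_mod_cast n.e_pos
  have he : (0 : ℝ) < n.e := by linarith
  have hK : (0 : ℝ) < n.K := by exact_mod_cast n.K_pos
  have hDD : (0 : ℝ) < n.DD := by exact_mod_cast n.hDD
  have hx1 := n.x_ge_one hx
  have hx0 : 0 < x := by linarith
  have hKeq : (n.K : ℝ) = 2 * n.J * (2 * n.q + 1) * n.e := by unfold Nums.K; push_cast; ring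
  set κ : ℝ := 1 / n.K with hκ
  have hκ0 : 0 < κ := by positivity
  have hκq : κ * (2 * n.q + 1) = 1 / (2 * n.J * n.e) := by
    rw [hκ, hKeq]
    have : (0 : ℝ) < 2 * n.q + 1 := by positivity
    field_simp
  have hdens : ∀ X ⊆ V0, (inn H X : ℝ) ≤ δ * X.card := by
    intro X hX
    have h := a2 0 (Nat.zero_le _) X hX (by
      rw [Nat.sub_zero, hxm]; exact_mod_cast card_le_card hX)
    simpa using h
  -- small sets are not dense
  have hlow : ∀ X ⊆ V0, X.Nonempty → (δ - 2 * κ * n.q - κ) * X.card ≤ (inn H X : ℝ) →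
      x ^ (6 * n.q + 6) ≤ X.card := by
    intro X hX hXne h
    by_contra hcon
    push Not at hcon
    have heq : n.e - (2 * n.q + 2) = 6 * n.q + 6 := by unfold Nums.e; omega
    have h1 := a2 (2 * n.q + 2) (by omega) X hX (by rw [heq]; exact hcon.le)
    have h2 : (0 : ℝ) < X.card := by exact_mod_cast card_pos.2 hXne
    have h3 := le_of_mul_le_mul_right (h.trans h1) h2
    have h4 : 2 * κ * n.q + κ = 1 / (2 * n.J * n.e) := by rw [← hκq]; ring
    have h5 : ((2 * n.q + 2 : ℕ) : ℝ) / (n.e * n.J) = (2 * (2 * n.q + 2)) * (1 / (2 * n.J * n.e)) := by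
      push_cast
      field_simp
    rw [h5] at h3
    have h6 : 0 < 1 / (2 * (n.J : ℝ) * n.e) := by positivity
    have h7 : (0 : ℝ) ≤ n.q := Nat.cast_nonneg _
    nlinarith
  -- hubs
  let A : ℕ → ℕ := fun s => ⌈x ^ (6 * n.q + 8 + 2 * s)⌉₊
  have hA1 : ∀ s, x ^ (6 * n.q + 8 + 2 * s) ≤ (A s : ℝ) := fun s => Nat.le_ceil _
  have hA2 : ∀ s, (A s : ℝ) ≤ 2 * x ^ (6 * n.q + 8 + 2 * s) := by
    intro s
    have h1 : 1 ≤ x ^ (6 * n.q + 8 + 2 * s) := one_le_pow₀ hx1
    have h2 := (Nat.ceil_lt_add_one (by linarith : 0 ≤ x ^ (6 * n.q + 8 + 2 * s))).le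
    simp only [A]
    linarith
  have hA0 : ∀ s, 0 < A s := by
    intro s
    have h1 : 0 < x ^ (6 * n.q + 8 + 2 * s) := by positivity
    exact Nat.ceil_pos.2 h1
  have hNP := n.NP_le_Z
  have hQm := n.Qm_le_NP
  have hQt := n.Qt_le
  have hLW := n.L_le_W
  have hWQ := n.W_le_Qm
  have hKL := n.K_le_L
  have hK1 := n.K_pos
  have hZ1 := n.Z_pos
  have hLx : 2 * ((n.L : ℝ) + 1) * n.K ≤ x := by
    have h1 : 2 * (n.L + 1) * n.K ≤ n.Z ^ 4 := by
      calc 2 * (n.L + 1) * n.K ≤ n.Z * n.Z := by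
            apply Nat.mul_le_mul <;> omega
        _ = n.Z ^ 2 := by ring
        _ ≤ n.Z ^ 4 := Nat.pow_le_pow_right hZ1 (by norm_num)
    have h2 := n.cast_le_x hx h1
    push_cast at h2
    exact h2
  have hQx : 4 * ((n.Qt : ℝ) + n.q * (n.L + 1)) < x := by
    have h1 : 4 * (n.Qt + n.q * (n.L + 1)) + 1 ≤ n.Z ^ 4 := by
      have h2 := n.Qm_ge2
      have h3 : n.q * (n.L + 1) ≤ n.q * n.W := Nat.mul_le_mul_left _ (by omega)
      have h4 : n.Z ≤ n.Z ^ 4 := Nat.le_self_pow (by norm_num) _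
      omega
    have h2 := n.cast_le_x hx h1
    push_cast at h2
    linarith
  have hmpos : (0 : ℝ) < V0.card := by exact_mod_cast card_pos.2 hne
  have hT : (n.DD : ℝ) * V0.card < 2 * (1 + κ / n.DD) ^ n.L := by
    have h1 := n.pow_L hl
    have h2 : κ / (n.DD : ℝ) = 1 / ((n.DD * n.K : ℕ) : ℝ) := by
      rw [hκ]; push_cast; field_simp
    rw [h2]; exact h1
  have hden' : ∀ X ⊆ V0, (inn H X : ℝ) ≤ n.DD * X.card := fun X hX =>
    (hdens X hX).trans (mul_le_mul_of_nonneg_right hδ (Nat.cast_nonneg _))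
  obtain ⟨U, hU0, hUne, y, Z, hUd, hhub⟩ := hubs H hne (ρ := δ) (κ := κ) (Δ := n.DD) hκ0 hDD
    hden' hδ0 (T := n.L) hT n.q A hA0 (Ml := x ^ (6 * n.q + 6)) hlow
    (by
      intro s hs
      have h1 : x * x ^ n.e ≤ x ^ (6 * n.q + 6) * A s := by
        calc x * x ^ n.e = x ^ (n.e + 1) := by ring
          _ ≤ x ^ (6 * n.q + 6 + (6 * n.q + 8 + 2 * s)) := by
            apply pow_le_pow_right₀ hx1
            unfold Nums.e; omega
          _ = x ^ (6 * n.q + 6) * x ^ (6 * n.q + 8 + 2 * s) := by rw [pow_add]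
          _ ≤ _ := mul_le_mul_of_nonneg_left (hA1 s) (by positivity)
      have h2 : 2 * ((n.L : ℝ) + 1) ≤ κ * x := by
        rw [hκ, one_div, ← div_eq_inv_mul, le_div_iff₀ hK]
        exact hLx
      rw [← hxm]
      calc 2 * ((n.L : ℝ) + 1) * x ^ n.e ≤ κ * x * x ^ n.e :=
            mul_le_mul_of_nonneg_right h2 (by positivity)
        _ = κ * (x * x ^ n.e) := by ring
        _ ≤ κ * (x ^ (6 * n.q + 6) * A s) := mul_le_mul_of_nonneg_left h1 hκ0.le
        _ = _ := by ring)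
    (R := x ^ 2 / 2) (M2 := x ^ (n.e - 1) / 2) (by positivity)
    (by
      intro j hj i hi
      calc (A i : ℝ) * (x ^ 2 / 2) ≤ 2 * x ^ (6 * n.q + 8 + 2 * i) * (x ^ 2 / 2) :=
            mul_le_mul_of_nonneg_right (hA2 i) (by positivity)
        _ = x ^ (6 * n.q + 8 + 2 * i + 2) := by rw [pow_add _ _ 2]; ring
        _ ≤ x ^ (6 * n.q + 8 + 2 * j) := pow_le_pow_right₀ hx1 (by omega)
        _ ≤ _ := hA1 j)
    (by
      intro j hj
      rw [← hxm]
      calc (A j : ℝ) * (x ^ 2 / 2) ≤ 2 * x ^ (6 * n.q + 8 + 2 * j) * (x ^ 2 / 2) :=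
            mul_le_mul_of_nonneg_right (hA2 j) (by positivity)
        _ = x ^ (6 * n.q + 8 + 2 * j + 2) := by rw [pow_add _ _ 2]; ring
        _ ≤ x ^ n.e := by
          apply pow_le_pow_right₀ hx1
          unfold Nums.e; omega)
    (Qt := n.Qt)
    (by
      rw [← hxm]
      have h1 : x ^ (n.e - 1) / 2 * (x ^ 2 / 2) = x / 4 * x ^ n.e := by
        have h2 : n.e = (n.e - 1) + 1 := by have := n.e_pos; omega
        have h3 : x ^ n.e = x ^ (n.e - 1) * x := by
          conv_lhs => rw [h2, pow_succ]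
        rw [h3]; ring
      rw [h1]
      apply mul_lt_mul_of_pos_right _ (by positivity)
      linarith)
  set G0 := del H (allZ Z n.q) with hG0
  have hG0H : G0 ≤ H := del_le _ _
  -- context
  have ctx0 : Ctx n H U x δ y Z := by
    refine ⟨hhub, hx, ?_, ?_, hδ, ?_⟩
    · rw [hxm]; exact hl
    · rw [hxm]; exact_mod_cast card_le_card hU0
    · intro i hi X hX hXc
      exact a2 i hi X (hX.trans hU0) hXc
  -- first critical set
  obtain ⟨V1, hV1, hV1ne, hV1d, hV1c⟩ := exists_critical G0 (fun _ => δ - 2 * κ * n.q) hUne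
    (by rw [sum_const, nsmul_eq_mul, mul_comm]; exact hUd)
  rw [sum_const, nsmul_eq_mul, mul_comm] at hV1d
  have ctx1 := ctx0.mono hV1
  have hκe : δ - 1 / (2 * n.J * n.e) = δ - 2 * κ * n.q - κ := by rw [← hκq]; ring
  obtain ⟨hex1, hex1'⟩ := expansion ctx1 hG0H (ω := fun _ => δ - 2 * κ * n.q)
    (by intro v; rw [hκe]; linarith) hV1c
  have hGres : ∀ V' : Finset V, ∀ u v, (res G0 V').Adj u v →
      (u ∈ V' ∧ v ∈ V') ∧ H.Adj u v ∧ s(u, v) ∉ allZ Z n.q := by
    intro V' u v h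
    exact ⟨h.1, h.2⟩
  set G1 := res G0 V1 with hG1
  set W1 := V1.filter (fun v => n.D0 ≤ bd G1 {v}) with hW1
  by_cases hcase : n.NP ≤ W1.card
  · obtain ⟨W1', hW1', hW1c⟩ := exists_subset_card_eq hcase
    exact case_one ctx1 (hGres V1) hex1 hex1' (W1 := W1')
      (hW1'.trans (filter_subset _ _)) (fun v hv => (mem_filter.1 (hW1' hv)).2) hW1c
  · push Not at hcase
    set Pp : ℝ := ((2 * (n.D0 * n.NP + 1) : ℕ) : ℝ) with hPp
    have hPp0 : 0 ≤ Pp := Nat.cast_nonneg _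
    let ω : V → ℝ := fun v => δ - 2 * κ * n.q - κ + if v ∈ W1 then Pp else 0
    have hωsum : ∀ X : Finset V, ∑ v ∈ X, ω v = (δ - 2 * κ * n.q - κ) * X.card
        + Pp * (X ∩ W1).card := by
      intro X
      simp only [ω]
      rw [sum_add_distrib, sum_const, nsmul_eq_mul, sum_ite_mem, sum_const, nsmul_eq_mul]
      ring
    have hV1c' : x ^ (6 * n.q + 6) ≤ V1.card := by
      apply hlow V1 (hV1.trans hU0) hV1ne
      have h1 : (inn G0 V1 : ℝ) ≤ inn H V1 := by exact_mod_cast inn_mono hG0H (Subset.refl _)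
      have h2 : (0 : ℝ) ≤ V1.card := Nat.cast_nonneg _
      nlinarith
    have hpen : Pp * (W1.card : ℝ) ≤ κ * V1.card := by
      have h1 : ((2 * (n.D0 * n.NP + 1) * n.NP * n.K : ℕ) : ℝ) ≤ x ^ (6 * n.q + 6) := by
        apply n.cast_le_pow hx (by omega)
        have h2 : n.D0 * n.NP + 1 ≤ n.Z * n.Z := by
          have h3 := n.D0_le_s0
          have h4 := n.s0_le_Qm
          have h5 : n.D0 * n.NP ≤ n.NP * n.NP := Nat.mul_le_mul_right _ (by omega)
          have h6 : n.NP * n.NP + 1 ≤ (n.NP + 1) * (n.NP + 1) := by nlinarith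
          have h7 : (n.NP + 1) * (n.NP + 1) ≤ n.Z * n.Z := Nat.mul_le_mul (by omega) (by omega)
          omega
        have h3 : 2 * n.NP * n.K ≤ n.Z * n.Z := by
          apply Nat.mul_le_mul <;> omega
        calc 2 * (n.D0 * n.NP + 1) * n.NP * n.K = (n.D0 * n.NP + 1) * (2 * n.NP * n.K) := by ring
          _ ≤ (n.Z * n.Z) * (n.Z * n.Z) := Nat.mul_le_mul h2 h3
          _ = n.Z ^ 4 := by ring
      have h2 : (W1.card : ℝ) ≤ n.NP := by exact_mod_cast hcase.le
      have h3 : Pp * n.NP * n.K ≤ V1.card := by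
        refine le_trans (le_of_eq ?_) (h1.trans hV1c')
        rw [hPp]; push_cast; ring
      have h4 : Pp * (W1.card : ℝ) ≤ Pp * n.NP := mul_le_mul_of_nonneg_left h2 hPp0
      have h5 : Pp * n.NP ≤ κ * V1.card := by
        rw [hκ, one_div, ← div_eq_inv_mul, le_div_iff₀ hK]
        exact h3
      exact h4.trans h5
    obtain ⟨V2, hV2, hV2ne, hV2d, hV2c⟩ := exists_critical G0 ω hV1ne
      (by
        rw [hωsum]
        have h1 : V1 ∩ W1 = W1 := inter_eq_right.2 (filter_subset _ _)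
        rw [h1]
        linarith)
    rw [hωsum] at hV2d
    have ctx2 := ctx1.mono hV2
    obtain ⟨hex2, hex2'⟩ := expansion ctx2 hG0H (ω := ω)
      (by
        intro v
        rw [hκe]
        simp only [ω]
        split_ifs <;> linarith) hV2c
    set G2 := res G0 V2 with hG2
    have hG21 : G2 ≤ G1 := res_mono_set G0 hV2
    have hV2c' : x ^ (6 * n.q + 6) ≤ V2.card := by
      apply hlow V2 ((hV2.trans hV1).trans hU0) hV2ne
      have h1 : (inn G0 V2 : ℝ) ≤ inn H V2 := by exact_mod_cast inn_mono hG0H (Subset.refl _)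
      have h2 : 0 ≤ Pp * ((V2 ∩ W1).card : ℝ) := by positivity
      linarith
    have hWc : (V2 ∩ W1).card < n.NP := lt_of_le_of_lt (card_le_card inter_subset_right) hcase
    apply case_two ctx2 (hGres V2) hex2 hex2' (W := V2 ∩ W1) inter_subset_left hWc _ _
      (ρ := δ - 2 * κ * n.q - κ) (σ := sInf (immSet n.k)) _ hσ0 rfl _ _
    · -- sets meeting W
      intro X hX hXc hXW
      have h1 := hV2c X hX
      rw [hωsum] at h1
      have heq : n.e - (4 * n.q + 4) = 4 * n.q + 4 := by unfold Nums.e; omega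
      have h2 := ctx2.a2 (4 * n.q + 4) le_rfl X hX (by rw [heq]; exact hXc)
      have h3 : (inn G0 X : ℝ) ≤ inn H X := by exact_mod_cast inn_mono hG0H (Subset.refl _)
      have h4 : 1 ≤ (X ∩ W1).card := by
        rw [not_disjoint_iff] at hXW
        obtain ⟨v, hv, hv'⟩ := hXW
        exact card_pos.2 ⟨v, mem_inter.2 ⟨hv, (mem_inter.1 hv').2⟩⟩
      have h5 : (1 : ℝ) ≤ ((X ∩ W1).card : ℝ) := by exact_mod_cast h4
      have h6 : Pp ≤ Pp * ((X ∩ W1).card : ℝ) := le_mul_of_one_le_right hPp0 h5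
      have h7 : (0 : ℝ) ≤ X.card := Nat.cast_nonneg _
      have h8 : ((4 * n.q + 4 : ℕ) : ℝ) / (n.e * n.J) = 1 / (2 * n.J) := by
        have : (n.e : ℝ) = 2 * ((4 * n.q + 4 : ℕ) : ℝ) := by
          unfold Nums.e; push_cast; ring
        rw [this]
        have h9 : (0 : ℝ) < ((4 * n.q + 4 : ℕ) : ℝ) := by positivity
        field_simp
      have h9 : 1 / (2 * (n.J : ℝ) * n.e) ≤ 1 / (2 * n.J) := by
        apply one_div_le_one_div_of_le (by positivity)
        have : (2 * (n.J : ℝ)) * 1 ≤ 2 * n.J * n.e :=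
          mul_le_mul_of_nonneg_left (by linarith) (by positivity)
        linarith
      rw [h8] at h2
      have h10 : (δ - 1 / (2 * n.J)) * (X.card : ℝ) ≤ (δ - 2 * κ * n.q - κ) * X.card := by
        apply mul_le_mul_of_nonneg_right _ h7
        rw [← hκe]
        linarith
      have h11 : Pp = 2 * ((n.D0 * n.NP + 1 : ℕ) : ℝ) := by rw [hPp]; push_cast; ring
      rw [h11] at h6 h1
      have h12 : 2 * ((n.D0 * n.NP + 1 : ℕ) : ℝ) ≤ 2 * (bd (res G0 V2) X : ℝ) := by linarith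
      linarith
    · -- degrees
      intro v hv
      rw [mem_sdiff, mem_inter] at hv
      have h1 : v ∉ W1 := fun h => hv.2 ⟨hv.1, h⟩
      have h2 : ¬ n.D0 ≤ bd G1 {v} := fun h => h1 (mem_filter.2 ⟨hV2 hv.1, h⟩)
      have h3 := bd_mono hG21 {v}
      change bd G2 {v} ≤ n.D0
      omega
    · -- density
      have h1 : (inn G0 V2 : ℝ) = inn (res G0 V2) V2 := by
        have : darts G0 V2 V2 = darts (res G0 V2) V2 V2 := by
          ext p
          rw [mem_darts, mem_darts, res_adj]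
          tauto
        unfold inn
        rw [this]
      have h2 : (n.NP : ℝ) ≤ Pp := by
        rw [hPp]
        have h3 : n.NP ≤ 2 * (n.D0 * n.NP + 1) := by
          have := n.D0_pos
          nlinarith
        exact_mod_cast h3
      have h3 := mul_le_mul_of_nonneg_right h2 (Nat.cast_nonneg (V2 ∩ W1).card)
      rw [← h1]
      linarith
    · -- the immersion threshold
      have h1 : κ * (2 * n.q + 1) ≤ 1 / n.J := by
        rw [hκq]
        apply one_div_le_one_div_of_le hJ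
        nlinarith
      linarith
    · -- size
      have h1 : V2 \ (V2 ∩ W1) = V2 \ W1 := by
        ext v; simp only [mem_sdiff, mem_inter]; tauto
      have h2 : V2.card ≤ (V2 \ W1).card + n.NP := by
        have h3 := le_card_sdiff W1 V2
        omega
      have h3 : (V2.card : ℝ) ≤ (V2 \ W1).card + n.NP := by exact_mod_cast h2
      have h4 : ((n.NP + 1 : ℕ) : ℝ) ≤ x ^ (2 * n.q + 2) := by
        apply n.cast_le_pow hx (by omega)
        have h4 : n.Z ≤ n.Z ^ 4 := Nat.le_self_pow (by norm_num) _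
        omega
      have h5 : x ^ (6 * n.q + 6) = x ^ (4 * n.q + 4) * x ^ (2 * n.q + 2) := by
        rw [← pow_add]; congr 1; ring
      have h6 : 1 ≤ x ^ (4 * n.q + 4) := one_le_pow₀ hx1
      have h7 : x ^ (4 * n.q + 4) * ((n.NP + 1 : ℕ) : ℝ) ≤ x ^ (4 * n.q + 4) * x ^ (2 * n.q + 2) :=
        mul_le_mul_of_nonneg_left h4 (by positivity)
      push_cast at h7
      have h8 : (n.NP : ℝ) ≤ x ^ (4 * n.q + 4) * n.NP := by
        have : (0 : ℝ) ≤ n.NP := Nat.cast_nonneg _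
        nlinarith
      rw [h1]
      linarith

end Pool.Agent.H21.Imm
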