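import Pool.Agent.H21.Imm.Linked

set_option autoImplicit false
set_option linter.unusedSectionVars false

namespace Pool.Agent.H21.Imm

open Finset

/-- The numerical parameters. -/
structure Nums where
  k : ℕ
  DD : ℕ
  J : ℕ
  Tn : ℕ
  Ln : ℕ
  l : ℕ
  hk : 1 ≤ k
  hDD : 1 ≤ DD
  hJ : 1 ≤ J
  hTn : 1 ≤ Tn
  hLn : 1 ≤ Ln
  hl : 1 ≤ l

namespace Nums

variable (n : Nums)

/-- Degree threshold. -/
def D0 : ℕ := 2 * n.k * (1 + 8 * n.DD * n.J)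
/-- Cluster size. -/
def s0 : ℕ := 8 * n.J * n.D0
/-- Half the number of roles. -/
def M : ℕ := n.Tn * n.D0
/-- Number of hubs. -/
def q : ℕ := n.M * n.D0
/-- Number of levels. -/
def e : ℕ := 8 * n.q + 8
/-- Inverse of the density loss per hub. -/
def K : ℕ := 2 * n.J * (2 * n.q + 1) * n.e
/-- Radius. -/
def L : ℕ := (n.DD * n.K + 1) * n.l
/-- Inverse of the expansion rate. -/
def C : ℕ := 4 * n.J * n.e
/-- Start-up time. -/
def T0 : ℕ := 2 * n.D0 * n.DD * n.C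
/-- Cost of one arm. -/
def W : ℕ := n.T0 + n.L + n.L
/-- Number of used edges. -/
def Qm : ℕ := 2 * n.M * (n.D0 * n.W + n.DD * n.s0 + n.D0)
/-- Number of forbidden edges. -/
def Qt : ℕ := n.Qm + n.DD * n.s0 + n.D0 + n.D0 * n.W
/-- Number of places. -/
def NP : ℕ := 2 * n.M + 4 * n.Qm + 2 * n.Qm * n.C + 1
/-- Master bound. -/
def Z : ℕ := 4 * n.Ln * n.NP + 4

lemma two_k_le : 2 * n.k ≤ n.D0 := by
  unfold D0
  exact Nat.le_mul_of_pos_right _ (by omega)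

lemma D0_pos : 2 ≤ n.D0 := by have := n.two_k_le; have := n.hk; omega

lemma D0_le_M : n.D0 ≤ n.M := by
  unfold M
  exact Nat.le_mul_of_pos_left _ n.hTn

lemma M_le_q : n.M ≤ n.q := by
  unfold q
  exact Nat.le_mul_of_pos_right _ (by have := n.D0_pos; omega)

lemma q_ge : 4 ≤ n.q := by
  have h1 := n.D0_pos
  have h2 := n.D0_le_M
  unfold q
  nlinarith

lemma q_le_e : n.q ≤ n.e := by unfold e; omega

lemma e_pos : 8 ≤ n.e := by unfold e; omega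

lemma e_le_C : 4 * n.e ≤ n.C := by
  unfold C
  have := n.hJ
  nlinarith [n.e_pos]

lemma C_pos : 1 ≤ n.C := by have := n.e_le_C; have := n.e_pos; omega

lemma two_C_le_K : 2 * n.C ≤ n.K := by
  unfold C K
  have h1 := n.q_ge
  have h2 := n.hJ
  have h3 : 2 * (4 * n.J * n.e) = 2 * n.J * 4 * n.e := by ring
  rw [h3]
  gcongr
  omega

lemma K_pos : 1 ≤ n.K := by have := n.two_C_le_K; have := n.C_pos; omega

lemma K_le_L : n.K ≤ n.L := by
  unfold L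
  have h1 := n.hDD
  have h2 := n.hl
  calc n.K ≤ n.DD * n.K := Nat.le_mul_of_pos_left _ h1
    _ ≤ n.DD * n.K + 1 := Nat.le_succ _
    _ ≤ (n.DD * n.K + 1) * n.l := Nat.le_mul_of_pos_right _ h2

lemma L_le_W : 2 * n.L ≤ n.W := by unfold W; omega

lemma T0_pos : 1 ≤ n.T0 := by
  unfold T0
  have h1 := n.D0_pos
  have h2 := n.hDD
  have h3 := n.C_pos
  exact Nat.one_le_iff_ne_zero.2 (by positivity)

lemma W_pos : 1 ≤ n.W := by unfold W; have := n.T0_pos; omega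

lemma Qm_ge : 2 * n.M * (n.D0 * n.W) ≤ n.Qm := by
  unfold Qm
  apply Nat.mul_le_mul_left
  omega

lemma Qm_ge2 : 2 * (n.q * n.W) ≤ n.Qm := by
  have := n.Qm_ge
  unfold q
  calc 2 * (n.M * n.D0 * n.W) = 2 * n.M * (n.D0 * n.W) := by ring
    _ ≤ _ := this

lemma Qm_ge3 : 2 * (n.DD * n.s0 + n.D0 + n.D0 * n.W) ≤ n.Qm := by
  unfold Qm
  have h1 : 1 ≤ n.M := by have := n.D0_le_M; have := n.D0_pos; omega
  calc 2 * (n.DD * n.s0 + n.D0 + n.D0 * n.W)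
      = 2 * 1 * (n.D0 * n.W + n.DD * n.s0 + n.D0) := by ring
    _ ≤ 2 * n.M * (n.D0 * n.W + n.DD * n.s0 + n.D0) := by gcongr

lemma Qt_le : n.Qt ≤ 2 * n.Qm := by
  have := n.Qm_ge3
  unfold Qt
  omega

lemma Qm_le_NP : 4 * n.Qm + 2 * n.Qm * n.C + 1 ≤ n.NP := by unfold NP; omega

lemma QmC_le_NP : 2 * (n.Qm * n.C) ≤ n.NP := by
  have := n.Qm_le_NP
  have h : 2 * n.Qm * n.C = 2 * (n.Qm * n.C) := by ring
  omega

lemma NP_pos : 1 ≤ n.NP := by unfold NP; omega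

lemma W_le_Qm : n.W ≤ n.Qm := by
  have h1 := n.Qm_ge2
  have h2 := n.q_ge
  nlinarith [n.W_pos]

lemma s0_le_Qm : n.s0 ≤ n.Qm := by
  have h1 := n.Qm_ge3
  have h2 : n.s0 ≤ n.DD * n.s0 := Nat.le_mul_of_pos_left _ n.hDD
  omega

lemma D0_le_s0 : n.D0 ≤ n.s0 := by
  unfold s0
  have := n.hJ
  nlinarith [n.D0_pos]

lemma D0C_le_Qm : n.D0 * n.C ≤ n.Qm := by
  have h1 : n.D0 * n.C ≤ n.T0 := by
    unfold T0
    have := n.hDD
    calc n.D0 * n.C = 1 * n.D0 * 1 * n.C := by ring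
      _ ≤ 2 * n.D0 * n.DD * n.C := by gcongr; omega
  have h2 : n.T0 ≤ n.W := by unfold W; omega
  exact h1.trans (h2.trans n.W_le_Qm)

lemma NP_le_Z : 4 * n.NP + 4 ≤ n.Z := by
  unfold Z
  have h1 := n.hLn
  have h2 : 4 * n.NP ≤ 4 * n.Ln * n.NP := by
    calc 4 * n.NP = 4 * 1 * n.NP := by ring
      _ ≤ 4 * n.Ln * n.NP := by gcongr
  omega

lemma Ln_le_Z : n.Ln ≤ n.Z := by
  unfold Z
  have h1 := n.NP_pos
  nlinarith [n.hLn]

lemma Z_pos : 1 ≤ n.Z := by unfold Z; omega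

/-- Real growth inequality. -/
lemma exp_le_pow (X : ℕ) (hX : 1 ≤ X) : Real.exp 1 ≤ (1 + 1 / (X : ℝ)) ^ (X + 1) := by
  have hX' : (0 : ℝ) < X := by exact_mod_cast hX
  have hy : (0 : ℝ) < 1 + 1 / (X : ℝ) := by positivity
  have h1 := Real.one_sub_inv_le_log_of_pos hy
  have h2 : 1 - (1 + 1 / (X : ℝ))⁻¹ = 1 / ((X : ℝ) + 1) := by field_simp; ring
  rw [h2] at h1
  have h3 : 1 ≤ ((X : ℝ) + 1) * Real.log (1 + 1 / (X : ℝ)) := by
    have h4 : ((X : ℝ) + 1) * (1 / ((X : ℝ) + 1)) = 1 := by field_simp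
    have h5 := mul_le_mul_of_nonneg_left h1 (by positivity : (0 : ℝ) ≤ (X : ℝ) + 1)
    linarith
  calc Real.exp 1 ≤ Real.exp (((X : ℝ) + 1) * Real.log (1 + 1 / (X : ℝ))) := Real.exp_le_exp.2 h3
    _ = (1 + 1 / (X : ℝ)) ^ (X + 1) := by
      rw [mul_comm, Real.exp_mul, Real.exp_log hy]
      exact_mod_cast Real.rpow_natCast (1 + 1 / (X : ℝ)) (X + 1)

lemma pow_L {m : ℝ} (hm : n.DD * m ≤ Real.exp n.l) :
    n.DD * m < 2 * (1 + 1 / ((n.DD * n.K : ℕ) : ℝ)) ^ n.L := by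
  have hX : 1 ≤ n.DD * n.K := Nat.one_le_iff_ne_zero.2 (by
    have h1 := n.hDD; have h2 := n.K_pos; positivity)
  have h1 := exp_le_pow (n.DD * n.K) hX
  have h2 : Real.exp n.l ≤ (1 + 1 / ((n.DD * n.K : ℕ) : ℝ)) ^ n.L := by
    unfold L
    rw [pow_mul]
    calc Real.exp n.l = (Real.exp 1) ^ n.l := by rw [← Real.exp_nat_mul, mul_one]
      _ ≤ _ := pow_le_pow_left₀ (Real.exp_pos _).le h1 _
  have h3 := Real.exp_pos (n.l : ℝ)
  linarith

end Nums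

end Pool.Agent.H21.Imm
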