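import Pool.Agent.H21.Imm.Stage

set_option autoImplicit false
set_option linter.unusedSectionVars false

namespace Pool.Agent.H21.Imm

open Finset

/-- Drop of the decreasing power. -/
lemma drop_neg {y η τ : ℝ} (hy : 2 ≤ y) (hη0 : 0 ≤ η) (hη : η ≤ 1 / 2) (hτ : 0 < τ) :
    y ^ (-τ) * (τ * η / 2) ≤ (y - η * (y - 1)) ^ (-τ) - y ^ (-τ) := by
  have hy0 : 0 < y := by linarith
  have h1 : y - η * (y - 1) ≤ y * (1 - η / 2) := by nlinarith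
  have h2 : 0 < y - η * (y - 1) := by nlinarith
  have h3 : 0 < 1 - η / 2 := by linarith
  have h4 : (y * (1 - η / 2)) ^ (-τ) ≤ (y - η * (y - 1)) ^ (-τ) :=
    Real.rpow_le_rpow_of_nonpos h2 h1 (by linarith)
  rw [Real.mul_rpow hy0.le h3.le] at h4
  have h5 : 1 + τ * η / 2 ≤ (1 - η / 2) ^ (-τ) := by
    have h6 : 1 - η / 2 ≤ Real.exp (-(η / 2)) := by
      have := Real.add_one_le_exp (-(η / 2))
      linarith
    have h7 : (Real.exp (-(η / 2))) ^ (-τ) ≤ (1 - η / 2) ^ (-τ) :=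
      Real.rpow_le_rpow_of_nonpos h3 h6 (by linarith)
    have h8 : (Real.exp (-(η / 2))) ^ (-τ) = Real.exp (τ * η / 2) := by
      rw [← Real.exp_mul]
      congr 1
      ring
    rw [h8] at h7
    have h9 := Real.add_one_le_exp (τ * η / 2)
    linarith
  have h6 : 0 < y ^ (-τ) := Real.rpow_pos_of_pos hy0 _
  nlinarith [mul_le_mul_of_nonneg_left h5 h6.le]

/-- Drop of the increasing power. -/
lemma drop_pos {y η τ Y : ℝ} (hY : 0 < Y) (hy : 2 ≤ y) (hη0 : 0 ≤ η) (hη : η ≤ 1 / 2)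
    (hτ : 0 < τ) (hτ1 : τ ≤ 1) :
    (y / Y) ^ τ * (τ * η / 2) ≤ (y / Y) ^ τ - ((y - η * (y - 1)) / Y) ^ τ := by
  have hy0 : 0 < y := by linarith
  have h1 : y - η * (y - 1) ≤ y * (1 - η / 2) := by nlinarith
  have h2 : 0 < y - η * (y - 1) := by nlinarith
  have h3 : 0 < 1 - η / 2 := by linarith
  have h4 : ((y - η * (y - 1)) / Y) ^ τ ≤ (y / Y * (1 - η / 2)) ^ τ := by
    apply Real.rpow_le_rpow (by positivity) _ hτ.le
    rw [div_mul_eq_mul_div]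
    exact div_le_div_of_nonneg_right h1 hY.le
  have h4' : (y / Y * (1 - η / 2)) ^ τ = (y / Y) ^ τ * (1 - η / 2) ^ τ :=
    Real.mul_rpow (by positivity) h3.le
  have h5 : (1 - η / 2) ^ τ ≤ 1 - τ * η / 2 := by
    have h6 := rpow_one_add_le_one_add_mul_self (s := -(η / 2)) (by linarith) hτ.le hτ1
    have h7 : 1 + -(η / 2) = 1 - η / 2 := by ring
    rw [h7] at h6
    linarith
  have h6 : 0 < (y / Y) ^ τ := Real.rpow_pos_of_pos (by positivity) _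
  have h7 := mul_le_mul_of_nonneg_left h5 h6.le
  rw [h4'] at h4
  nlinarith

/-- The twelfth root. -/
lemma root_pow {y : ℝ} (hy : 0 ≤ y) : (y ^ ((1 : ℝ) / 12)) ^ 12 = y := by
  rw [← Real.rpow_natCast, ← Real.rpow_mul hy]
  norm_num

/-- Fixed parameters. -/
lemma params {σ ε : ℝ} (hε : 0 < ε) :
    ∃ Tn Ln J0 : ℕ, 1 ≤ Tn ∧ 1 ≤ Ln ∧ 1 ≤ J0 ∧
      ∀ J : ℕ, J0 ≤ J → σ * (1 + 1 / (2 * Tn)) + 1 / Ln + 1 / J < σ + ε / 2 := by
  refine ⟨⌈4 * σ / ε⌉₊ + 1, ⌈8 / ε⌉₊ + 1, ⌈8 / ε⌉₊ + 1, by omega, by omega, by omega, ?_⟩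
  intro J hJ
  have h1 : 4 * σ / ε ≤ ((⌈4 * σ / ε⌉₊ + 1 : ℕ) : ℝ) := by
    push_cast
    have := Nat.le_ceil (4 * σ / ε)
    linarith
  have h2 : 8 / ε ≤ ((⌈8 / ε⌉₊ + 1 : ℕ) : ℝ) := by
    push_cast
    have := Nat.le_ceil (8 / ε)
    linarith
  have h3 : ((⌈8 / ε⌉₊ + 1 : ℕ) : ℝ) ≤ J := by exact_mod_cast hJ
  set T : ℝ := ((⌈4 * σ / ε⌉₊ + 1 : ℕ) : ℝ) with hT
  set L : ℝ := ((⌈8 / ε⌉₊ + 1 : ℕ) : ℝ) with hL
  have hTpos : 0 < T := by rw [hT]; positivity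
  have hLpos : 0 < L := by rw [hL]; positivity
  have hJpos : (0 : ℝ) < J := lt_of_lt_of_le hLpos h3
  have h4 : 1 / L ≤ ε / 8 := by
    rw [div_le_iff₀ hε] at h2
    rw [div_le_div_iff₀ hLpos (by norm_num)]
    linarith
  have h5 : 1 / (J : ℝ) ≤ ε / 8 := (one_div_le_one_div_of_le hLpos h3).trans h4
  have h6 : σ * (1 / (2 * T)) ≤ ε / 8 := by
    rw [div_le_iff₀ hε] at h1
    rw [mul_one_div, div_le_div_iff₀ (by positivity) (by norm_num)]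
    linarith
  rw [mul_add, mul_one]
  linarith

variable {V : Type} [Fintype V] [DecidableEq V]

/-- Small dense sets. -/
lemma small_case {k : ℕ} {ε : ℝ} (hε : 0 < ε) (G : SimpleGraph V) {V0 : Finset V}
    (hne : V0.Nonempty) (hδ : sInf (immSet k) + ε ≤ (inn G V0 : ℝ) / V0.card) :
    ImmKB G k V0.card ∧ (V0.card : ℝ) ≤ Real.exp (1 + Real.log V0.card) := by
  have hpos : (0 : ℝ) < V0.card := by exact_mod_cast card_pos.2 hne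
  constructor
  · apply immKB_of_dense (immSet_nonempty k) G V0 hne
    rw [le_div_iff₀ hpos] at hδ
    nlinarith
  · rw [Real.exp_add, Real.exp_log hpos]
    have := Real.add_one_le_exp 1
    nlinarith

/-- The choice of the step parameter. -/
lemma choose_J {a u : ℝ} {J0 : ℕ} (hJ0 : 1 ≤ J0) (ha : 0 < a) (hu : 1 ≤ u) :
    ∃ J : ℕ, J0 ≤ J ∧ a * u ≤ J ∧ (J : ℝ) ≤ (a + 1 + J0) * u ∧ (0 : ℝ) < J ∧
      (J : ℝ) ^ 6 ≤ (a + 1 + J0) ^ 6 * u ^ 6 ∧ (J : ℝ) ^ 9 ≤ (a + 1 + J0) ^ 9 * u ^ 9 := by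
  have hJr : (0 : ℝ) ≤ J0 := Nat.cast_nonneg _
  have hJ2 : ((⌈a * u⌉₊ + J0 : ℕ) : ℝ) ≤ (a + 1 + J0) * u := by
    push_cast
    have h1 := (Nat.ceil_lt_add_one (by positivity : 0 ≤ a * u)).le
    nlinarith
  have hJ0' : (0 : ℝ) < ((⌈a * u⌉₊ + J0 : ℕ) : ℝ) := by
    have : 0 < ⌈a * u⌉₊ + J0 := by omega
    exact_mod_cast this
  refine ⟨⌈a * u⌉₊ + J0, by omega, ?_, hJ2, hJ0', ?_, ?_⟩
  · push_cast
    have h1 := Nat.le_ceil (a * u)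
    linarith
  · rw [← mul_pow]
    exact pow_le_pow_left₀ hJ0'.le hJ2 6
  · rw [← mul_pow]
    exact pow_le_pow_left₀ hJ0'.le hJ2 9

/-- The size condition in terms of the root. -/
lemma root_size {c4' C1 u y R Jr : ℝ} (hR : R = 4 * c4' ^ 2 * C1 ^ 6)
    (hJ6 : Jr ^ 6 ≤ C1 ^ 6 * u ^ 6) (h : R * u ^ 6 ≤ 1 + y) (hy : 2 ≤ 1 + y) :
    2 * c4' ^ 2 * Jr ^ 6 ≤ y := by
  have h1 : 2 * c4' ^ 2 * Jr ^ 6 ≤ 2 * c4' ^ 2 * (C1 ^ 6 * u ^ 6) :=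
    mul_le_mul_of_nonneg_left hJ6 (by positivity)
  have h4 : 2 * (2 * c4' ^ 2 * (C1 ^ 6 * u ^ 6)) = R * u ^ 6 := by rw [hR]; ring
  linarith

lemma root_big {u y R : ℝ} (hu : 0 < u) (hu12 : u ^ 12 = 1 + y)
    (h : R ^ 2 ≤ 1 + y) : R * u ^ 6 ≤ 1 + y := by
  have h2 : R ≤ u ^ 6 := by
    by_contra hcon
    push Not at hcon
    have h3 : u ^ 12 < R ^ 2 := by
      calc u ^ 12 = u ^ 6 * u ^ 6 := by ring
        _ < R * R := mul_self_lt_mul_self (by positivity) hcon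
        _ = R ^ 2 := by ring
    rw [hu12] at h3
    linarith
  calc R * u ^ 6 ≤ u ^ 6 * u ^ 6 := mul_le_mul_of_nonneg_right h2 (by positivity)
    _ = u ^ 12 := by ring
    _ = 1 + y := hu12

/-- Final estimate in the weak version. -/
lemma finish_weak {E cc C1 u y a Jr B : ℝ} (hE : 0 ≤ E) (hcc : 0 ≤ cc) (hC1 : 0 ≤ C1)
    (hu : 1 ≤ u) (hu12 : u ^ 12 = 1 + y) (hy : 0 ≤ y) (hya : y ≤ a)
    (hJ9 : Jr ^ 9 ≤ C1 ^ 9 * u ^ 9) (hB : B ≤ 2 * cc ^ 17 * Jr ^ 9 * y) :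
    B ≤ (E + 2 * cc ^ 17 * C1 ^ 9) * (1 + a) ^ 2 := by
  have h1 : u ^ 9 ≤ u ^ 12 := pow_le_pow_right₀ hu (by norm_num)
  have h2 : Jr ^ 9 ≤ C1 ^ 9 * (1 + y) := by
    rw [← hu12]
    exact hJ9.trans (mul_le_mul_of_nonneg_left h1 (by positivity))
  have h3 : (1 + y) ^ 2 ≤ (1 + a) ^ 2 := pow_le_pow_left₀ (by linarith) (by linarith) 2
  have h4 : 0 ≤ 2 * cc ^ 17 * C1 ^ 9 := by positivity
  have h5 : 2 * cc ^ 17 * Jr ^ 9 ≤ 2 * cc ^ 17 * (C1 ^ 9 * (1 + y)) :=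
    mul_le_mul_of_nonneg_left h2 (by positivity)
  have h6 : 2 * cc ^ 17 * Jr ^ 9 * y ≤ 2 * cc ^ 17 * (C1 ^ 9 * (1 + y)) * (1 + y) :=
    mul_le_mul h5 (by linarith) hy (by positivity)
  have h7 : 2 * cc ^ 17 * (C1 ^ 9 * (1 + y)) * (1 + y) = 2 * cc ^ 17 * C1 ^ 9 * (1 + y) ^ 2 := by
    ring
  have h8 : 2 * cc ^ 17 * C1 ^ 9 * (1 + y) ^ 2 ≤ 2 * cc ^ 17 * C1 ^ 9 * (1 + a) ^ 2 :=
    mul_le_mul_of_nonneg_left h3 h4
  have h9 : 0 ≤ E * (1 + a) ^ 2 := by positivity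
  have h10 : (E + 2 * cc ^ 17 * C1 ^ 9) * (1 + a) ^ 2
      = E * (1 + a) ^ 2 + 2 * cc ^ 17 * C1 ^ 9 * (1 + a) ^ 2 := by ring
  linarith

/-- Comparing the step with the drop. -/
lemma step_le {γ τ u η Jr : ℝ} (hγ : 0 < γ) (hτ : 0 < τ) (hu : 0 < u) (hη : 0 ≤ η) (hJ : 0 < Jr)
    (h : 2 / (γ * τ) * u ≤ Jr) : η / Jr ≤ γ * (1 / u * (τ * η / 2)) := by
  rw [div_le_iff₀ hJ]
  have h5 : η = γ * (1 / u * (τ * η / 2)) * (2 / (γ * τ) * u) := by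
    field_simp
  calc η = γ * (1 / u * (τ * η / 2)) * (2 / (γ * τ) * u) := h5
    _ ≤ γ * (1 / u * (τ * η / 2)) * Jr := mul_le_mul_of_nonneg_left h (by positivity)

/-- The weak version with a polylogarithmic bound. -/
theorem weak {k : ℕ} (hk : 1 ≤ k) {ε : ℝ} (hε : 0 < ε) :
    ∃ C : ℝ, 0 < C ∧ ∀ (V : Type) [Fintype V] [DecidableEq V] (G : SimpleGraph V) (A : Finset V),
      A.Nonempty → sInf (immSet k) + ε ≤ (inn G A : ℝ) / A.card →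
      ∃ B : ℕ, (B : ℝ) ≤ C * (1 + Real.log A.card) ^ 2 ∧ ImmKB G k B := by
  have hσ0 := sInf_immSet_nonneg hk
  obtain ⟨σ, hσ⟩ : ∃ σ, σ = sInf (immSet k) := ⟨_, rfl⟩
  rw [← hσ] at hσ0
  obtain ⟨Tn, Ln, J0, hTn, hLn, hJ0, hpar⟩ := params (σ := σ) hε
  obtain ⟨DD, hDDr⟩ : ∃ DD : ℕ, σ + ε + 3 ≤ DD := ⟨⌈σ + ε + 3⌉₊, Nat.le_ceil _⟩
  have hDD1 : 1 ≤ DD := by
    have : (0 : ℝ) < DD := by linarith
    have : 0 < DD := by exact_mod_cast this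
    omega
  obtain ⟨γ, hγ0, hγ1, hγε⟩ : ∃ γ : ℝ, 0 < γ ∧ γ ≤ 1 ∧ γ ≤ ε / 2 :=
    ⟨min (ε / 2) 1, by positivity, min_le_right _ _, min_le_left _ _⟩
  obtain ⟨τ, hτ⟩ : ∃ τ : ℝ, τ = 1 / 12 := ⟨_, rfl⟩
  have hτ0 : 0 < τ := by rw [hτ]; norm_num
  obtain ⟨C1, hC1⟩ : ∃ C1 : ℝ, C1 = 2 / (γ * τ) + 1 + J0 := ⟨_, rfl⟩
  have hC10 : 1 ≤ C1 := by
    have : 0 < 2 / (γ * τ) := by positivity
    have h2 : (0 : ℝ) ≤ J0 := Nat.cast_nonneg _
    linarith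
  obtain ⟨cc, hcc⟩ : ∃ cc : ℝ, cc = ((18 * (k * DD * Tn * Ln) : ℕ) : ℝ) := ⟨_, rfl⟩
  have hcc0 : 0 ≤ cc := by rw [hcc]; exact Nat.cast_nonneg _
  obtain ⟨c4', hc4'⟩ : ∃ c4' : ℝ, c4' = c4 (18 * (k * DD * Tn * Ln)) := ⟨_, rfl⟩
  obtain ⟨R, hR⟩ : ∃ R : ℝ, R = 4 * c4' ^ 2 * C1 ^ 6 := ⟨_, rfl⟩
  have hR0 : 0 ≤ R := by rw [hR]; positivity
  obtain ⟨Y1, hY1⟩ : ∃ Y1 : ℝ, Y1 = R ^ 2 + DD + 3 := ⟨_, rfl⟩
  have hE : 0 < Real.exp Y1 := Real.exp_pos _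
  obtain ⟨E, hEe⟩ : ∃ E : ℝ, E = Real.exp Y1 := ⟨_, rfl⟩
  rw [← hEe] at hE
  have hCpos : 0 ≤ 2 * cc ^ 17 * C1 ^ 9 := by positivity
  refine ⟨E + 2 * cc ^ 17 * C1 ^ 9, by linarith, ?_⟩
  intro V _ _ G A hA hGA
  have hApos : (0 : ℝ) < A.card := by exact_mod_cast card_pos.2 hA
  have hlogA : ∀ X : Finset V, X.Nonempty → 0 ≤ Real.log X.card := by
    intro X hX
    apply Real.log_nonneg
    exact_mod_cast card_pos.2 hX
  let Ψ : ℝ → ℝ := fun t => -(γ * t ^ (-τ))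
  have hΨ1 : ∀ t, 1 ≤ t → -γ ≤ Ψ t ∧ Ψ t ≤ 0 := by
    intro t ht
    have h1 : t ^ (-τ) ≤ 1 := Real.rpow_le_one_of_one_le_of_nonpos ht (by linarith)
    have h2 : 0 < t ^ (-τ) := Real.rpow_pos_of_pos (by linarith) _
    have h3 : γ * t ^ (-τ) ≤ γ * 1 := mul_le_mul_of_nonneg_left h1 hγ0.le
    have h4 : 0 ≤ γ * t ^ (-τ) := mul_nonneg hγ0.le h2.le
    simp only [Ψ]
    constructor <;> linarith
  rw [← hσ] at hGA
  obtain ⟨G', hG', V0, hV0A, hV0, hΦ, hup, hmax⟩ := stage G hA Ψ (Φ0 := σ + ε) (by linarith)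
    (by
      have h1 := (hΨ1 (1 + Real.log A.card) (by have := hlogA A hA; linarith)).2
      linarith)
    (by
      intro X hX hXne
      have h1 := hΨ1 (1 + Real.log X.card) (by have := hlogA X hXne; linarith)
      rw [abs_le]
      constructor <;> linarith)
  have hV0pos : (0 : ℝ) < V0.card := by exact_mod_cast card_pos.2 hV0
  have hlogmono : Real.log V0.card ≤ Real.log A.card := by
    apply Real.log_le_log hV0pos
    exact_mod_cast card_le_card hV0A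
  have himp : ∀ B : ℕ, ImmKB G' k B → ImmKB G k B := fun B hB =>
    hB.map id Function.injective_id (fun u v h => hG' h)
  have hy0 := hlogA V0 hV0
  have hδ : σ + ε / 2 ≤ (inn G' V0 : ℝ) / V0.card := by
    have h1 := (hΨ1 (1 + Real.log V0.card) (by linarith)).1
    linarith
  obtain ⟨a, ha⟩ : ∃ a, a = Real.log A.card := ⟨_, rfl⟩
  obtain ⟨y, hy⟩ : ∃ y, y = Real.log V0.card := ⟨_, rfl⟩
  rw [← ha, ← hy] at hlogmono
  rw [← hy] at hy0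
  rw [← ha]
  have hA1 : 1 ≤ (1 + a) ^ 2 := one_le_pow₀ (by linarith)
  by_cases hcase : 1 + y < Y1
  · obtain ⟨h1, h2⟩ := small_case (by linarith : 0 < ε / 2) G' hV0 (by rw [← hσ]; exact hδ)
    refine ⟨V0.card, ?_, himp _ h1⟩
    rw [← hy] at h2
    have h3 : Real.exp (1 + y) ≤ E := by rw [hEe]; exact Real.exp_le_exp.2 hcase.le
    have h4 : (E + 2 * cc ^ 17 * C1 ^ 9) * 1 ≤ (E + 2 * cc ^ 17 * C1 ^ 9) * (1 + a) ^ 2 :=
      mul_le_mul_of_nonneg_left hA1 (by linarith)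
    linarith
  · push Not at hcase
    have hR2 : 0 ≤ R ^ 2 := by positivity
    have hDDn : (0 : ℝ) ≤ DD := Nat.cast_nonneg _
    have hy2 : 2 ≤ 1 + y := by linarith
    obtain ⟨u, hu⟩ : ∃ u, u = (1 + y) ^ τ := ⟨_, rfl⟩
    have hu1 : 1 ≤ u := by rw [hu]; exact Real.one_le_rpow (by linarith) hτ0.le
    have hu12 : u ^ 12 = 1 + y := by rw [hu, hτ]; exact root_pow (by linarith)
    have hu0 : 0 < u := by linarith
    have huinv : (1 + y) ^ (-τ) = 1 / u := by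
      rw [Real.rpow_neg (by linarith), one_div, hu]
    obtain ⟨J, hJJ0, hJ1, hJ2, hJpos, hJ6, hJ9⟩ := choose_J hJ0
      (by positivity : 0 < 2 / (γ * τ)) hu1
    rw [← hC1] at hJ2 hJ6 hJ9
    have hRu := root_big (R := R) hu0 hu12 (by linarith)
    have hsz := root_size hR hJ6 hRu hy2
    obtain ⟨B, hB, himm⟩ := apply_comb (k := k) (DD := DD) (Tn := Tn) (Ln := Ln) (J := J) hk hDD1
      hTn hLn (by omega) G' hV0 (Ψ := Ψ)
      (fun X hX hXne => hmax X (hX.trans hV0A) hXne) (hup.trans hDDr)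
      (by
        intro s t hs hst _
        have h1 := Real.rpow_le_rpow_of_nonpos (by linarith : (0 : ℝ) < s) hst
          (by linarith : -τ ≤ 0)
        have h2 := mul_le_mul_of_nonneg_left h1 hγ0.le
        simp only [Ψ]
        linarith)
      (by
        intro η hη0 hη
        have h1 := drop_neg hy2 hη0 hη hτ0
        rw [huinv] at h1
        simp only [Ψ]
        have h2 : 1 + y - η * y = 1 + y - η * (1 + y - 1) := by ring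
        rw [← hy, h2, huinv]
        have h3 := mul_le_mul_of_nonneg_left h1 hγ0.le
        have h4 := step_le hγ0 hτ0 hu0 hη0 hJpos hJ1
        linarith)
      (by
        have h1 := hpar J hJJ0
        rw [← hσ]
        linarith)
      (by rw [← hy, ← hc4']; exact hsz)
      (by rw [← hy]; linarith)
    refine ⟨B, ?_, himp _ himm⟩
    rw [← hy, ← hcc] at hB
    exact finish_weak hE.le hcc0 (by linarith) hu1 hu12 hy0 hlogmono hJ9 hB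

end Pool.Agent.H21.Imm
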