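import Pool.Agent.H21.Imm.Good

set_option autoImplicit false
set_option linter.unusedSectionVars false

namespace Pool.Agent.H21.Imm

open Finset

variable {V : Type} [Fintype V] [DecidableEq V]

/-- All the data and numerical assumptions needed for routing. -/
structure Setup (H G : SimpleGraph V) (V' : Finset V) (q : ℕ) (y : ℕ → V)
    (Z : ℕ → Finset (Sym2 V)) (L Qt : ℕ) (M0 M1 M2 D c : ℝ) (P : Finset (Finset V))
    (a a' r N : ℕ) (inte prt : Finset V → Finset (Sym2 V)) (I0 T0 T1 Qm : ℕ) : Prop where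
  hub : HubSys H V' q y Z L Qt M2
  hG : ∀ u v, G.Adj u v → (u ∈ V' ∧ v ∈ V') ∧ H.Adj u v ∧ s(u, v) ∉ allZ Z q
  hD : 0 < D
  hc : 0 < c
  dens : ∀ X ⊆ V', (inn G X : ℝ) ≤ D * X.card
  expand : ∀ X ⊆ V', (X.card : ℝ) ≤ M0 → c * X.card ≤ (bd G X : ℝ)
  PV : ∀ S ∈ P, S ⊆ V'
  Pne : ∀ S ∈ P, S.Nonempty
  Pdisj : ∀ S ∈ P, ∀ S' ∈ P, S ≠ S' → Disjoint S S'
  P1 : ∀ X ⊆ V', (X.card : ℝ) ≤ M1 → a * nin P X ≤ bd G X
  har : a' + r ≤ a
  prtc : ∀ S ∈ P, (prt S).card ≤ r
  prti : ∀ S ∈ P, ∀ e ∈ prt S, ∃ v ∈ S, v ∈ e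
  intc : ∀ S ∈ P, (inte S).card ≤ I0
  inti : ∀ S ∈ P, ∀ e ∈ inte S, ∀ v ∈ e, v ∈ S
  intG : ∀ S ∈ P, ∀ e ∈ inte S, e ∈ G.edgeSet
  prtG : ∀ S ∈ P, ∀ e ∈ prt S, e ∈ G.edgeSet
  nQm : N * (a' * (T0 + T1 + L) + I0 + r) ≤ Qm
  nM0 : 2 * (Qm : ℝ) / c ≤ M0 / 2
  nM1 : 2 * (Qm : ℝ) / c + P.card * (2 * a / c) ≤ M1
  nP : (N : ℝ) + 4 * Qm + 2 * Qm / c < P.card
  nM2 : M2 ≤ M0 / 2
  nT0 : ((a' : ℝ) + r) * D ≤ c / 2 * T0
  nT0' : 1 ≤ T0
  nT1 : D * M2 < 2 * (1 + c / 2 / D) ^ T1
  nQt : Qm + I0 + r + a' * (T0 + T1 + L) ≤ Qt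

lemma ConnL.mono {H : SimpleGraph V} {a b : V} {E E' : Finset (Sym2 V)} {L L' : ℕ}
    (h : ConnL H a b E L) (hE : E ⊆ E') (hL : L ≤ L') : ConnL H a b E' L' := by
  obtain ⟨p, hp, hl⟩ := h
  exact ⟨p, fun e he => hE (hp e he), hl.trans hL⟩

lemma ConnL.symm {H : SimpleGraph V} {a b : V} {E : Finset (Sym2 V)} {L : ℕ}
    (h : ConnL H a b E L) : ConnL H b a E L := by
  obtain ⟨p, hp, hl⟩ := h
  refine ⟨p.reverse, fun e he => hp e ?_, by rw [SimpleGraph.Walk.length_reverse]; exact hl⟩
  rw [SimpleGraph.Walk.edges_reverse, List.mem_reverse] at he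
  exact he

lemma ConnL.trans {H : SimpleGraph V} {a b c : V} {E : Finset (Sym2 V)} {L L' : ℕ}
    (h : ConnL H a b E L) (h' : ConnL H b c E L') : ConnL H a c E (L + L') := by
  obtain ⟨p, hp, hl⟩ := h
  obtain ⟨p', hp', hl'⟩ := h'
  refine ⟨p.append p', fun e he => ?_, by rw [SimpleGraph.Walk.length_append]; omega⟩
  rw [SimpleGraph.Walk.edges_append, List.mem_append] at he
  rcases he with he | he
  · exact hp e he
  · exact hp' e he

lemma Conn.short {H : SimpleGraph V} {a b : V} {E : Finset (Sym2 V)} (h : Conn H a b E) :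
    ConnL H a b E E.card := by
  classical
  obtain ⟨p, hp⟩ := h
  refine ⟨p.bypass, fun e he => hp e (p.edges_bypass_subset_edges he), ?_⟩
  have h1 : p.bypass.IsPath := p.bypass_isPath
  rw [← SimpleGraph.Walk.length_edges, ← List.toFinset_card_of_nodup h1.isTrail.edges_nodup]
  apply card_le_card
  intro e he
  rw [List.mem_toFinset] at he
  exact hp e (p.edges_bypass_subset_edges he)

/-- Routing out of one new place. -/
lemma one_place {H G : SimpleGraph V} {V' : Finset V} {q : ℕ} {y : ℕ → V}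
    {Z : ℕ → Finset (Sym2 V)} {L Qt : ℕ} {M0 M1 M2 D c : ℝ} {P : Finset (Finset V)}
    {a a' r N : ℕ} {inte prt : Finset V → Finset (Sym2 V)} {I0 T0 T1 Qm : ℕ}
    (st : Setup H G V' q y Z L Qt M0 M1 M2 D c P a a' r N inte prt I0 T0 T1 Qm)
    (Q : Finset (Sym2 V)) (hQ : Q.card ≤ Qm) (Ex : Finset (Finset V)) (hEx : Ex.card ≤ N)
    (J : Finset ℕ) (hJ : J.card ≤ a') (hJq : ∀ j ∈ J, j < q) :
    ∃ S ∈ P, S ∉ Ex ∧ (∀ e ∈ Q, ∀ v ∈ S, v ∉ e) ∧
      ∃ (E : ℕ → Finset (Sym2 V)) (x w : ℕ → V),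
        (∀ j ∈ J, x j ∈ S ∧ Conn H (x j) (w j) (E j) ∧ ConnL H (w j) (y j) (Z j) L) ∧
        (∀ i ∈ J, ∀ j ∈ J, i ≠ j → Disjoint (E i) (E j)) ∧
        (∀ j ∈ J, ∀ e ∈ E j, e ∉ Q ∧ e ∉ inte S ∧ e ∉ prt S ∧ e ∉ allZ Z q) ∧
        (J.biUnion E).card ≤ a' * (T0 + T1 + L) := by
  classical
  have hQr : (Q.card : ℝ) ≤ Qm := by exact_mod_cast hQ
  have hc := st.hc
  have hdiv : 2 * (Q.card : ℝ) / c ≤ 2 * Qm / c := by
    apply div_le_div_of_nonneg_right _ hc.le
    linarith
  have hExr : (Ex.card : ℝ) ≤ N := by exact_mod_cast hEx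
  have h1 := st.nM0
  have h2 := st.nM1
  have h3 := st.nP
  obtain ⟨U, hUV, hexpU, S, hSP, hSEx, hgood⟩ := good_places (fun u v h => (st.hG u v h).1) hc
    st.expand P st.PV st.Pne st.Pdisj st.P1 Q (by linarith) (by linarith) Ex
    (by linarith)
  refine ⟨S, hSP, hSEx, hgood.clean, ?_⟩
  -- the routing graph
  set K := res (del G Q) U with hK
  set G' := del K (prt S) with hG'
  set Bad := Q ∪ (inte S ∪ prt S) with hBad
  have hGU : ∀ u v, G'.Adj u v → u ∈ U ∧ v ∈ U := fun u v h => h.1.1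
  have hGOk : ∀ u v, G'.Adj u v → v ∉ S → OkE H Bad (allZ Z q) u v := by
    intro u v h hv
    have hGadj : G.Adj u v := h.1.2.1
    have h4 := st.hG u v hGadj
    refine ⟨h4.2.1, ?_, h4.2.2⟩
    rw [hBad, mem_union, mem_union, not_or, not_or]
    refine ⟨h.1.2.2, ?_, h.2⟩
    intro h5
    exact hv (st.inti S hSP _ h5 v (by simp))
  have hdens : ∀ X ⊆ U, (inn G' X : ℝ) ≤ D * X.card := by
    intro X hX
    have h4 : inn G' X ≤ inn G X := by
      apply inn_mono _ (Subset.refl _)
      intro u v h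
      exact h.1.2.1
    have h5 : (inn G' X : ℝ) ≤ inn G X := by exact_mod_cast h4
    exact h5.trans (st.dens X (hX.trans hUV))
  have hprtc := st.prtc S hSP
  have hcut : ∀ X ⊆ U, S ⊆ X → (X.card : ℝ) < M2 →
      a' ≤ bd G' X ∧ c / 2 * X.card - r ≤ (bd G' X : ℝ) := by
    intro X hX hSX hXc
    have hXc' : (X.card : ℝ) < M0 / 2 := lt_of_lt_of_le hXc st.nM2
    have h4 := hgood.cut X hX hSX hXc'
    have h5 := hexpU X hX hXc'.le
    have h6 := bd_le_del K (prt S) X
    have h7 := st.har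
    constructor
    · have : bd K X ≤ bd G' X + (prt S).card := h6
      have h8 : a ≤ bd K X := h4
      omega
    · have h8 : (bd K X : ℝ) ≤ bd G' X + (prt S).card := by exact_mod_cast h6
      have h9 : ((prt S).card : ℝ) ≤ r := by exact_mod_cast hprtc
      linarith
  have hBadc : Bad.card ≤ Qm + I0 + r := by
    have h4 := card_union_le Q (inte S ∪ prt S)
    have h5 := card_union_le (inte S) (prt S)
    have h6 := st.intc S hSP
    rw [hBad]
    omega
  have hnQt := st.nQt
  obtain ⟨F, w, hF1, hF2, hF3, hF4, hF5⟩ := flows st.hub Bad G' hgood.sub hUV hGU hGOk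
    (D := D) (c := c / 2) (b := r) (a := a') st.hD (by linarith) hdens hcut (T0 := T0) (T1 := T1)
    st.nT0 st.nT0' st.nT1 (by omega) J hJ hJq
  obtain ⟨E, x, hE1, hE2, hE3⟩ := decompose H S F.card F rfl (fun p hp => (hF2 p hp).1) hF3 J w hF4
  refine ⟨E, x, w, ?_, hE3, ?_, ?_⟩
  · intro j hj
    exact ⟨(hE1 j hj).1, (hE1 j hj).2, hF5 j hj⟩
  · intro j hj e he
    obtain ⟨d, hd, hde⟩ := hE2 j hj e he
    obtain ⟨_, h4, h5⟩ := hF2 d hd
    rw [hde] at h4 h5
    rw [hBad, mem_union, mem_union, not_or, not_or] at h4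
    exact ⟨h4.1, h4.2.1, h4.2.2, h5⟩
  · have h4 : J.biUnion E ⊆ F.image (fun d => s(d.1, d.2)) := by
      intro e he
      rw [mem_biUnion] at he
      obtain ⟨j, hj, he⟩ := he
      obtain ⟨d, hd, hde⟩ := hE2 j hj e he
      exact mem_image.2 ⟨d, hd, hde⟩
    have h5 : (J.biUnion E).card ≤ F.card := (card_le_card h4).trans card_image_le
    have h6 : J.card * (T0 + T1 + L) ≤ a' * (T0 + T1 + L) := Nat.mul_le_mul_right _ hJ
    omega

/-- Routing for all roles, one after the other. -/
lemma all_places {H G : SimpleGraph V} {V' : Finset V} {q : ℕ} {y : ℕ → V}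
    {Z : ℕ → Finset (Sym2 V)} {L Qt : ℕ} {M0 M1 M2 D c : ℝ} {P : Finset (Finset V)}
    {a a' r N : ℕ} {inte prt : Finset V → Finset (Sym2 V)} {I0 T0 T1 Qm : ℕ}
    (st : Setup H G V' q y Z L Qt M0 M1 M2 D c P a a' r N inte prt I0 T0 T1 Qm)
    (J : ℕ → Finset ℕ) (hJ : ∀ i, (J i).card ≤ a') (hJq : ∀ i, ∀ j ∈ J i, j < q) :
    ∀ n ≤ N, ∃ (Sx : ℕ → Finset V) (E : ℕ → ℕ → Finset (Sym2 V)) (x w : ℕ → ℕ → V),
      (∀ i < n, Sx i ∈ P) ∧ (∀ i < n, ∀ i' < n, i ≠ i' → Sx i ≠ Sx i') ∧
      (∀ i < n, ∀ j ∈ J i, x i j ∈ Sx i ∧ Conn H (x i j) (w i j) (E i j) ∧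
        ConnL H (w i j) (y j) (Z j) L) ∧
      (∀ i < n, ∀ j ∈ J i, ∀ i' < n, ∀ j' ∈ J i', (i ≠ i' ∨ j ≠ j') →
        Disjoint (E i j) (E i' j')) ∧
      (∀ i < n, ∀ j ∈ J i, ∀ e ∈ E i j, e ∉ allZ Z q ∧
        ∀ i' < n, e ∉ inte (Sx i') ∧ e ∉ prt (Sx i')) ∧
      (∀ i < n, ((J i).biUnion (E i)).card ≤ a' * (T0 + T1 + L)) := by
  classical
  intro n
  induction n with
  | zero =>
    intro _
    refine ⟨fun _ => ∅, fun _ _ => ∅, fun _ _ => y 0, fun _ _ => y 0, ?_, ?_, ?_, ?_, ?_, ?_⟩ <;>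
      intro i hi <;> omega
  | succ n ih =>
    intro hn
    obtain ⟨Sx, E, x, w, h1, h2, h3, h4, h5, h6⟩ := ih (by omega)
    let Q : Finset (Sym2 V) := (range n).biUnion
      (fun i => (J i).biUnion (E i) ∪ (inte (Sx i) ∪ prt (Sx i)))
    have hQ : Q.card ≤ Qm := by
      have h7 : Q.card ≤ (range n).card * (a' * (T0 + T1 + L) + I0 + r) := by
        apply card_biUnion_le_card_mul
        intro i hi
        rw [mem_range] at hi
        have h8 := card_union_le ((J i).biUnion (E i)) (inte (Sx i) ∪ prt (Sx i))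
        have h9 := card_union_le (inte (Sx i)) (prt (Sx i))
        have h10 := h6 i hi
        have h11 := st.intc _ (h1 i hi)
        have h12 := st.prtc _ (h1 i hi)
        omega
      rw [card_range] at h7
      have h8 : n * (a' * (T0 + T1 + L) + I0 + r) ≤ N * (a' * (T0 + T1 + L) + I0 + r) :=
        Nat.mul_le_mul_right _ (by omega)
      exact h7.trans (h8.trans st.nQm)
    let Ex : Finset (Finset V) := (range n).image Sx
    have hEx : Ex.card ≤ N := card_image_le.trans (by rw [card_range]; omega)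
    obtain ⟨S, hSP, hSEx, hclean, E', x', w', g1, g2, g3, g4⟩ :=
      one_place st Q hQ Ex hEx (J n) (hJ n) (hJq n)
    have hmemQ : ∀ i < n, ∀ e, (e ∈ (J i).biUnion (E i) ∨ e ∈ inte (Sx i) ∨ e ∈ prt (Sx i)) →
        e ∈ Q := by
      intro i hi e he
      simp only [Q]
      rw [mem_biUnion]
      refine ⟨i, mem_range.2 hi, ?_⟩
      rw [mem_union, mem_union]
      exact he
    have hSne : ∀ i < n, Sx i ≠ S := by
      intro i hi h
      exact hSEx (mem_image.2 ⟨i, mem_range.2 hi, h⟩)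
    refine ⟨fun i => if i = n then S else Sx i, fun i => if i = n then E' else E i,
      fun i => if i = n then x' else x i, fun i => if i = n then w' else w i,
      ?_, ?_, ?_, ?_, ?_, ?_⟩
    · intro i hi
      by_cases hin : i = n
      · simp only [hin, if_true]; exact hSP
      · simp only [hin, if_false]; exact h1 i (by omega)
    · intro i hi i' hi' hne
      by_cases hin : i = n
      · have hin' : i' ≠ n := fun h => hne (hin.trans h.symm)
        simp only [hin, hin', if_true, if_false]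
        exact (hSne i' (by omega)).symm
      · by_cases hin' : i' = n
        · simp only [hin, hin', if_true, if_false]
          exact hSne i (by omega)
        · simp only [hin, hin', if_false]
          exact h2 i (by omega) i' (by omega) hne
    · intro i hi j hj
      by_cases hin : i = n
      · subst hin
        simp only [if_true]
        exact g1 j hj
      · simp only [hin, if_false]
        exact h3 i (by omega) j hj
    · intro i hi j hj i' hi' j' hj' hne
      by_cases hin : i = n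
      · subst hin
        by_cases hin' : i' = i
        · subst hin'
          simp only [if_true]
          apply g2 j hj j' hj'
          rcases hne with h | h
          · exact absurd rfl h
          · exact h
        · simp only [hin', if_true, if_false]
          rw [disjoint_left]
          intro e he he'
          exact (g3 j hj e he).1 (hmemQ i' (by omega) e (Or.inl (mem_biUnion.2 ⟨j', hj', he'⟩)))
      · by_cases hin' : i' = n
        · subst hin'
          simp only [hin, if_true, if_false]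
          rw [disjoint_left]
          intro e he he'
          exact (g3 j' hj' e he').1 (hmemQ i (by omega) e (Or.inl (mem_biUnion.2 ⟨j, hj, he⟩)))
        · simp only [hin, hin', if_false]
          exact h4 i (by omega) j hj i' (by omega) j' hj' hne
    · intro i hi j hj e he
      by_cases hin : i = n
      · subst hin
        simp only [if_true] at he
        obtain ⟨k1, k2, k3, k4⟩ := g3 j hj e he
        refine ⟨k4, ?_⟩
        intro i' hi'
        by_cases hin' : i' = i
        · subst hin'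
          simp only [if_true]
          exact ⟨k2, k3⟩
        · simp only [hin', if_false]
          constructor
          · intro h; exact k1 (hmemQ i' (by omega) e (Or.inr (Or.inl h)))
          · intro h; exact k1 (hmemQ i' (by omega) e (Or.inr (Or.inr h)))
      · simp only [hin, if_false] at he
        obtain ⟨k1, k2⟩ := h5 i (by omega) j hj e he
        refine ⟨k1, ?_⟩
        intro i' hi'
        by_cases hin' : i' = n
        · subst hin'
          simp only [if_true]
          have heQ : e ∈ Q := hmemQ i (by omega) e (Or.inl (mem_biUnion.2 ⟨j, hj, he⟩))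
          constructor
          · intro h
            induction e using Sym2.ind with
            | _ u v =>
              exact hclean _ heQ u (st.inti S hSP _ h u (by simp)) (by simp)
          · intro h
            obtain ⟨v, hvS, hve⟩ := st.prti S hSP e h
            exact hclean _ heQ v hvS hve
        · simp only [hin', if_false]
          exact k2 i' (by omega)
    · intro i hi
      by_cases hin : i = n
      · subst hin
        simp only [if_true]
        exact g4
      · simp only [hin, if_false]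
        exact h6 i (by omega)

/-- The routing theorem: links along all edges of a role graph. -/
theorem routing {H G : SimpleGraph V} {V' : Finset V} {q : ℕ} {y : ℕ → V}
    {Z : ℕ → Finset (Sym2 V)} {L Qt : ℕ} {M0 M1 M2 D c : ℝ} {P : Finset (Finset V)}
    {a a' r N : ℕ} {inte prt : Finset V → Finset (Sym2 V)} {I0 T0 T1 Qm : ℕ}
    (st : Setup H G V' q y Z L Qt M0 M1 M2 D c P a a' r N inte prt I0 T0 T1 Qm)
    (q' : ℕ) (hq' : q' ≤ q) (al be : ℕ → ℕ) (hal : ∀ j < q', al j < N) (hbe : ∀ j < q', be j < N)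
    (hdeg : ∀ i, ((range q').filter (fun j => al j = i ∨ be j = i)).card ≤ a') :
    ∃ (Sx : ℕ → Finset V) (C : ℕ → Finset (Sym2 V)) (xa xb : ℕ → V),
      (∀ i < N, Sx i ∈ P) ∧ (∀ i < N, ∀ i' < N, i ≠ i' → Sx i ≠ Sx i') ∧
      (∀ j < q', xa j ∈ Sx (al j) ∧ xb j ∈ Sx (be j) ∧
        ConnL H (xa j) (xb j) (C j) (2 * (a' * (T0 + T1 + L)) + 2 * L)) ∧
      (∀ i < q', ∀ j < q', i ≠ j → Disjoint (C i) (C j)) ∧
      (∀ j < q', ∀ i < N, ∀ e ∈ C j, e ∉ inte (Sx i) ∧ e ∉ prt (Sx i)) := by
  classical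
  obtain ⟨Sx, E, x, w, h1, h2, h3, h4, h5, h6⟩ := all_places st
    (fun i => (range q').filter (fun j => al j = i ∨ be j = i)) hdeg
    (fun i j hj => by
      have := mem_range.1 (mem_filter.1 hj).1
      omega) N le_rfl
  have hJa : ∀ j < q', j ∈ (range q').filter (fun k => al k = al j ∨ be k = al j) := by
    intro j hj
    rw [mem_filter, mem_range]
    exact ⟨hj, Or.inl rfl⟩
  have hJb : ∀ j < q', j ∈ (range q').filter (fun k => al k = be j ∨ be k = be j) := by
    intro j hj
    rw [mem_filter, mem_range]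
    exact ⟨hj, Or.inr rfl⟩
  have hGZ : ∀ e ∈ G.edgeSet, e ∉ allZ Z q := by
    intro e
    induction e using Sym2.ind with
    | _ u v => intro h; exact (st.hG u v h).2.2
  refine ⟨Sx, fun j => E (al j) j ∪ (E (be j) j ∪ Z j), fun j => x (al j) j, fun j => x (be j) j,
    h1, h2, ?_, ?_, ?_⟩
  · intro j hj
    have ka := h3 (al j) (hal j hj) j (hJa j hj)
    have kb := h3 (be j) (hbe j hj) j (hJb j hj)
    refine ⟨ka.1, kb.1, ?_⟩
    have ca : (E (al j) j).card ≤ a' * (T0 + T1 + L) := by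
      refine le_trans (card_le_card ?_) (h6 (al j) (hal j hj))
      exact subset_biUnion_of_mem (E (al j)) (hJa j hj)
    have cb : (E (be j) j).card ≤ a' * (T0 + T1 + L) := by
      refine le_trans (card_le_card ?_) (h6 (be j) (hbe j hj))
      exact subset_biUnion_of_mem (E (be j)) (hJb j hj)
    have s1 : ConnL H (x (al j) j) (w (al j) j) (E (al j) j ∪ (E (be j) j ∪ Z j))
        (a' * (T0 + T1 + L)) := ka.2.1.short.mono subset_union_left ca
    have s2 : ConnL H (w (al j) j) (y j) (E (al j) j ∪ (E (be j) j ∪ Z j)) L :=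
      ka.2.2.mono (subset_union_right.trans subset_union_right) le_rfl
    have s3 : ConnL H (x (be j) j) (w (be j) j) (E (al j) j ∪ (E (be j) j ∪ Z j))
        (a' * (T0 + T1 + L)) := kb.2.1.short.mono (subset_union_left.trans subset_union_right) cb
    have s4 : ConnL H (w (be j) j) (y j) (E (al j) j ∪ (E (be j) j ∪ Z j)) L :=
      kb.2.2.mono (subset_union_right.trans subset_union_right) le_rfl
    exact ((s1.trans s2).trans (s3.trans s4).symm).mono (Subset.refl _) (by ring_nf; omega)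
  · intro i hi j hj hij
    have hZdis := st.hub.disj i (by omega) j (by omega) hij
    rw [disjoint_left]
    intro e he he'
    rw [mem_union, mem_union] at he he'
    have hZi : e ∈ Z i → e ∈ allZ Z q := fun h => mem_allZ.2 ⟨i, by omega, h⟩
    have hZj : e ∈ Z j → e ∈ allZ Z q := fun h => mem_allZ.2 ⟨j, by omega, h⟩
    rcases he with he | he | he
    · have hn := (h5 (al i) (hal i hi) i (hJa i hi) e he).1
      rcases he' with he' | he' | he'
      · exact disjoint_left.1 (h4 (al i) (hal i hi) i (hJa i hi) (al j) (hal j hj) j (hJa j hj)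
          (Or.inr hij)) he he'
      · exact disjoint_left.1 (h4 (al i) (hal i hi) i (hJa i hi) (be j) (hbe j hj) j (hJb j hj)
          (Or.inr hij)) he he'
      · exact hn (hZj he')
    · have hn := (h5 (be i) (hbe i hi) i (hJb i hi) e he).1
      rcases he' with he' | he' | he'
      · exact disjoint_left.1 (h4 (be i) (hbe i hi) i (hJb i hi) (al j) (hal j hj) j (hJa j hj)
          (Or.inr hij)) he he'
      · exact disjoint_left.1 (h4 (be i) (hbe i hi) i (hJb i hi) (be j) (hbe j hj) j (hJb j hj)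
          (Or.inr hij)) he he'
      · exact hn (hZj he')
    · rcases he' with he' | he' | he'
      · exact (h5 (al j) (hal j hj) j (hJa j hj) e he').1 (hZi he)
      · exact (h5 (be j) (hbe j hj) j (hJb j hj) e he').1 (hZi he)
      · exact disjoint_left.1 hZdis he he'
  · intro j hj i hi e he
    rw [mem_union, mem_union] at he
    rcases he with he | he | he
    · exact (h5 (al j) (hal j hj) j (hJa j hj) e he).2 i hi
    · exact (h5 (be j) (hbe j hj) j (hJb j hj) e he).2 i hi
    · have hall : e ∈ allZ Z q := mem_allZ.2 ⟨j, by omega, he⟩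
      constructor
      · intro h
        exact hGZ e (st.intG _ (h1 i hi) e h) hall
      · intro h
        exact hGZ e (st.prtG _ (h1 i hi) e h) hall

end Pool.Agent.H21.Imm
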