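import Pool.Agent.H21.Imm.Bounds

set_option autoImplicit false
set_option linter.unusedSectionVars false

namespace Pool.Agent.H21.Imm

open Finset

lemma ImmK.toKB {k m : ℕ} {H : SimpleGraph (Fin m)} (h : ImmK H k) : ImmKB H k m := by
  obtain ⟨f, hf, P, h1, h2⟩ := h
  refine ⟨f, hf, P, h1, h2, ?_⟩
  refine (Set.ncard_le_ncard (Set.subset_univ _) (Set.toFinite _)).trans ?_
  rw [Set.ncard_univ, Nat.card_eq_fintype_card, Fintype.card_fin]

lemma immSet_pos {k : ℕ} (hk : 1 ≤ k) {d : ℝ} (hd : d ∈ immSet k) : 0 < d := by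
  by_contra hcon
  push Not at hcon
  obtain ⟨f, _⟩ := hd 0 ⊥ (by simpa using hcon)
  exact (f ⟨0, hk⟩).elim0

lemma sInf_immSet_nonneg {k : ℕ} (hk : 1 ≤ k) : 0 ≤ sInf (immSet k) :=
  Real.sInf_nonneg (fun _ hd => (immSet_pos hk hd).le)

variable {V : Type} [Fintype V] [DecidableEq V]

lemma immKB_of_dense {k : ℕ} (hne : (immSet k).Nonempty) (F0 : SimpleGraph V) (X0 : Finset V)
    (hX0 : X0.Nonempty) (h : sInf (immSet k) * X0.card < (inn F0 X0 : ℝ)) :
    ImmKB F0 k X0.card := by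
  classical
  have hpos : (0 : ℝ) < X0.card := by exact_mod_cast card_pos.2 hX0
  have h1 : sInf (immSet k) < (inn F0 X0 : ℝ) / X0.card := by
    rw [lt_div_iff₀ hpos]; exact h
  obtain ⟨d, hd, hdl⟩ := exists_lt_of_csInf_lt hne h1
  let e : Fin X0.card ≃ X0 := X0.equivFin.symm
  let φ : Fin X0.card → V := fun i => (e i : V)
  have hφ : Function.Injective φ := Subtype.val_injective.comp e.injective
  have hφX : ∀ i, φ i ∈ X0 := fun i => (e i).2
  have hsurj : ∀ v ∈ X0, ∃ i, φ i = v := by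
    intro v hv
    exact ⟨e.symm ⟨v, hv⟩, by simp [φ]⟩
  let H' : SimpleGraph (Fin X0.card) := F0.comap φ
  have hcard : inn H' univ = inn F0 X0 := by
    unfold inn
    apply card_bij (fun p _ => (φ p.1, φ p.2))
    · intro p hp
      rw [mem_darts] at hp ⊢
      exact ⟨⟨hφX _, hφX _⟩, hp.2⟩
    · rintro ⟨a, b⟩ _ ⟨c, d⟩ _ h
      simp only [Prod.mk.injEq] at h
      rw [hφ h.1, hφ h.2]
    · rintro ⟨a, b⟩ hp
      rw [mem_darts] at hp
      obtain ⟨i, hi⟩ := hsurj a hp.1.1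
      obtain ⟨j, hj⟩ := hsurj b hp.1.2
      refine ⟨(i, j), ?_, by simp [hi, hj]⟩
      rw [mem_darts]
      refine ⟨⟨mem_univ _, mem_univ _⟩, ?_⟩
      change F0.Adj (φ i) (φ j)
      rw [hi, hj]; exact hp.2
  have h2 : d ≤ 2 * (H'.edgeSet.ncard : ℝ) / (X0.card : ℝ) := by
    have h3 : 2 * (H'.edgeSet.ncard : ℝ) = (inn F0 X0 : ℝ) := by
      rw [← hcard, ← two_mul_ncard]; push_cast; ring
    rw [h3]; exact hdl.le
  have h4 := hd X0.card H' h2
  exact h4.toKB.map φ hφ (fun u v h => h)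

/-- Choosing the stage: an edge-minimal subgraph and the maximiser of the potential. -/
lemma stage (G : SimpleGraph V) {A : Finset V} (hA : A.Nonempty) (Ψ : ℝ → ℝ) {Φ0 : ℝ}
    (hΦ0 : 0 ≤ Φ0) (h : Φ0 ≤ (inn G A : ℝ) / A.card - Ψ (1 + Real.log A.card))
    (hΨ : ∀ X ⊆ A, X.Nonempty → |Ψ (1 + Real.log X.card)| ≤ 1) :
    ∃ G' ≤ G, ∃ V0 ⊆ A, V0.Nonempty ∧
      Φ0 ≤ (inn G' V0 : ℝ) / V0.card - Ψ (1 + Real.log V0.card) ∧
      (inn G' V0 : ℝ) / V0.card ≤ Φ0 + 3 ∧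
      ∀ X ⊆ A, X.Nonempty → (inn G' X : ℝ) / X.card - Ψ (1 + Real.log X.card)
        ≤ (inn G' V0 : ℝ) / V0.card - Ψ (1 + Real.log V0.card) := by
  classical
  let Pr : ℕ → Prop := fun t => ∃ G' ≤ G, inn G' A = t ∧ ∃ X ⊆ A, X.Nonempty ∧
    Φ0 ≤ (inn G' X : ℝ) / X.card - Ψ (1 + Real.log X.card)
  have hex : ∃ t, Pr t := ⟨_, G, le_rfl, rfl, A, Subset.refl _, hA, h⟩
  obtain ⟨G', hG', hGt, X1, hX1, hX1ne, hX1Φ⟩ := Nat.find_spec hex
  have hmin := fun t (ht : t < Nat.find hex) => Nat.find_min hex ht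
  rw [← hGt] at hmin
  have hup : ∀ X ⊆ A, X.Nonempty →
      (inn G' X : ℝ) / X.card - Ψ (1 + Real.log X.card) ≤ Φ0 + 2 := by
    intro X hX hXne
    by_contra hcon
    push Not at hcon
    have hΨX := abs_le.1 (hΨ X hX hXne)
    have hXpos : (0 : ℝ) < X.card := by exact_mod_cast card_pos.2 hXne
    have hXone : (1 : ℝ) ≤ X.card := by exact_mod_cast card_pos.2 hXne
    rcases Nat.eq_zero_or_pos (inn G' X) with h0 | h0
    · rw [h0] at hcon
      simp only [Nat.cast_zero, zero_div, zero_sub] at hcon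
      linarith
    · obtain ⟨p, hp⟩ := card_pos.1 h0
      rw [mem_darts] at hp
      set G'' := del G' {s(p.1, p.2)} with hG''
      have hle : G'' ≤ G' := del_le _ _
      have hlt : inn G'' A < inn G' A := by
        unfold inn
        apply card_lt_card
        refine ⟨darts_mono hle (Subset.refl _) (Subset.refl _), ?_⟩
        intro hsub
        have h1 : p ∈ darts G' A A := mem_darts.2 ⟨⟨hX hp.1.1, hX hp.1.2⟩, hp.2⟩
        have h2 := hsub h1
        rw [mem_darts, hG'', del_adj] at h2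
        exact h2.2.2 (mem_singleton_self _)
      apply hmin _ hlt
      refine ⟨G'', hle.trans hG', rfl, X, hX, hXne, ?_⟩
      have h1 := inn_le_del G' {s(p.1, p.2)} X
      rw [card_singleton] at h1
      have h2 : (inn G' X : ℝ) ≤ inn G'' X + 2 := by exact_mod_cast h1
      have h3 : (inn G' X : ℝ) / X.card ≤ (inn G'' X : ℝ) / X.card + 2 := by
        rw [div_le_iff₀ hXpos, add_mul, div_mul_cancel₀ _ hXpos.ne']
        linarith
      linarith
  let F : Finset (Finset V) := A.powerset.filter (fun X => X.Nonempty)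
  have memF : ∀ X, X ∈ F ↔ X ⊆ A ∧ X.Nonempty := by
    intro X; simp only [F, mem_filter, mem_powerset]
  have hF : F.Nonempty := ⟨X1, (memF _).2 ⟨hX1, hX1ne⟩⟩
  obtain ⟨V0, hV0, hmax⟩ := exists_max_image F
    (fun X => (inn G' X : ℝ) / X.card - Ψ (1 + Real.log X.card)) hF
  rw [memF] at hV0
  refine ⟨G', hG', V0, hV0.1, hV0.2, ?_, ?_, ?_⟩
  · exact hX1Φ.trans (hmax X1 ((memF _).2 ⟨hX1, hX1ne⟩))
  · have h1 := hup V0 hV0.1 hV0.2
    have h2 := abs_le.1 (hΨ V0 hV0.1 hV0.2)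
    linarith
  · intro X hX hXne
    exact hmax X ((memF _).2 ⟨hX, hXne⟩)

/-- Applying the combinatorial theorem. -/
lemma apply_comb {k DD Tn Ln J : ℕ} (hk : 1 ≤ k) (hDD : 1 ≤ DD) (hTn : 1 ≤ Tn) (hLn : 1 ≤ Ln)
    (hJ : 1 ≤ J) (G : SimpleGraph V) {V0 : Finset V} (hne : V0.Nonempty) {Ψ : ℝ → ℝ}
    (hmax : ∀ X ⊆ V0, X.Nonempty → (inn G X : ℝ) / X.card - Ψ (1 + Real.log X.card)
        ≤ (inn G V0 : ℝ) / V0.card - Ψ (1 + Real.log V0.card))
    (hδ : (inn G V0 : ℝ) / V0.card ≤ DD)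
    (hmono : ∀ s t, 1 ≤ s → s ≤ t → t ≤ 1 + Real.log V0.card → Ψ s ≤ Ψ t)
    (hdrop : ∀ η : ℝ, 0 ≤ η → η ≤ 1 / 2 →
      η / J ≤ Ψ (1 + Real.log V0.card) - Ψ (1 + Real.log V0.card - η * Real.log V0.card))
    (hσ : sInf (immSet k) * (1 + 1 / (2 * Tn)) + 1 / Ln + 1 / J < (inn G V0 : ℝ) / V0.card)
    (hsize : 2 * c4 (18 * (k * DD * Tn * Ln)) ^ 2 * (J : ℝ) ^ 6 ≤ Real.log V0.card)
    (hsize2 : (DD : ℝ) + 2 ≤ Real.log V0.card) :
    ∃ B : ℕ, (B : ℝ) ≤ 2 * ((18 * (k * DD * Tn * Ln) : ℕ) : ℝ) ^ 17 * (J : ℝ) ^ 9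
      * Real.log V0.card ∧ ImmKB G k B := by
  have hmpos : (0 : ℝ) < V0.card := by exact_mod_cast card_pos.2 hne
  have hDDr : (1 : ℝ) ≤ DD := by exact_mod_cast hDD
  set y := Real.log V0.card with hy
  set l : ℕ := ⌈Real.log (DD * V0.card)⌉₊ + 1 with hl
  let n : Nums := ⟨k, DD, J, Tn, Ln, l, hk, hDD, hJ, hTn, hLn, by omega⟩
  have hlog : Real.log (DD * V0.card) ≤ DD + y := by
    rw [Real.log_mul (by linarith) hmpos.ne']
    have := Real.log_le_sub_one_of_pos (by linarith : (0 : ℝ) < DD)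
    linarith
  have hlogpos : 0 ≤ Real.log (DD * V0.card) := by
    rw [Real.log_mul (by linarith) hmpos.ne']
    have := Real.log_nonneg hDDr
    linarith
  have hl2 : (n.l : ℝ) ≤ 2 * y := by
    have h1 : (l : ℝ) = (⌈Real.log (DD * V0.card)⌉₊ : ℝ) + 1 := by rw [hl]; push_cast; ring
    have h2 := (Nat.ceil_lt_add_one hlogpos).le
    change (l : ℝ) ≤ 2 * y
    linarith
  have hsize' : 2 * c4 n.c ^ 2 * (n.J : ℝ) ^ 6 ≤ y := hsize
  have hsc := size_cond n hl2 hsize'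
  have he8 : (8 : ℝ) ≤ n.e := by exact_mod_cast n.e_pos
  have he : (0 : ℝ) < n.e := by linarith
  have hJr : (0 : ℝ) < J := by exact_mod_cast hJ
  have hZ1 := n.Zr_pos
  have hy0 : 0 ≤ y := by linarith
  set x : ℝ := Real.exp (y / n.e) with hx
  have hxpow : ∀ i : ℕ, x ^ i = Real.exp (i * (y / n.e)) := by
    intro i; rw [hx, ← Real.exp_nat_mul]
  have hxe : x ^ n.e = V0.card := by
    rw [hxpow, mul_div_cancel₀ _ he.ne', hy, Real.exp_log hmpos]
  have hxZ : (n.Z : ℝ) ^ 4 ≤ x := by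
    have h1 : (n.Z : ℝ) ^ 4 = Real.exp (4 * Real.log n.Z) := by
      have h2 : (n.Z : ℝ) = Real.exp (Real.log n.Z) := (Real.exp_log (by linarith)).symm
      conv_lhs => rw [h2]
      rw [← Real.exp_nat_mul]
      norm_num
    rw [h1, hx]
    apply Real.exp_le_exp.2
    rw [le_div_iff₀ he]
    linarith
  have hexpl : (n.DD : ℝ) * V0.card ≤ Real.exp n.l := by
    have h1 : (0 : ℝ) < DD * V0.card := by positivity
    have h2 : Real.log (DD * V0.card) ≤ n.l := by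
      have h3 := Nat.le_ceil (Real.log (DD * V0.card))
      have h1 : (l : ℝ) = (⌈Real.log (DD * V0.card)⌉₊ : ℝ) + 1 := by rw [hl]; push_cast; ring
      change _ ≤ (l : ℝ)
      linarith
    calc (n.DD : ℝ) * V0.card = Real.exp (Real.log (DD * V0.card)) := (Real.exp_log h1).symm
      _ ≤ _ := Real.exp_le_exp.2 h2
  have hmain := main_comb n G hne (x := x) (δ := (inn G V0 : ℝ) / V0.card) hxZ hxe hexpl hδ
    (by rw [div_mul_cancel₀ _ hmpos.ne'])
    (by
      intro i hi X hX hXc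
      rcases X.eq_empty_or_nonempty with h0 | h0
      · subst h0; simp
      have hXpos : (0 : ℝ) < X.card := by exact_mod_cast card_pos.2 h0
      have hXone : (1 : ℝ) ≤ X.card := by exact_mod_cast card_pos.2 h0
      have hie : i ≤ n.e := by unfold Nums.e; omega
      have h1 : Real.log X.card ≤ y - (i / n.e) * y := by
        have h2 := Real.log_le_log hXpos hXc
        rw [hxpow, Real.log_exp, Nat.cast_sub hie] at h2
        refine h2.trans (le_of_eq ?_)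
        field_simp
      have hη : (i : ℝ) / n.e ≤ 1 / 2 := by
        rw [div_le_iff₀ he]
        have h3 : 2 * i ≤ n.e := by unfold Nums.e; omega
        have h4 : (2 * i : ℝ) ≤ n.e := by exact_mod_cast h3
        linarith
      have h2 := hdrop (i / n.e) (by positivity) hη
      have h3 := hmax X hX h0
      have h4 := hmono (1 + Real.log X.card) (1 + y - i / n.e * y)
        (by have := Real.log_nonneg hXone; linarith) (by linarith)
        (by
          have : 0 ≤ (i : ℝ) / n.e * y := by positivity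
          linarith)
      have h5 : (i : ℝ) / n.e / J = i / (n.e * n.J) := by
        change (i : ℝ) / n.e / J = i / (n.e * J)
        rw [div_div]
      rw [← div_le_iff₀ hXpos, ← h5]
      linarith)
    (sInf_immSet_nonneg hk) hσ
  refine ⟨n.B, ?_, hmain⟩
  have h1 := n.b_B
  unfold Nums.mo at h1
  rw [pow_one] at h1
  have h2 : (n.B : ℝ) ≤ (n.c : ℝ) ^ 17 * (n.J : ℝ) ^ 9 * n.l := by exact_mod_cast h1
  calc (n.B : ℝ) ≤ (n.c : ℝ) ^ 17 * (n.J : ℝ) ^ 9 * n.l := h2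
    _ ≤ (n.c : ℝ) ^ 17 * (n.J : ℝ) ^ 9 * (2 * y) := mul_le_mul_of_nonneg_left hl2 (by positivity)
    _ = 2 * (n.c : ℝ) ^ 17 * (n.J : ℝ) ^ 9 * y := by ring

end Pool.Agent.H21.Imm
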