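import Pool.Agent.H21.Imm.Potential

set_option autoImplicit false
set_option linter.unusedSectionVars false

namespace Pool.Agent.H21.Imm

open Finset

/-- Final estimate in the strong version, large case. -/
lemma finish_strong {E F cc C1 u y Y Jr B : ℝ} (hE : 0 ≤ E) (hF : 0 ≤ F) (hcc : 0 ≤ cc)
    (hC1 : 0 ≤ C1) (hu : 1 ≤ u) (hu12 : u ^ 12 = Y / (1 + y)) (hy : 0 ≤ y) (hY : 0 ≤ Y)
    (hJ9 : Jr ^ 9 ≤ C1 ^ 9 * u ^ 9) (hB : B ≤ 2 * cc ^ 17 * Jr ^ 9 * y) :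
    B ≤ (E + 2 * cc ^ 17 * C1 ^ 9 + F) * Y := by
  have h1 : u ^ 9 ≤ u ^ 12 := pow_le_pow_right₀ hu (by norm_num)
  have hy1 : 0 < 1 + y := by linarith
  have h2 : Jr ^ 9 ≤ C1 ^ 9 * (Y / (1 + y)) := by
    rw [← hu12]
    exact hJ9.trans (mul_le_mul_of_nonneg_left h1 (by positivity))
  have h5 : 2 * cc ^ 17 * Jr ^ 9 ≤ 2 * cc ^ 17 * (C1 ^ 9 * (Y / (1 + y))) :=
    mul_le_mul_of_nonneg_left h2 (by positivity)
  have h6 : 2 * cc ^ 17 * Jr ^ 9 * y ≤ 2 * cc ^ 17 * (C1 ^ 9 * (Y / (1 + y))) * (1 + y) :=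
    mul_le_mul h5 (by linarith) hy (by positivity)
  have h7 : 2 * cc ^ 17 * (C1 ^ 9 * (Y / (1 + y))) * (1 + y) = 2 * cc ^ 17 * C1 ^ 9 * Y := by
    field_simp
  have h9 : 0 ≤ E * Y := by positivity
  have h10 : 0 ≤ F * Y := by positivity
  have h11 : (E + 2 * cc ^ 17 * C1 ^ 9 + F) * Y = E * Y + 2 * cc ^ 17 * C1 ^ 9 * Y + F * Y := by
    ring
  linarith

/-- Final estimate in the strong version, small case. -/
lemma finish_small {E D Cw c4' C1 u y Y R Jr B : ℝ} (hE : 0 ≤ E) (hD : 0 ≤ D) (hCw : 0 ≤ Cw)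
    (hR : R = 4 * c4' ^ 2 * C1 ^ 6) (hu12 : u ^ 12 = Y / (1 + y)) (hy : 2 ≤ 1 + y)
    (hY : 0 ≤ Y) (hJ6 : Jr ^ 6 ≤ C1 ^ 6 * u ^ 6) (h : y < 2 * c4' ^ 2 * Jr ^ 6)
    (hB : B ≤ Cw * (1 + y) ^ 2) : B ≤ (E + D + Cw * R ^ 2) * Y := by
  have hy1 : 0 < 1 + y := by linarith
  have h1 : 2 * c4' ^ 2 * Jr ^ 6 ≤ 2 * c4' ^ 2 * (C1 ^ 6 * u ^ 6) :=
    mul_le_mul_of_nonneg_left hJ6 (by positivity)
  have h4 : 2 * (2 * c4' ^ 2 * (C1 ^ 6 * u ^ 6)) = R * u ^ 6 := by rw [hR]; ring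
  have h5 : 1 + y ≤ R * u ^ 6 := by linarith
  have h6 : (1 + y) ^ 2 ≤ R ^ 2 * (Y / (1 + y)) := by
    calc (1 + y) ^ 2 ≤ (R * u ^ 6) ^ 2 := pow_le_pow_left₀ hy1.le h5 2
      _ = R ^ 2 * u ^ 12 := by ring
      _ = _ := by rw [hu12]
  have h7 : Y / (1 + y) ≤ Y := div_le_self hY (by linarith)
  have h8 : (1 + y) ^ 2 ≤ R ^ 2 * Y := h6.trans (mul_le_mul_of_nonneg_left h7 (by positivity))
  have h9 : Cw * (1 + y) ^ 2 ≤ Cw * (R ^ 2 * Y) := mul_le_mul_of_nonneg_left h8 hCw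
  have h10 : 0 ≤ E * Y := by positivity
  have h11 : 0 ≤ D * Y := by positivity
  have h12 : (E + D + Cw * R ^ 2) * Y = E * Y + D * Y + Cw * (R ^ 2 * Y) := by ring
  linarith

/-- The strong version. -/
theorem strong {k : ℕ} (hk : 1 ≤ k) {ε : ℝ} (hε : 0 < ε) :
    ∃ C : ℝ, 0 < C ∧ ∀ (V : Type) [Fintype V] [DecidableEq V] (G : SimpleGraph V) (A : Finset V),
      A.Nonempty → sInf (immSet k) + ε ≤ (inn G A : ℝ) / A.card →
      ∃ B : ℕ, (B : ℝ) ≤ C * (1 + Real.log A.card) ∧ ImmKB G k B := by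
  have hσ0 := sInf_immSet_nonneg hk
  obtain ⟨Cw, hCw, hweak⟩ := weak hk (by linarith : 0 < ε / 2)
  obtain ⟨σ, hσ⟩ : ∃ σ, σ = sInf (immSet k) := ⟨_, rfl⟩
  rw [← hσ] at hσ0 hweak
  obtain ⟨Tn, Ln, J0, hTn, hLn, hJ0, hpar⟩ := params (σ := σ) hε
  obtain ⟨DD, hDDr⟩ : ∃ DD : ℕ, σ + ε / 2 + 3 ≤ DD := ⟨⌈σ + ε / 2 + 3⌉₊, Nat.le_ceil _⟩
  have hDD1 : 1 ≤ DD := by
    have : (0 : ℝ) < DD := by linarith
    have : 0 < DD := by exact_mod_cast this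
    omega
  obtain ⟨γ, hγ0, hγ1, hγε⟩ : ∃ γ : ℝ, 0 < γ ∧ γ ≤ 1 ∧ γ ≤ ε / 2 :=
    ⟨min (ε / 2) 1, by positivity, min_le_right _ _, min_le_left _ _⟩
  obtain ⟨τ, hτ⟩ : ∃ τ : ℝ, τ = 1 / 12 := ⟨_, rfl⟩
  have hτ0 : 0 < τ := by rw [hτ]; norm_num
  have hτ1 : τ ≤ 1 := by rw [hτ]; norm_num
  obtain ⟨C1, hC1⟩ : ∃ C1 : ℝ, C1 = 2 / (γ * τ) + 1 + J0 := ⟨_, rfl⟩
  have hC10 : 1 ≤ C1 := by
    have : 0 < 2 / (γ * τ) := by positivity
    have h2 : (0 : ℝ) ≤ J0 := Nat.cast_nonneg _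
    linarith
  obtain ⟨cc, hcc⟩ : ∃ cc : ℝ, cc = ((18 * (k * DD * Tn * Ln) : ℕ) : ℝ) := ⟨_, rfl⟩
  have hcc0 : 0 ≤ cc := by rw [hcc]; exact Nat.cast_nonneg _
  obtain ⟨c4', hc4'⟩ : ∃ c4' : ℝ, c4' = c4 (18 * (k * DD * Tn * Ln)) := ⟨_, rfl⟩
  obtain ⟨R, hR⟩ : ∃ R : ℝ, R = 4 * c4' ^ 2 * C1 ^ 6 := ⟨_, rfl⟩
  have hE : 0 < Real.exp (DD + 3) := Real.exp_pos _
  obtain ⟨E, hEe⟩ : ∃ E : ℝ, E = Real.exp (DD + 3) := ⟨_, rfl⟩
  rw [← hEe] at hE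
  have hCpos : 0 ≤ 2 * cc ^ 17 * C1 ^ 9 := by positivity
  have hFpos : 0 ≤ Cw * R ^ 2 := by positivity
  refine ⟨E + 2 * cc ^ 17 * C1 ^ 9 + Cw * R ^ 2, by linarith, ?_⟩
  intro V _ _ G A hA hGA
  have hApos : (0 : ℝ) < A.card := by exact_mod_cast card_pos.2 hA
  have hlogA : ∀ X : Finset V, X.Nonempty → 0 ≤ Real.log X.card := by
    intro X hX
    apply Real.log_nonneg
    exact_mod_cast card_pos.2 hX
  obtain ⟨Y, hY⟩ : ∃ Y, Y = 1 + Real.log A.card := ⟨_, rfl⟩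
  have hY1 : 1 ≤ Y := by have := hlogA A hA; linarith
  have hY0 : 0 < Y := by linarith
  have hlogX : ∀ X ⊆ A, X.Nonempty → 1 ≤ 1 + Real.log X.card ∧ 1 + Real.log X.card ≤ Y := by
    intro X hX hXne
    have h1 := hlogA X hXne
    have h2 : Real.log X.card ≤ Real.log A.card := by
      apply Real.log_le_log (by exact_mod_cast card_pos.2 hXne)
      exact_mod_cast card_le_card hX
    constructor <;> linarith
  let Ψ : ℝ → ℝ := fun t => γ * (t / Y) ^ τ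
  have hΨ1 : ∀ t, 1 ≤ t → t ≤ Y → 0 ≤ Ψ t ∧ Ψ t ≤ γ := by
    intro t ht htY
    have h0 : 0 ≤ t / Y := by positivity
    have h1 : (t / Y) ^ τ ≤ 1 := Real.rpow_le_one h0 (by rw [div_le_one hY0]; exact htY) hτ0.le
    have h2 : 0 ≤ (t / Y) ^ τ := Real.rpow_nonneg h0 _
    have h3 : γ * (t / Y) ^ τ ≤ γ * 1 := mul_le_mul_of_nonneg_left h1 hγ0.le
    have h4 : 0 ≤ γ * (t / Y) ^ τ := mul_nonneg hγ0.le h2
    simp only [Ψ]
    constructor <;> linarith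
  rw [← hσ] at hGA
  obtain ⟨G', hG', V0, hV0A, hV0, hΦ, hup, hmax⟩ := stage G hA Ψ (Φ0 := σ + ε / 2)
    (by linarith)
    (by
      have h1 := hlogX A (Subset.refl _) hA
      have h2 := (hΨ1 _ h1.1 h1.2).2
      linarith)
    (by
      intro X hX hXne
      have h1 := hlogX X hX hXne
      have h2 := hΨ1 _ h1.1 h1.2
      rw [abs_le]
      constructor <;> linarith)
  have hV0pos : (0 : ℝ) < V0.card := by exact_mod_cast card_pos.2 hV0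
  have himp : ∀ B : ℕ, ImmKB G' k B → ImmKB G k B := fun B hB =>
    hB.map id Function.injective_id (fun u v h => hG' h)
  have hy0 := hlogA V0 hV0
  have hyY := hlogX V0 hV0A hV0
  have hδ : σ + ε / 2 ≤ (inn G' V0 : ℝ) / V0.card := by
    have h1 := (hΨ1 (1 + Real.log V0.card) hyY.1 hyY.2).1
    linarith
  obtain ⟨Bw, hBw, himmw⟩ := hweak V G' V0 hV0 hδ
  obtain ⟨y, hy⟩ : ∃ y, y = Real.log V0.card := ⟨_, rfl⟩
  rw [← hy] at hy0 hyY hBw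
  rw [← hY]
  have hDDn : (0 : ℝ) ≤ DD := Nat.cast_nonneg _
  by_cases hcase : 1 + y < DD + 3
  · obtain ⟨h1, h2⟩ := small_case (by linarith : 0 < ε / 2) G' hV0 (by rw [← hσ]; exact hδ)
    refine ⟨V0.card, ?_, himp _ h1⟩
    rw [← hy] at h2
    have h3 : Real.exp (1 + y) ≤ E := by rw [hEe]; exact Real.exp_le_exp.2 hcase.le
    have h4 : (E + 2 * cc ^ 17 * C1 ^ 9 + Cw * R ^ 2) * 1
        ≤ (E + 2 * cc ^ 17 * C1 ^ 9 + Cw * R ^ 2) * Y :=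
      mul_le_mul_of_nonneg_left hY1 (by linarith)
    linarith
  · push Not at hcase
    have hy2 : 2 ≤ 1 + y := by linarith
    obtain ⟨u, hu⟩ : ∃ u, u = (Y / (1 + y)) ^ τ := ⟨_, rfl⟩
    have hYy : 1 ≤ Y / (1 + y) := by
      rw [one_le_div (by linarith)]; exact hyY.2
    have hu1 : 1 ≤ u := by rw [hu]; exact Real.one_le_rpow hYy hτ0.le
    have hu12 : u ^ 12 = Y / (1 + y) := by rw [hu, hτ]; exact root_pow (by linarith)
    have hu0 : 0 < u := by linarith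
    have huinv : ((1 + y) / Y) ^ τ = 1 / u := by
      have h1 : (1 + y) / Y = (Y / (1 + y))⁻¹ := by rw [inv_div]
      rw [h1, Real.inv_rpow (by linarith), one_div, hu]
    obtain ⟨J, hJJ0, hJ1, hJ2, hJpos, hJ6, hJ9⟩ := choose_J hJ0
      (by positivity : 0 < 2 / (γ * τ)) hu1
    rw [← hC1] at hJ2 hJ6 hJ9
    by_cases hsz : 2 * c4' ^ 2 * (J : ℝ) ^ 6 ≤ y
    · obtain ⟨B, hB, himm⟩ := apply_comb (k := k) (DD := DD) (Tn := Tn) (Ln := Ln) (J := J) hk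
        hDD1 hTn hLn (by omega) G' hV0 (Ψ := Ψ)
        (fun X hX hXne => hmax X (hX.trans hV0A) hXne) (hup.trans hDDr)
        (by
          intro s t hs hst _
          have h0 : 0 ≤ s / Y := by positivity
          have h1 : (s / Y) ^ τ ≤ (t / Y) ^ τ :=
            Real.rpow_le_rpow h0 (div_le_div_of_nonneg_right hst hY0.le) hτ0.le
          have h2 := mul_le_mul_of_nonneg_left h1 hγ0.le
          simp only [Ψ]
          linarith)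
        (by
          intro η hη0 hη
          have h1 := drop_pos hY0 hy2 hη0 hη hτ0 hτ1
          rw [huinv] at h1
          simp only [Ψ]
          have h2 : 1 + y - η * y = 1 + y - η * (1 + y - 1) := by ring
          rw [← hy, h2, huinv]
          have h3 := mul_le_mul_of_nonneg_left h1 hγ0.le
          have h4 := step_le hγ0 hτ0 hu0 hη0 hJpos hJ1
          linarith)
        (by
          have h1 := hpar J hJJ0
          rw [← hσ]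
          linarith)
        (by rw [← hy, ← hc4']; exact hsz)
        (by rw [← hy]; linarith)
      refine ⟨B, ?_, himp _ himm⟩
      rw [← hy, ← hcc] at hB
      exact finish_strong hE.le hFpos hcc0 (by linarith) hu1 hu12 hy0 hY0.le hJ9 hB
    · push Not at hsz
      refine ⟨Bw, ?_, himp _ himmw⟩
      exact finish_small hE.le hCpos hCw.le hR hu12 hy2 hY0.le hJ6 hsz hBw

end Pool.Agent.H21.Imm
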