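import Pool.Agent.H21.Imm.Carve

set_option autoImplicit false
set_option linter.unusedSectionVars false

namespace Pool.Agent.H21.Imm

open Finset

variable {V : Type} [Fintype V] [DecidableEq V]

/-- Splitting the tree paths of a rooted tree into rarely used lower parts and upper parts made of
popular edges. -/
lemma tree_split (G : SimpleGraph V) {B : Finset V} {y : V} {par : V → V} {dep : V → ℕ} {T : ℕ}
    (hR : Rooted G B y par dep T) {A : ℕ} (hA : 0 < A) :
    ∃ Z : Finset (Sym2 V), Z.card * A ≤ (T + 1) * B.card ∧ (∀ e ∈ Z, e ∈ G.edgeSet) ∧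
      ∃ LE : V → Finset (Sym2 V), (∀ e, (B.filter (fun z => e ∈ LE z)).card ≤ A) ∧
        ∀ z ∈ B, (∀ e ∈ LE z, e ∉ Z ∧ e ∈ G.edgeSet) ∧
          ∃ w, ∃ (p : G.Walk z w) (p' : G.Walk w y), (∀ e ∈ p.edges, e ∈ LE z) ∧
            (∀ e ∈ p'.edges, e ∈ Z) ∧ p.length + p'.length ≤ T := by
  classical
  let pr : V → V := fun v => if v = y then y else par v
  have pr_y : pr y = y := by simp [pr]
  have pr_ne : ∀ v, v ≠ y → pr v = par v := fun v hv => by simp [pr, hv]
  let Desc : V → Finset V := fun v => B.filter (fun z => ∃ i, i ≤ T ∧ pr^[i] z = v)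
  have mem_Desc : ∀ v z, z ∈ Desc v ↔ z ∈ B ∧ ∃ i, i ≤ T ∧ pr^[i] z = v := by
    intro v z; simp [Desc]
  -- depth along iterates
  have hiter : ∀ i, ∀ x ∈ B, ∀ z, pr^[i] x = z → z ≠ y → dep z + i = dep x := by
    intro i
    induction i with
    | zero =>
      intro x _ z hz _
      have : x = z := hz
      rw [this]; rfl
    | succ i ih =>
      intro x hx z hz hzy
      rw [Function.iterate_succ_apply] at hz
      have hxy : x ≠ y := by
        intro h
        rw [h, pr_y] at hz
        have : pr^[i] y = y := Function.iterate_fixed pr_y i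
        exact hzy (hz.symm.trans this)
      rw [pr_ne x hxy] at hz
      have h1 := ih (par x) (hR.par_mem x hx hxy) z hz hzy
      have h2 := hR.dep_par x hx hxy
      omega
  let Pop : Finset V := B.filter (fun v => v ≠ y ∧ A ≤ (Desc v).card)
  let Z : Finset (Sym2 V) := Pop.image (fun v => s(v, par v))
  let Lo : V → Finset V := fun z => B.filter (fun v => v ≠ y ∧ (Desc v).card < A ∧ z ∈ Desc v)
  let LE : V → Finset (Sym2 V) := fun z => (Lo z).image (fun v => s(v, par v))
  have mem_Pop : ∀ v, v ∈ Pop ↔ v ∈ B ∧ v ≠ y ∧ A ≤ (Desc v).card := by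
    intro v; simp only [Pop, mem_filter]
  have mem_Lo : ∀ z v, v ∈ Lo z ↔ v ∈ B ∧ v ≠ y ∧ (Desc v).card < A ∧ z ∈ Desc v := by
    intro z v; simp only [Lo, mem_filter]
  have mem_Z : ∀ e, e ∈ Z ↔ ∃ v ∈ Pop, s(v, par v) = e := by
    intro e; simp only [Z, mem_image]
  have mem_LE : ∀ z e, e ∈ LE z ↔ ∃ v ∈ Lo z, s(v, par v) = e := by
    intro z e; simp only [LE, mem_image]
  -- injectivity of v ↦ s(v, par v)
  have hinj : ∀ u ∈ B, ∀ v ∈ B, u ≠ y → v ≠ y → s(u, par u) = s(v, par v) → u = v := by
    intro u hu v hv huy hvy h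
    rw [Sym2.eq_iff] at h
    rcases h with ⟨h1, _⟩ | ⟨h1, h2⟩
    · exact h1
    · exfalso
      have h3 := hR.dep_par u hu huy
      have h4 := hR.dep_par v hv hvy
      rw [h2] at h3
      rw [← h1] at h4
      omega
  have hZadj : ∀ e ∈ Z, e ∈ G.edgeSet := by
    intro e he
    obtain ⟨v, hv, rfl⟩ := (mem_Z e).1 he
    rw [mem_Pop] at hv
    exact hR.adj v hv.1 hv.2.1
  refine ⟨Z, ?_, hZadj, LE, ?_, ?_⟩
  · -- counting popular edges
    have h1 : Z.card ≤ Pop.card := card_image_le
    have h2 : Pop.card * A ≤ ∑ v ∈ Pop, (Desc v).card := by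
      rw [← smul_eq_mul]
      apply card_nsmul_le_sum
      intro v hv
      exact ((mem_Pop v).1 hv).2.2
    have h3 : ∑ v ∈ Pop, (Desc v).card ≤ ∑ v ∈ B, (Desc v).card := by
      apply sum_le_sum_of_subset
      exact filter_subset _ _
    have h4 : ∑ v ∈ B, (Desc v).card ≤ ∑ z ∈ B, (T + 1) := by
      have : ∀ v ∈ B, (Desc v).card = ∑ z ∈ B, if (∃ i, i ≤ T ∧ pr^[i] z = v) then 1 else 0 := by
        intro v _
        simp only [Desc]
        rw [card_filter]
      rw [sum_congr rfl this, sum_comm]
      apply sum_le_sum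
      intro z _
      rw [← card_filter]
      calc (B.filter (fun v => ∃ i, i ≤ T ∧ pr^[i] z = v)).card
          ≤ ((range (T + 1)).image (fun i => pr^[i] z)).card := by
            apply card_le_card
            intro v hv
            rw [mem_filter] at hv
            obtain ⟨_, i, hi, hiv⟩ := hv
            rw [mem_image]
            exact ⟨i, mem_range.2 (by omega), hiv⟩
        _ ≤ (range (T + 1)).card := card_image_le
        _ = T + 1 := card_range _
    rw [sum_const, smul_eq_mul] at h4
    calc Z.card * A ≤ Pop.card * A := Nat.mul_le_mul_right _ h1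
      _ ≤ B.card * (T + 1) := h2.trans (h3.trans h4)
      _ = (T + 1) * B.card := Nat.mul_comm _ _
  · -- lower edges are rarely used
    intro e
    by_cases he : ∃ z ∈ B, e ∈ LE z
    · obtain ⟨z0, _, hz0⟩ := he
      obtain ⟨v, hv, rfl⟩ := (mem_LE z0 e).1 hz0
      rw [mem_Lo] at hv
      refine le_trans (card_le_card (t := Desc v) ?_) hv.2.2.1.le
      intro z hz
      rw [mem_filter] at hz
      obtain ⟨v', hv', hvv'⟩ := (mem_LE z _).1 hz.2
      rw [mem_Lo] at hv'
      have : v' = v := hinj v' hv'.1 v hv.1 hv'.2.1 hv.2.1 hvv'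
      rw [← this]
      exact hv'.2.2.2
    · have : B.filter (fun z => e ∈ LE z) = ∅ := by
        rw [filter_eq_empty_iff]
        intro z hz h
        exact he ⟨z, hz, h⟩
      rw [this]; simp
  · -- walks
    have hP1 : ∀ d, ∀ z ∈ B, dep z = d → (z = y ∨ A ≤ (Desc z).card) →
        ∃ p' : G.Walk z y, (∀ e ∈ p'.edges, e ∈ Z) ∧ p'.length ≤ dep z := by
      intro d
      induction d with
      | zero =>
        intro z hz hd _
        have hzy : z = y := by
          by_contra h
          have := hR.dep_par z hz h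
          omega
        subst hzy
        exact ⟨SimpleGraph.Walk.nil, by simp, by simp⟩
      | succ d ih =>
        intro z hz hd hpop
        by_cases hzy : z = y
        · subst hzy
          exact ⟨SimpleGraph.Walk.nil, by simp, by simp⟩
        · have hA' : A ≤ (Desc z).card := by
            rcases hpop with h | h
            · exact absurd h hzy
            · exact h
          have hdp := hR.dep_par z hz hzy
          have hpop' : par z = y ∨ A ≤ (Desc (par z)).card := by
            right
            refine hA'.trans (card_le_card ?_)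
            intro x hx
            rw [mem_Desc] at hx ⊢
            obtain ⟨hxB, i, _, hiz⟩ := hx
            refine ⟨hxB, i + 1, ?_, ?_⟩
            · have h1 := hiter i x hxB z hiz hzy
              have h2 := hR.dep_le x hxB
              omega
            · rw [Function.iterate_succ_apply', hiz, pr_ne z hzy]
          obtain ⟨p', hp', hl⟩ := ih (par z) (hR.par_mem z hz hzy) (by omega) hpop'
          refine ⟨SimpleGraph.Walk.cons (hR.adj z hz hzy) p', ?_, ?_⟩
          · intro e he
            rw [SimpleGraph.Walk.edges_cons, List.mem_cons] at he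
            rcases he with rfl | he
            · rw [mem_Z]
              exact ⟨z, (mem_Pop z).2 ⟨hz, hzy, hA'⟩, rfl⟩
            · exact hp' e he
          · rw [SimpleGraph.Walk.length_cons]; omega
    have hP2 : ∀ d, ∀ z ∈ B, dep z = d →
        ∃ w, ∃ (p : G.Walk z w) (p' : G.Walk w y), (∀ e ∈ p.edges, e ∈ LE z) ∧
            (∀ e ∈ p'.edges, e ∈ Z) ∧ p.length + p'.length ≤ dep z := by
      intro d
      induction d with
      | zero =>
        intro z hz hd
        have hzy : z = y := by
          by_contra h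
          have := hR.dep_par z hz h
          omega
        subst hzy
        exact ⟨z, SimpleGraph.Walk.nil, SimpleGraph.Walk.nil, by simp, by simp, by simp⟩
      | succ d ih =>
        intro z hz hd
        by_cases hpop : z = y ∨ A ≤ (Desc z).card
        · obtain ⟨p', hp', hl⟩ := hP1 (d + 1) z hz hd hpop
          exact ⟨z, SimpleGraph.Walk.nil, p', by simp, hp', by simpa using hl⟩
        · push Not at hpop
          obtain ⟨hzy, hlt⟩ := hpop
          have hdp := hR.dep_par z hz hzy
          obtain ⟨w, p, p', hp, hp', hl⟩ := ih (par z) (hR.par_mem z hz hzy) (by omega)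
          refine ⟨w, SimpleGraph.Walk.cons (hR.adj z hz hzy) p, p', ?_, hp', ?_⟩
          · intro e he
            rw [SimpleGraph.Walk.edges_cons, List.mem_cons] at he
            rcases he with rfl | he
            · rw [mem_LE]
              refine ⟨z, (mem_Lo z z).2 ⟨hz, hzy, hlt, ?_⟩, rfl⟩
              rw [mem_Desc]
              exact ⟨hz, 0, Nat.zero_le _, rfl⟩
            · have h1 := hp e he
              rw [mem_LE] at h1 ⊢
              obtain ⟨v, hv, hve⟩ := h1
              refine ⟨v, ?_, hve⟩
              rw [mem_Lo] at hv ⊢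
              refine ⟨hv.1, hv.2.1, hv.2.2.1, ?_⟩
              have h2 := hv.2.2.2
              rw [mem_Desc] at h2 ⊢
              obtain ⟨_, i, _, hi⟩ := h2
              refine ⟨hz, i + 1, ?_, ?_⟩
              · have h3 := hiter i (par z) (hR.par_mem z hz hzy) v hi hv.2.1
                have h4 := hR.dep_le z hz
                omega
              · rw [Function.iterate_succ_apply, pr_ne z hzy]; exact hi
          · rw [SimpleGraph.Walk.length_cons]; omega
    intro z hz
    refine ⟨?_, ?_⟩
    · intro e he
      obtain ⟨v, hv, rfl⟩ := (mem_LE z e).1 he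
      rw [mem_Lo] at hv
      refine ⟨?_, hR.adj v hv.1 hv.2.1⟩
      intro hZ
      obtain ⟨v', hv', hvv'⟩ := (mem_Z _).1 hZ
      rw [mem_Pop] at hv'
      have : v' = v := hinj v' hv'.1 v hv.1 hv'.2.1 hv.2.1 hvv'
      rw [this] at hv'
      omega
    · obtain ⟨w, p, p', hp, hp', hl⟩ := hP2 (dep z) z hz rfl
      exact ⟨w, p, p', hp, hp', hl.trans (hR.dep_le z hz)⟩

end Pool.Agent.H21.Imm
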